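import Pool.Agent.Work.MP_308fa9_nt.OF.Cell
import Pool.Agent.Work.MP_308fa9_nt.BG.Cusp

set_option autoImplicit false

/-!
Few polynomials come from reduced pairs with a short vector.
-/

namespace Stoll308.OF

open Polynomial Finset Matrix BG

theorem cusp (n : ℕ) (hn : 3 ≤ n) (ho : Odd n) (K : ℝ) (hK : 1 ≤ K) (ε : ℝ) (hε : 0 < ε) :
    ∃ (τ₀ : ℝ) (H₀ : ℕ), 0 < τ₀ ∧ ∀ H : ℕ, H₀ ≤ H → ∀ T : Finset (Fin (n + 1) → ℤ),
      (∀ a ∈ T, a 0 ≠ 0 ∧ |(a 0 : ℝ)| ≤ H ∧ Irreducible (FZ ℚ (mcf a)) ∧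
        ∃ (A B : Matrix (Fin n) (Fin n) ℤ) (t : Fin n → ℝ), RPair K H a A B t ∧
          ∃ i, t i ≤ τ₀) →
      (T.card : ℝ) ≤ ε * (H : ℝ) ^ (n + 1) := by
  classical
  obtain ⟨C, Q, τ₁, hC, hcell⟩ := cell n hn ho K hK
  obtain ⟨R, M₀, hM₀1, hcells⟩ := Cusp.cells (by omega : 0 < n) Q hC hε
  set R' : ℕ := R + τ₁.natAbs with hR'
  refine ⟨(2 : ℝ) ^ (-(R' : ℤ)), ⌈M₀⌉₊, by positivity, fun H hH T hT => ?_⟩
  have hM : M₀ ≤ (H : ℝ) := (Nat.le_ceil M₀).trans (by exact_mod_cast hH)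
  have hM1 : (1 : ℝ) ≤ H := hM₀1.trans hM
  have hH1 : 1 ≤ H := by exact_mod_cast hM1
  have hirr : ∀ a ∈ T, a 0 ≠ 0 ∧ |(a 0 : ℝ)| ≤ H ∧ Irreducible (FZ ℚ (mcf a)) :=
    fun a ha => ⟨(hT a ha).1, (hT a ha).2.1, (hT a ha).2.2.1⟩
  have hex : ∀ a ∈ T, ∃ (A B : Matrix (Fin n) (Fin n) ℤ) (t : Fin n → ℝ),
      RPair K H a A B t ∧ ∃ i, t i ≤ (2 : ℝ) ^ (-(R' : ℤ)) := fun a ha => (hT a ha).2.2.2
  choose! A B t hR hi using hex
  set f : (Fin (n + 1) → ℤ) → Fin n → ℤ := fun c i => Int.log 2 (t c i) with hf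
  have hbox : ∀ c ∈ T, ∀ i, (2 : ℝ) ^ (f c i) ≤ t c i ∧ t c i < (2 : ℝ) ^ (f c i + 1) := by
    intro c hc i
    have hpos := (hR c hc).pos i
    have h1 := Int.zpow_log_le_self (b := 2) (by norm_num) hpos
    have h2 := Int.lt_zpow_succ_log_self (b := 2) (by norm_num) (t c i)
    exact ⟨by exact_mod_cast h1, by exact_mod_cast h2⟩
  have hz : ∀ c ∈ T, f c ⟨0, by omega⟩ ≤ -(R' : ℤ) := by
    intro c hc
    obtain ⟨i, hi1⟩ := hi c hc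
    have h0 : t c ⟨0, by omega⟩ ≤ t c i := (hR c hc).mono _ _ (Fin.le_def.2 (Nat.zero_le _))
    have h1 := (hbox c hc ⟨0, by omega⟩).1.trans (h0.trans hi1)
    exact (zpow_le_zpow_iff_right₀ (by norm_num : (1 : ℝ) < 2)).mp h1
  have hc1 : ∀ c ∈ T, ∀ S ⊆ T, S.Nonempty → (∀ c' ∈ S, f c' = f c) →
      (∀ i, f c ⟨0, by omega⟩ ≤ f c i) ∧ (∀ i, f c i ≤ Q * (1 + |f c ⟨0, by omega⟩|)) ∧
      (2 : ℝ) ^ (-f c ⟨0, by omega⟩) ≤ C * (H : ℝ) ^ Q ∧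
      (S.card : ℝ) ≤ C * (H : ℝ) ^ (n + 1) *
        √(max ((2 : ℝ) ^ (f c ⟨0, by omega⟩)) (1 / (H : ℝ))) := by
    intro c hc S hS hSne hSf
    refine hcell H (f c) hH1 ?_ S hSne ?_
    · have h1 := hz c hc
      rw [hR'] at h1
      push_cast at h1
      have h2 : -|τ₁| ≤ τ₁ := neg_abs_le τ₁
      have h3 : (0 : ℤ) ≤ R := Int.natCast_nonneg R
      linarith
    · intro c' hc'
      obtain ⟨g1, g2, g3⟩ := hirr c' (hS hc')
      refine ⟨g1, g2, g3, A c', B c', t c', hR c' (hS hc'), fun i => ?_⟩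
      have := hbox c' (hS hc') i
      rwa [hSf c' hc'] at this
  have hself : ∀ c ∈ T, _ := fun c hc => hc1 c hc {c} (Finset.singleton_subset_iff.mpr hc)
    (Finset.singleton_nonempty c) (fun c' hc' => by rw [Finset.mem_singleton.mp hc'])
  refine hcells H hM T f ((H : ℝ) ^ (n + 1)) (by positivity) ?_
    (fun c hc => (hself c hc).1) (fun c hc => (hself c hc).2.1)
    (fun c hc => (hself c hc).2.2.1) ?_
  · intro c hc
    have h1 := hz c hc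
    rw [hR'] at h1
    push_cast at h1
    have h3 : (0 : ℤ) ≤ |τ₁| := abs_nonneg τ₁
    linarith
  · intro c hc S hS hSf
    rcases S.eq_empty_or_nonempty with rfl | hne
    · rw [Finset.card_empty]
      push_cast
      positivity
    · exact (hc1 c hc S hS hne hSf).2.2.2

end Stoll308.OF
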