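import Pool.Agent.Work.MP_308fa9_nt.BF.Els

set_option autoImplicit false

/-!
A positive proportion of the curves is everywhere locally soluble, `n` odd.
-/

namespace Stoll308.OF

open Polynomial Finset BG BF

namespace Els

section field

variable {K : Type*} [Field K]

/-- Two polynomials `g(x²)` which are constants times squares, of the same degree `n` and leading
coefficient, are equal if their difference has degree less than `n / 2`. -/
lemma uniq_sq (h2 : (2 : K) ≠ 0) {n : ℕ} {g₁ g₂ : K[X]} (hn : 2 * (g₁ - g₂).natDegree < n)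
    (hd₁ : g₁.natDegree = n) (hd₂ : g₂.natDegree = n) (hl : g₁.leadingCoeff = g₂.leadingCoeff)
    {c₁ c₂ : K} {s₁ s₂ : K[X]}
    (h₁ : expand K (2 * 1) g₁ = C c₁ * s₁ ^ 2) (h₂ : expand K (2 * 1) g₂ = C c₂ * s₂ ^ 2) :
    g₁ = g₂ := by
  have hk2 : 0 < 2 * 1 := by omega
  have hg₁ : g₁ ≠ 0 := by
    rintro rfl
    simp at hd₁
    omega
  have hg₂ : g₂ ≠ 0 := by
    rintro rfl
    simp at hd₂
    omega
  have he₁ : expand K (2 * 1) g₁ ≠ 0 := (expand_ne_zero hk2).2 hg₁
  have he₂ : expand K (2 * 1) g₂ ≠ 0 := (expand_ne_zero hk2).2 hg₂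
  obtain ⟨t₁, ht₁, e₁⟩ := BG.Els.normal_sq he₁ h₁
  obtain ⟨t₂, ht₂, e₂⟩ := BG.Els.normal_sq he₂ h₂
  have hlc : ∀ g : K[X], (expand K (2 * 1) g).leadingCoeff = g.leadingCoeff := by
    intro g
    unfold leadingCoeff
    rw [natDegree_expand, coeff_expand_mul hk2]
  rw [hlc] at e₁ e₂
  rw [← hl] at e₂
  set a := g₁.leadingCoeff with ha
  have ha0 : a ≠ 0 := leadingCoeff_ne_zero.2 hg₁
  have hdt₁ : t₁.natDegree = n := by
    have := congrArg natDegree e₁
    rw [natDegree_expand, natDegree_C_mul ha0, natDegree_pow, hd₁] at this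
    omega
  have hdt₂ : t₂.natDegree = n := by
    have := congrArg natDegree e₂
    rw [natDegree_expand, natDegree_C_mul ha0, natDegree_pow, hd₂] at this
    omega
  have hsub : expand K (2 * 1) (g₁ - g₂) = C a * ((t₁ - t₂) * (t₁ + t₂)) := by
    rw [map_sub, e₁, e₂]
    ring
  have htt : t₁ = t₂ := by
    by_contra hne
    have hd0 : t₁ - t₂ ≠ 0 := sub_ne_zero.2 hne
    have hsum : (t₁ + t₂).coeff n = 2 := by
      rw [coeff_add]
      have h3 : t₁.coeff n = 1 := by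
        have := ht₁
        rw [Monic, leadingCoeff, hdt₁] at this
        exact this
      have h4 : t₂.coeff n = 1 := by
        have := ht₂
        rw [Monic, leadingCoeff, hdt₂] at this
        exact this
      rw [h3, h4]
      norm_num
    have hs0 : t₁ + t₂ ≠ 0 := by
      intro h0
      rw [h0, coeff_zero] at hsum
      exact h2 hsum.symm
    have hdeg : n ≤ (t₁ + t₂).natDegree := by
      apply le_natDegree_of_ne_zero
      rw [hsum]
      exact h2
    have h5 := congrArg natDegree hsub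
    rw [natDegree_expand, natDegree_C_mul ha0, natDegree_mul hd0 hs0] at h5
    omega
  apply expand_injective hk2
  show expand K (2 * 1) g₁ = expand K (2 * 1) g₂
  rw [e₁, e₂, htt]

end field

section char

variable {K : Type*} [Field K] {p : ℕ} [CharP K p] {n : ℕ}

lemma last_dvd (hn : 1 ≤ n) (ho : Odd n) (h2 : (2 : K) ≠ 0) {a : Fin (n + 1) → ℤ}
    (ha : (a 0 : K) ≠ 0) (h : BF.Els.SqK K a) : (p : ℤ) ∣ a (Fin.last n) := by
  obtain ⟨c, s, h⟩ := h
  have hx0 : (⟨n - n, by omega⟩ : Fin (n + 1)) = 0 := by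
    apply Fin.ext
    simp
  have hd : (GZ K a).natDegree = n := by
    apply BF.Els.gz_degree _ le_rfl
    · intro i hi
      omega
    · rw [hx0]
      exact ha
  have h1 := BG.Els.odd_struct h2 le_rfl (by rw [← even_iff_two_dvd, Nat.not_even_iff_odd]; exact ho)
    hd h
  rw [BF.Els.gz_coeff _ (Nat.zero_le n)] at h1
  rw [← PEls.cast_eq_zero (K := K)]
  exact h1

lemma dvd_of_eq {a a' : Fin (n + 1) → ℤ} (key : GZ K a = GZ K a') (i : Fin (n + 1)) :
    (p : ℤ) ∣ a i - a' i := by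
  have h3 : (GZ K a).coeff (n - i) = (GZ K a').coeff (n - i) := by rw [key]
  have hi := i.2
  rw [BF.Els.gz_coeff _ (by omega), BF.Els.gz_coeff _ (by omega)] at h3
  have hidx : (⟨n - (n - (i : ℕ)), by omega⟩ : Fin (n + 1)) = i := by
    apply Fin.ext
    simp only
    omega
  rw [hidx] at h3
  rw [← PEls.cast_eq_zero (K := K)]
  push_cast
  rw [h3, sub_self]

lemma uniqA (hn : 3 ≤ n) (h2 : (2 : K) ≠ 0) {a a' : Fin (n + 1) → ℤ} (h : BF.Els.SqK K a)
    (h' : BF.Els.SqK K a') (haa : ∀ i : Fin (n + 1), (i : ℕ) + 1 < n → a i = a' i)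
    (h0 : (a 0 : K) ≠ 0) (i : Fin (n + 1)) : (p : ℤ) ∣ a i - a' i := by
  obtain ⟨c, s, h⟩ := h
  obtain ⟨c', s', h'⟩ := h'
  have e0 : a' 0 = a 0 := (haa 0 (by simp only [Fin.val_zero]; omega)).symm
  have hdiff : (GZ K a - GZ K a').natDegree ≤ 1 := by
    rw [natDegree_le_iff_coeff_eq_zero]
    intro N hN
    rw [coeff_sub, sub_eq_zero]
    by_cases hNn : N ≤ n
    · rw [BF.Els.gz_coeff _ hNn, BF.Els.gz_coeff _ hNn, haa _ (by simp only; omega)]
    · rw [BF.Els.gz_coeff_gt _ (by omega), BF.Els.gz_coeff_gt _ (by omega)]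
  apply dvd_of_eq (K := K)
  have hx0 : (⟨n - n, by omega⟩ : Fin (n + 1)) = 0 := by
    apply Fin.ext
    simp
  have hd : (GZ K a).natDegree = n := by
    apply BF.Els.gz_degree _ le_rfl
    · intro i hi
      omega
    · rw [hx0]
      exact h0
  have hd' : (GZ K a').natDegree = n := by
    apply BF.Els.gz_degree _ le_rfl
    · intro i hi
      omega
    · rw [hx0, e0]
      exact h0
  refine uniq_sq h2 (by omega) hd hd' ?_ h h'
  rw [leadingCoeff, leadingCoeff, hd, hd', BF.Els.gz_coeff _ le_rfl, BF.Els.gz_coeff _ le_rfl,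
    hx0, e0]

lemma uniqB (hn : 3 ≤ n) (h2 : (2 : K) ≠ 0) {a a' : Fin (n + 1) → ℤ} (h : BF.Els.SqK K a)
    (h' : BF.Els.SqK K a') (h0 : (a 0 : K) = 0) (h0' : (a' 0 : K) = 0)
    (haa : ∀ i : Fin (n + 1), 1 ≤ (i : ℕ) → (i : ℕ) < n → a i = a' i)
    (h1 : (a 1 : K) ≠ 0) (i : Fin (n + 1)) : (p : ℤ) ∣ a i - a' i := by
  obtain ⟨c, s, h⟩ := h
  obtain ⟨c', s', h'⟩ := h'
  have v1 : ((1 : Fin (n + 1)) : ℕ) = 1 := by
    rw [Fin.val_one', Nat.mod_eq_of_lt (by omega)]
  have e1 : a' 1 = a 1 := (haa 1 (by rw [v1]) (by rw [v1]; omega)).symm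
  have hx0 : (⟨n - n, by omega⟩ : Fin (n + 1)) = 0 := by
    apply Fin.ext
    simp
  have hdiff : (GZ K a - GZ K a').natDegree ≤ 0 := by
    rw [natDegree_le_iff_coeff_eq_zero]
    intro N hN
    rw [coeff_sub, sub_eq_zero]
    by_cases hNn : N ≤ n
    · rw [BF.Els.gz_coeff _ hNn, BF.Els.gz_coeff _ hNn]
      rcases Nat.lt_or_ge N n with hlt | hge
      · rw [haa _ (by simp only; omega) (by simp only; omega)]
      · have hNn' : N = n := le_antisymm hNn hge
        subst hNn'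
        rw [hx0, h0, h0']
    · rw [BF.Els.gz_coeff_gt _ (by omega), BF.Els.gz_coeff_gt _ (by omega)]
  apply dvd_of_eq (K := K)
  have hx1 : (⟨n - (n - 1), by omega⟩ : Fin (n + 1)) = 1 := by
    apply Fin.ext
    rw [v1]
    simp only
    omega
  have hz : ∀ i : Fin (n + 1), (i : ℕ) + (n - 1) < n → i = 0 := by
    intro i hi
    apply Fin.ext
    rw [Fin.val_zero]
    omega
  have hd : (GZ K a).natDegree = n - 1 := by
    apply BF.Els.gz_degree _ (by omega)
    · intro i hi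
      rw [hz i hi]
      exact h0
    · rw [hx1]
      exact h1
  have hd' : (GZ K a').natDegree = n - 1 := by
    apply BF.Els.gz_degree _ (by omega)
    · intro i hi
      rw [hz i hi]
      exact h0'
    · rw [hx1, e1]
      exact h1
  refine uniq_sq h2 (by omega) hd hd' ?_ h h'
  rw [leadingCoeff, leadingCoeff, hd, hd', BF.Els.gz_coeff _ (by omega),
    BF.Els.gz_coeff _ (by omega), hx1, e1]

end char

/-- The bad parameters at `p`, second kind. -/
noncomputable def S2 (n : ℕ) (M : ℤ) (h p : ℕ) : Finset (Fin (n + 1) → ℤ) := by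
  classical
  exact (BF.Els.box (n + 1) h).filter fun t => ¬ (p : ℤ) ∣ BF.Els.co M t 0 ∧
    ∃ _ : Fact p.Prime, BF.Els.SqK (AlgebraicClosure (ZMod p)) (BF.Els.co M t)

/-- The bad parameters at `p`, third kind. -/
noncomputable def S3 (n : ℕ) (M : ℤ) (h p : ℕ) : Finset (Fin (n + 1) → ℤ) := by
  classical
  exact (BF.Els.box (n + 1) h).filter fun t => (p : ℤ) ∣ BF.Els.co M t 0 ∧
    ¬ (p : ℤ) ∣ BF.Els.co M t 1 ∧
    ∃ _ : Fact p.Prime, BF.Els.SqK (AlgebraicClosure (ZMod p)) (BF.Els.co M t)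

lemma two_ne_closure {p : ℕ} [Fact p.Prime] (hp2 : p ≠ 2) :
    (2 : AlgebraicClosure (ZMod p)) ≠ 0 := by
  intro h0
  apply BG.Els.two_ne (p := p) hp2
  apply (algebraMap (ZMod p) (AlgebraicClosure (ZMod p))).injective
  rw [map_ofNat, map_zero]
  exact h0

lemma card_S1 {n : ℕ} (hn : 3 ≤ n) {M : ℤ} {h p : ℕ} (hp : p.Prime) (hpM : ¬ (p : ℤ) ∣ M) :
    ((BF.Els.S1 n M h p).card : ℝ) ≤ (h : ℝ) ^ (n - 1) * ((h : ℝ) / p + 1) ^ 2 := by
  classical
  have h01 : (0 : Fin (n + 1)) ≠ 1 := by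
    intro h0
    have := congrArg Fin.val h0
    rw [Fin.val_one', Fin.val_zero, Nat.mod_eq_of_lt (by omega)] at this
    omega
  have hc : ({0, 1} : Finset (Fin (n + 1))).card = 2 := card_pair h01
  have h1 := BF.Els.card_le_mod hp.pos {0, 1} (BF.Els.S1 n M h p)
    (by unfold BF.Els.S1; exact filter_subset _ _) (by
    intro t ht t' ht' _ i hi
    rw [BF.Els.S1, mem_filter] at ht ht'
    apply BF.Els.dvd_of_co hp hpM
    rw [mem_insert, mem_singleton] at hi
    rcases hi with rfl | rfl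
    · exact dvd_sub ht.2.1 ht'.2.1
    · exact dvd_sub ht.2.2 ht'.2.2)
  rw [hc] at h1
  exact h1

lemma card_S2 {n : ℕ} (hn : 3 ≤ n) {M : ℤ} {h p : ℕ} (hp : p.Prime) (hp2 : p ≠ 2)
    (hpM : ¬ (p : ℤ) ∣ M) :
    ((S2 n M h p).card : ℝ) ≤ (h : ℝ) ^ (n - 1) * ((h : ℝ) / p + 1) ^ 2 := by
  classical
  have := Fact.mk hp
  have h2K := two_ne_closure (p := p) hp2
  set u : Fin (n + 1) := ⟨n - 1, by omega⟩ with hu
  set w : Fin (n + 1) := ⟨n, by omega⟩ with hw
  have huw : u ≠ w := by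
    intro h0
    have := congrArg Fin.val h0
    simp only [hu, hw] at this
    omega
  have hc : ({u, w} : Finset (Fin (n + 1))).card = 2 := card_pair huw
  have h1 := BF.Els.card_le_mod hp.pos {u, w} (S2 n M h p)
    (by unfold S2; exact filter_subset _ _) (by
    intro t ht t' ht' htt i hi
    rw [S2, mem_filter] at ht ht'
    apply BF.Els.dvd_of_co hp hpM
    obtain ⟨-, ht0, _, ht1⟩ := ht
    obtain ⟨-, ht0', _, ht1'⟩ := ht'
    apply uniqA (K := AlgebraicClosure (ZMod p)) hn h2K ht1 ht1'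
    · intro j hj
      unfold BF.Els.co
      rw [htt j]
      rw [mem_insert, mem_singleton, not_or]
      constructor
      · intro h0
        have := congrArg Fin.val h0
        simp only [hu] at this
        omega
      · intro h0
        have := congrArg Fin.val h0
        simp only [hw] at this
        omega
    · rw [Ne, BG.PEls.cast_eq_zero (p := p)]
      exact ht0)
  rw [hc] at h1
  exact h1

lemma card_S3 {n : ℕ} (hn : 3 ≤ n) {M : ℤ} {h p : ℕ} (hp : p.Prime) (hp2 : p ≠ 2)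
    (hpM : ¬ (p : ℤ) ∣ M) :
    ((S3 n M h p).card : ℝ) ≤ (h : ℝ) ^ (n - 1) * ((h : ℝ) / p + 1) ^ 2 := by
  classical
  have := Fact.mk hp
  have h2K := two_ne_closure (p := p) hp2
  set w : Fin (n + 1) := ⟨n, by omega⟩ with hw
  have huw : (0 : Fin (n + 1)) ≠ w := by
    intro h0
    have := congrArg Fin.val h0
    simp only [hw, Fin.val_zero] at this
    omega
  have hc : ({0, w} : Finset (Fin (n + 1))).card = 2 := card_pair huw
  have h1 := BF.Els.card_le_mod hp.pos {0, w} (S3 n M h p)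
    (by unfold S3; exact filter_subset _ _) (by
    intro t ht t' ht' htt i hi
    rw [S3, mem_filter] at ht ht'
    apply BF.Els.dvd_of_co hp hpM
    obtain ⟨-, ht0, ht01, _, ht1⟩ := ht
    obtain ⟨-, ht0', -, _, ht1'⟩ := ht'
    apply uniqB (K := AlgebraicClosure (ZMod p)) hn h2K ht1 ht1'
    · rw [BG.PEls.cast_eq_zero (p := p)]
      exact ht0
    · rw [BG.PEls.cast_eq_zero (p := p)]
      exact ht0'
    · intro j hj1 hj
      unfold BF.Els.co
      rw [htt j]
      rw [mem_insert, mem_singleton, not_or]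
      constructor
      · intro h0
        have := congrArg Fin.val h0
        rw [Fin.val_zero] at this
        omega
      · intro h0
        have := congrArg Fin.val h0
        simp only [hw] at this
        omega
    · rw [Ne, BG.PEls.cast_eq_zero (p := p)]
      exact ht01)
  rw [hc] at h1
  exact h1

end Els

theorem els_many (n : ℕ) (hn : 3 ≤ n) (ho : Odd n) (ψ : ℤ[X]) (hψ : 1 ≤ ψ.natDegree) :
    ∃ c₀ : ℝ, 0 < c₀ ∧ ∃ H₀ : ℕ, ∀ H : ℕ, H₀ ≤ H →
      c₀ * H ^ (n + 1) ≤ (cnt n (ELS ψ) H : ℝ) := by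
  classical
  have hψ0 : ψ ≠ 0 := by
    rintro rfl
    simp at hψ
  have hlc : ψ.leadingCoeff ≠ 0 := leadingCoeff_ne_zero.2 hψ0
  obtain ⟨Q, hQ⟩ : ∃ Q : ℕ, Q = (n * 2 * ψ.natDegree + 2) ^ 2 + ψ.leadingCoeff.natAbs + 24 :=
    ⟨_, rfl⟩
  obtain ⟨M, hMdef⟩ : ∃ M : ℕ, M = 8 * Q.factorial := ⟨_, rfl⟩
  have hM : 0 < M := by
    rw [hMdef]
    exact Nat.mul_pos (by norm_num) (Nat.factorial_pos _)
  have hMz : (0 : ℤ) < (M : ℤ) := by exact_mod_cast hM
  have hM0 : (0 : ℝ) < M := by exact_mod_cast hM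
  have hQM : ∀ p : ℕ, p.Prime → Q < p → ¬ (p : ℤ) ∣ (M : ℤ) := by
    intro p hp hQp h
    rw [Int.natCast_dvd_natCast, hMdef] at h
    rcases (hp.dvd_mul).1 h with h | h
    · have h2 : p ∣ 2 ^ 3 := by norm_num; exact h
      have := Nat.le_of_dvd (by norm_num) (hp.dvd_of_dvd_pow h2)
      omega
    · have := (hp.dvd_factorial).1 h
      omega
  refine ⟨1 / (2 * (4 * M) ^ (n + 1)), by positivity, 4 * M * (Q + 48 * M + 2), ?_⟩
  intro H hH
  -- the number of parameters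
  obtain ⟨h, hh⟩ : ∃ h : ℕ, h = H / M - 1 := ⟨_, rfl⟩
  have hHM : 4 * (Q + 48 * M + 2) ≤ H / M := by
    rw [Nat.le_div_iff_mul_le hM]
    calc _ = 4 * M * (Q + 48 * M + 2) := by ring
      _ ≤ H := hH
  have hhQ : Q < h := by omega
  have hhM : 48 * M ≤ h := by omega
  have hh1 : 1 ≤ h := by omega
  have hh1' : (1 : ℝ) ≤ h := by exact_mod_cast hh1
  have hMh : M * (h + 1) ≤ H := by
    have : h + 1 = H / M := by omega
    rw [this]
    exact Nat.mul_div_le H M
  have hhH : (H : ℝ) / (4 * M) ≤ h := by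
    have h1 : H < M * (H / M + 1) := Nat.lt_mul_div_succ H hM
    have h2 : H / M + 1 ≤ 4 * h := by omega
    have h3 : H ≤ M * (4 * h) := h1.le.trans (Nat.mul_le_mul_left _ h2)
    rw [div_le_iff₀ (by positivity)]
    have h4 : (H : ℝ) ≤ M * (4 * h) := by exact_mod_cast h3
    linarith
  set s : ℤ := (ψ.coeff 0) ^ 2 with hs
  have hs0 : 0 ≤ s := sq_nonneg _
  -- sizes
  have hco : ∀ t ∈ BF.Els.box (n + 1) h, ∀ i, 0 < BF.Els.co (M : ℤ) t i ∧
      BF.Els.co (M : ℤ) t i ≤ M * (h + 1) := by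
    intro t ht i
    have h1 := BF.Els.pos_of_box ht i
    have h2 : (M : ℤ) * 1 ≤ M * t i := mul_le_mul_of_nonneg_left h1.1 hMz.le
    have h3 : (M : ℤ) * t i ≤ M * h := mul_le_mul_of_nonneg_left h1.2 hMz.le
    have h4 : (1 : ℤ) ≤ M := hMz
    unfold BF.Els.co
    constructor
    · split_ifs <;> linarith
    · split_ifs <;> linarith
  set bad := ((Ioc Q (M * (h + 1))).filter Nat.Prime).biUnion fun p =>
    BF.Els.S1 n M h p ∪ (Els.S2 n M h p ∪ Els.S3 n M h p) with hbad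
  have hgood : ∀ t ∈ BF.Els.box (n + 1) h \ bad, ELS ψ (BF.Els.co (M : ℤ) t) := by
    intro t ht
    rw [mem_sdiff] at ht
    obtain ⟨hb, hb1⟩ := ht
    obtain ⟨h2, h3⟩ := BF.Els.value hMz hs0 hb
    refine ⟨?_, BF.Els.point_real h3⟩
    intro p hp
    have hpp : p.Prime := hp.out
    by_cases hpQ : p ≤ Q
    · apply BF.Els.point_small
      refine dvd_trans ?_ h2
      rw [Int.natCast_dvd_natCast, hMdef]
      exact Nat.mul_dvd_mul_left 8 (Nat.dvd_factorial hpp.pos hpQ)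
    · push Not at hpQ
      have hp2 : p ≠ 2 := by omega
      have hψp : (ψ.leadingCoeff : ZMod p) ≠ 0 := by
        intro h0
        rw [ZMod.intCast_zmod_eq_zero_iff_dvd] at h0
        have h1 := Int.natAbs_dvd_natAbs.2 h0
        rw [Int.natAbs_natCast] at h1
        have h2 := Nat.le_of_dvd (Int.natAbs_pos.2 hlc) h1
        omega
      apply BF.Els.point_good hψ hψp (by omega) hp2
      intro hcon
      by_cases hph : p ≤ M * (h + 1)
      · apply hb1
        rw [hbad, mem_biUnion]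
        refine ⟨p, mem_filter.2 ⟨mem_Ioc.2 ⟨hpQ, hph⟩, hpp⟩, ?_⟩
        rw [mem_union, mem_union]
        by_cases h0 : (p : ℤ) ∣ BF.Els.co (M : ℤ) t 0
        · by_cases h1 : (p : ℤ) ∣ BF.Els.co (M : ℤ) t 1
          · left
            rw [BF.Els.S1, mem_filter]
            exact ⟨hb, h0, h1⟩
          · right; right
            rw [Els.S3, mem_filter]
            exact ⟨hb, h0, h1, hp, hcon⟩
        · right; left
          rw [Els.S2, mem_filter]
          exact ⟨hb, h0, hp, hcon⟩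
      · push Not at hph
        have hlt : ∀ i, ¬ (p : ℤ) ∣ BF.Els.co (M : ℤ) t i := by
          intro i hd
          have h4 := hco t hb i
          have h5 := Int.le_of_dvd h4.1 hd
          have h6 : ((M * (h + 1) : ℕ) : ℤ) < p := by exact_mod_cast hph
          push_cast at h6
          linarith [h4.2]
        have ha0 : (BF.Els.co (M : ℤ) t 0 : AlgebraicClosure (ZMod p)) ≠ 0 := by
          rw [Ne, BG.PEls.cast_eq_zero (p := p)]
          exact hlt 0
        exact hlt (Fin.last n) (Els.last_dvd (K := AlgebraicClosure (ZMod p)) (by omega) ho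
          (Els.two_ne_closure hp2) ha0 hcon)
  -- the count
  have hinj : ((BF.Els.box (n + 1) h \ bad).card : ℝ) ≤ (cnt n (ELS ψ) H : ℝ) := by
    unfold BF.cnt
    have h1 : (BF.Els.box (n + 1) h \ bad).card ≤
        ((Fintype.piFinset fun _ : Fin (n + 1) => Icc (-(H : ℤ)) (H : ℤ)).filter
          (ELS ψ)).card := by
      apply card_le_card_of_injOn (BF.Els.co (M : ℤ))
      · intro t ht
        rw [mem_coe] at ht
        have hb := (mem_sdiff.1 ht).1
        rw [mem_coe, mem_filter, Fintype.mem_piFinset]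
        refine ⟨fun i => ?_, hgood t ht⟩
        have h2 := hco t hb i
        have h3 : (M : ℤ) * (h + 1) ≤ H := by exact_mod_cast hMh
        rw [mem_Icc]
        constructor <;> linarith [h2.1, h2.2]
      · intro t _ t' _ htt
        funext i
        exact BF.Els.co_inj hMz.ne' (congrFun htt i)
    exact_mod_cast h1
  have hb3 : ((BF.Els.box (n + 1) h).card : ℝ) ≤
      ((BF.Els.box (n + 1) h \ bad).card : ℝ) + (bad.card : ℝ) := by
    have h1 : BF.Els.box (n + 1) h ⊆ (BF.Els.box (n + 1) h \ bad) ∪ bad := by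
      intro t ht
      rw [mem_union, mem_sdiff]
      by_cases h : t ∈ bad
      · exact Or.inr h
      · exact Or.inl ⟨ht, h⟩
    exact_mod_cast (card_le_card h1).trans (card_union_le _ _)
  rw [BF.Els.card_box] at hb3
  push_cast at hb3
  have hb2 : (bad.card : ℝ) ≤ (h : ℝ) ^ (n + 1) / 2 := by
    have h1 : (bad.card : ℝ) ≤ ∑ p ∈ (Ioc Q (M * (h + 1))).filter Nat.Prime,
        (((BF.Els.S1 n M h p).card : ℝ) + (((Els.S2 n M h p).card : ℝ) +
          ((Els.S3 n M h p).card : ℝ))) := by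
      have h2 := card_biUnion_le (s := (Ioc Q (M * (h + 1))).filter Nat.Prime)
        (t := fun p => BF.Els.S1 n M h p ∪ (Els.S2 n M h p ∪ Els.S3 n M h p))
      have h3 : (bad.card : ℝ) ≤ ∑ p ∈ (Ioc Q (M * (h + 1))).filter Nat.Prime,
        (((BF.Els.S1 n M h p ∪ (Els.S2 n M h p ∪ Els.S3 n M h p)).card : ℕ) : ℝ) := by
        exact_mod_cast h2
      refine h3.trans (sum_le_sum fun p _ => ?_)
      exact_mod_cast (card_union_le _ _).trans (Nat.add_le_add_left (card_union_le _ _) _)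
    have h2 : ∑ p ∈ (Ioc Q (M * (h + 1))).filter Nat.Prime,
        (((BF.Els.S1 n M h p).card : ℝ) + (((Els.S2 n M h p).card : ℝ) +
          ((Els.S3 n M h p).card : ℝ))) ≤
        ∑ p ∈ Ioc Q (M * (h + 1)), (h : ℝ) ^ (n - 1) * (6 * (h : ℝ) ^ 2 * ((p : ℝ) ^ 2)⁻¹ + 6) := by
      refine (sum_le_sum fun p hp => ?_).trans
        (sum_le_sum_of_subset_of_nonneg (filter_subset _ _) fun p _ _ => by positivity)
      rw [mem_filter, mem_Ioc] at hp
      have hp0 : (0 : ℝ) < p := by exact_mod_cast hp.2.pos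
      have h3 := Els.card_S1 hn (M := (M : ℤ)) (h := h) hp.2 (hQM p hp.2 hp.1.1)
      have h4 := Els.card_S2 hn (M := (M : ℤ)) (h := h) hp.2 (by omega) (hQM p hp.2 hp.1.1)
      have h4' := Els.card_S3 hn (M := (M : ℤ)) (h := h) hp.2 (by omega) (hQM p hp.2 hp.1.1)
      have h5 : ((h : ℝ) / p + 1) ^ 2 ≤ 2 * ((h : ℝ) / p) ^ 2 + 2 := by
        nlinarith [sq_nonneg ((h : ℝ) / p - 1)]
      have h6 : ((h : ℝ) / p) ^ 2 = (h : ℝ) ^ 2 * ((p : ℝ) ^ 2)⁻¹ := by
        rw [div_pow, div_eq_mul_inv]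
      rw [h6] at h5
      have h7 := mul_le_mul_of_nonneg_left h5 (by positivity : (0 : ℝ) ≤ (h : ℝ) ^ (n - 1))
      linarith
    have hN : Q ≤ M * (h + 1) := by
      have : 1 * h ≤ M * (h + 1) := Nat.mul_le_mul hM (by omega)
      omega
    have h3 : ∑ p ∈ Ioc Q (M * (h + 1)), (((p : ℕ) : ℝ) ^ 2)⁻¹ ≤ 1 / 24 := by
      have hsum := sum_Ioc_inv_sq_le_sub (α := ℝ) (k := Q) (n := M * (h + 1)) (by omega) hN
      have h4 : (0 : ℝ) ≤ (((M * (h + 1) : ℕ) : ℕ) : ℝ)⁻¹ := by positivity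
      have hQ16 : (24 : ℝ) ≤ Q := by
        have : 24 ≤ Q := by omega
        exact_mod_cast this
      have h5 : (Q : ℝ)⁻¹ ≤ 1 / 24 := by
        rw [one_div]
        exact inv_anti₀ (by norm_num) hQ16
      linarith
    have h4 : (((Ioc Q (M * (h + 1))).card : ℕ) : ℝ) ≤ 2 * M * h := by
      rw [Nat.card_Ioc]
      have h5 : M * (h + 1) - Q ≤ 2 * M * h := by
        have : M * (h + 1) ≤ M * (2 * h) := Nat.mul_le_mul_left _ (by omega)
        calc M * (h + 1) - Q ≤ M * (h + 1) := Nat.sub_le _ _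
          _ ≤ M * (2 * h) := this
          _ = 2 * M * h := by ring
      exact_mod_cast h5
    have h5 : (h : ℝ) ^ (n + 1) = (h : ℝ) ^ (n - 1) * (h : ℝ) ^ 2 := by
      rw [← pow_add]
      congr 1
      omega
    refine h1.trans (h2.trans ?_)
    rw [← mul_sum, sum_add_distrib, ← mul_sum, sum_const, nsmul_eq_mul, h5]
    have h7 : 6 * (h : ℝ) ^ 2 * ∑ p ∈ Ioc Q (M * (h + 1)), (((p : ℕ) : ℝ) ^ 2)⁻¹ ≤
        6 * (h : ℝ) ^ 2 * (1 / 24) :=
      mul_le_mul_of_nonneg_left h3 (by positivity)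
    have h8 : 48 * (M : ℝ) ≤ h := by exact_mod_cast hhM
    have h9 : 2 * (M : ℝ) * h * 6 ≤ (h : ℝ) ^ 2 / 4 := by nlinarith
    calc (h : ℝ) ^ (n - 1) * (6 * (h : ℝ) ^ 2 * ∑ p ∈ Ioc Q (M * (h + 1)), (((p : ℕ) : ℝ) ^ 2)⁻¹ +
          (((Ioc Q (M * (h + 1))).card : ℕ) : ℝ) * 6)
        ≤ (h : ℝ) ^ (n - 1) * (6 * (h : ℝ) ^ 2 * (1 / 24) + 2 * M * h * 6) := by gcongr
      _ ≤ (h : ℝ) ^ (n - 1) * ((h : ℝ) ^ 2 / 4 + (h : ℝ) ^ 2 / 4) := by
          apply mul_le_mul_of_nonneg_left _ (by positivity)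
          linarith
      _ = (h : ℝ) ^ (n - 1) * (h : ℝ) ^ 2 / 2 := by ring
  have hmain : (h : ℝ) ^ (n + 1) / 2 ≤ ((BF.Els.box (n + 1) h \ bad).card : ℝ) := by linarith
  refine le_trans ?_ (hmain.trans hinj)
  have h1 : ((H : ℝ) / (4 * M)) ^ (n + 1) ≤ (h : ℝ) ^ (n + 1) :=
    pow_le_pow_left₀ (by positivity) hhH _
  rw [div_pow] at h1
  calc 1 / (2 * (4 * (M : ℝ)) ^ (n + 1)) * (H : ℝ) ^ (n + 1)
      = (H : ℝ) ^ (n + 1) / (4 * M) ^ (n + 1) / 2 := by
        field_simp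
    _ ≤ (h : ℝ) ^ (n + 1) / 2 := by linarith

end Stoll308.OF
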