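import Pool.Agent.Work.MP_308fa9_nt.OF.Basic

set_option autoImplicit false

/-!
Most integers are exactly divisible by many primes.
-/

namespace Stoll308.OF

open Finset

private lemma exists_primes (c : ℝ) :
    ∃ u : Finset ℕ, (∀ p ∈ u, p.Prime) ∧ c ≤ ∑ p ∈ u, 1 / (p : ℝ) := by
  by_contra hcon
  push Not at hcon
  apply Nat.Primes.not_summable_one_div
  refine summable_of_sum_le (c := c) (fun p => by positivity) fun u => ?_
  have h := hcon (u.map ⟨fun p : Nat.Primes => (p : ℕ), Nat.Primes.coe_nat_injective⟩) ?_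
  · rw [Finset.sum_map] at h
    exact h.le
  · intro p hp
    rw [Finset.mem_map] at hp
    obtain ⟨q, _, rfl⟩ := hp
    exact q.2

/-- The weight at `p`. -/
private noncomputable def wt (p : ℕ) (y : ZMod (p ^ 2)) : ℝ :=
  if p ∣ y.val ∧ y ≠ 0 then 2 / 3 else 1

private lemma wt_nonneg (p : ℕ) (y : ZMod (p ^ 2)) : 0 ≤ wt p y := by
  unfold wt
  split_ifs <;> norm_num

private lemma wt_int (p : ℕ) [NeZero (p ^ 2)] (κ : ℤ) :
    wt p (κ : ZMod (p ^ 2)) = if (p : ℤ) ∣ κ ∧ ¬ (p : ℤ) ^ 2 ∣ κ then 2 / 3 else 1 := by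
  unfold wt
  have h1 : p ∣ (κ : ZMod (p ^ 2)).val ↔ (p : ℤ) ∣ κ := by
    rw [← Int.natCast_dvd_natCast, ZMod.val_intCast]
    have h2 : (p : ℤ) ∣ ((p ^ 2 : ℕ) : ℤ) := by
      push_cast
      exact dvd_pow_self _ two_ne_zero
    rw [Int.dvd_iff_emod_eq_zero, Int.emod_emod_of_dvd _ h2, ← Int.dvd_iff_emod_eq_zero]
  have h3 : (κ : ZMod (p ^ 2)) ≠ 0 ↔ ¬ (p : ℤ) ^ 2 ∣ κ := by
    rw [Ne, ZMod.intCast_zmod_eq_zero_iff_dvd]
    push_cast
    rfl
  simp only [h1, h3]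

private lemma sum_wt (p : ℕ) (hp : p.Prime) [NeZero (p ^ 2)] :
    ∑ y : ZMod (p ^ 2), wt p y ≤ (p : ℝ) ^ 2 * (1 - 1 / (6 * p)) := by
  have hp0 : (0 : ℝ) < p := by exact_mod_cast hp.pos
  have hp2 : (2 : ℝ) ≤ p := by exact_mod_cast hp.two_le
  have h1 : ∀ y : ZMod (p ^ 2), wt p y = 1 - (if p ∣ y.val ∧ y ≠ 0 then 1 / 3 else 0 : ℝ) := by
    intro y
    unfold wt
    split_ifs <;> norm_num
  simp only [h1]
  rw [Finset.sum_sub_distrib, Finset.sum_const, Finset.card_univ, ZMod.card, nsmul_eq_mul,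
    mul_one, ← Finset.sum_filter, Finset.sum_const, nsmul_eq_mul]
  have h2 : p - 1 ≤ (univ.filter fun y : ZMod (p ^ 2) => p ∣ y.val ∧ y ≠ 0).card := by
    have h3 : (Ico 1 p).card ≤ (univ.filter fun y : ZMod (p ^ 2) => p ∣ y.val ∧ y ≠ 0).card := by
      have hval : ∀ j ∈ Ico 1 p, (((p * j : ℕ) : ZMod (p ^ 2))).val = p * j := by
        intro j hj
        rw [mem_Ico] at hj
        refine ZMod.val_natCast_of_lt ?_
        rw [sq]
        exact Nat.mul_lt_mul_of_pos_left hj.2 hp.pos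
      refine Finset.card_le_card_of_injOn (fun j => ((p * j : ℕ) : ZMod (p ^ 2))) ?_ ?_
      · intro j hj
        have hj' : j ∈ Ico 1 p := by simpa using hj
        have hv := hval j hj'
        rw [mem_Ico] at hj'
        simp only [coe_filter, mem_univ, true_and, Set.mem_ofPred_eq]
        refine ⟨?_, ?_⟩
        · rw [hv]
          exact dvd_mul_right _ _
        · intro h0
          rw [h0, ZMod.val_zero] at hv
          have := Nat.mul_pos hp.pos hj'.1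
          omega
      · intro j hj k hk hjk
        have hj' : j ∈ Ico 1 p := by simpa using hj
        have hk' : k ∈ Ico 1 p := by simpa using hk
        have h4 := congrArg ZMod.val hjk
        simp only at h4
        rw [hval j hj', hval k hk'] at h4
        exact Nat.eq_of_mul_eq_mul_left hp.pos h4
    rwa [Nat.card_Ico] at h3
  have h4 : (p : ℝ) - 1 ≤ ((univ.filter fun y : ZMod (p ^ 2) => p ∣ y.val ∧ y ≠ 0).card : ℝ) := by
    have h5 : ((p - 1 : ℕ) : ℝ) ≤ ((univ.filter fun y : ZMod (p ^ 2) => p ∣ y.val ∧ y ≠ 0).card : ℝ) := by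
      exact_mod_cast h2
    rwa [Nat.cast_sub hp.one_le, Nat.cast_one] at h5
  have h6 : (p : ℝ) ^ 2 * (1 - 1 / (6 * p)) = (p : ℝ) ^ 2 - p / 6 := by
    field_simp
  rw [h6]
  push_cast
  linarith

private lemma crt_sum {ι : Type*} [Fintype ι] [DecidableEq ι] (m : ι → ℕ) [∀ i, NeZero (m i)]
    [NeZero (∏ i, m i)] (hm : Pairwise (fun i j => Nat.Coprime (m i) (m j)))
    (w : ∀ i, ZMod (m i) → ℝ) :
    ∑ x : ZMod (∏ i, m i), ∏ i, w i (ZMod.prodEquivPi m hm x i) = ∏ i, ∑ y, w i y := by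
  have h1 := Equiv.sum_comp (ZMod.prodEquivPi m hm).toEquiv (fun f => ∏ i, w i (f i))
  rw [Finset.prod_univ_sum, Fintype.piFinset_univ]
  exact h1

private lemma sum_range_zmod (N : ℕ) [NeZero N] (G : ZMod N → ℝ) :
    ∑ x ∈ range N, G (x : ZMod N) = ∑ y, G y := by
  refine Finset.sum_nbij' (fun x => (x : ZMod N)) (fun y => y.val) ?_ ?_ ?_ ?_ ?_
  · intro a _
    exact mem_univ _
  · intro a _
    exact mem_range.2 (ZMod.val_lt a)
  · intro a ha
    exact ZMod.val_natCast_of_lt (mem_range.1 ha)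
  · intro a _
    exact ZMod.natCast_zmod_val a
  · intro a _
    rfl

private lemma sum_range_periodic (N : ℕ) [NeZero N] (G : ZMod N → ℝ) (a : ℤ) (K : ℕ) :
    ∑ x ∈ range (N * K), G (((x : ℤ) + a : ℤ) : ZMod N) = K * ∑ y, G y := by
  induction K with
  | zero => simp
  | succ K ih =>
    rw [Nat.mul_succ, Finset.sum_range_add, ih]
    have h1 : ∀ x : ℕ, ((((N * K + x : ℕ) : ℤ) + a : ℤ) : ZMod N) = (x : ZMod N) + (a : ZMod N) := by
      intro x
      push_cast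
      rw [ZMod.natCast_self]
      ring
    simp only [h1]
    rw [sum_range_zmod N (fun y => G (y + (a : ZMod N)))]
    have h2 := Equiv.sum_comp (Equiv.addRight (a : ZMod N)) G
    simp only [Equiv.coe_addRight] at h2
    rw [h2]
    push_cast
    ring

theorem omega_small (ε : ℝ) (hε : 0 < ε) : ∃ H₀ : ℕ, ∀ H : ℕ, H₀ ≤ H →
    ∑ κ ∈ (Icc (-(H : ℤ)) H).filter (fun κ => κ ≠ 0),
      (2 / 3 : ℝ) ^ (sfp κ).primeFactors.card ≤ ε * H := by
  classical
  obtain ⟨c, hc⟩ : ∃ c : ℝ, Real.exp (-(c / 6)) ≤ ε / 3 := by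
    refine ⟨-(6 * Real.log (ε / 3)), ?_⟩
    have h1 : -(-(6 * Real.log (ε / 3)) / 6) = Real.log (ε / 3) := by ring
    rw [h1, Real.exp_log (by positivity)]
  obtain ⟨u, hu, hcu⟩ := exists_primes c
  set m : u → ℕ := fun p => (p : ℕ) ^ 2 with hmdef
  have hup : ∀ p : u, (p : ℕ).Prime := fun p => hu p p.2
  have hne : ∀ p : u, NeZero ((p : ℕ) ^ 2) := fun p => ⟨pow_ne_zero _ (hup p).ne_zero⟩
  have hne' : ∀ p : u, NeZero (m p) := fun p => hne p
  have hN0 : (∏ p, m p) ≠ 0 := Finset.prod_ne_zero_iff.2 fun p _ => (hne p).out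
  have hneN : NeZero (∏ p, m p) := ⟨hN0⟩
  have hm : Pairwise (fun i j => Nat.Coprime (m i) (m j)) := by
    intro i j hij
    refine Nat.Coprime.pow 2 2 ?_
    refine (Nat.coprime_primes (hup i) (hup j)).2 ?_
    intro h
    exact hij (Subtype.ext h)
  set N := ∏ p, m p with hNdef
  let G : ZMod N → ℝ := fun x => ∏ p : u, wt (p : ℕ) (ZMod.prodEquivPi m hm x p)
  have hG0 : ∀ x, 0 ≤ G x := fun x => Finset.prod_nonneg fun p _ => wt_nonneg _ _
  -- the mean value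
  have hsum : ∑ x, G x ≤ N * (ε / 3) := by
    have h1 : ∑ x, G x = ∏ p : u, ∑ y, wt (p : ℕ) y := crt_sum m hm (fun p => wt (p : ℕ))
    rw [h1]
    have h2 : ∏ p : u, ∑ y, wt (p : ℕ) y ≤
        ∏ p : u, (((p : ℕ) : ℝ) ^ 2 * Real.exp (-(1 / (6 * ((p : ℕ) : ℝ))))) := by
      refine Finset.prod_le_prod (fun p _ => Finset.sum_nonneg fun y _ => wt_nonneg _ _)
        fun p _ => ?_
      refine (sum_wt (p : ℕ) (hup p)).trans ?_
      refine mul_le_mul_of_nonneg_left ?_ (by positivity)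
      exact Real.one_sub_le_exp_neg _
    refine h2.trans ?_
    rw [Finset.prod_mul_distrib, ← Real.exp_sum]
    have h3 : ∏ p : u, ((p : ℕ) : ℝ) ^ 2 = (N : ℝ) := by
      rw [hNdef, Nat.cast_prod]
      refine Finset.prod_congr rfl fun p _ => ?_
      rw [hmdef, Nat.cast_pow]
    rw [h3]
    refine mul_le_mul_of_nonneg_left ?_ (Nat.cast_nonneg _)
    refine le_trans (Real.exp_le_exp.2 ?_) hc
    have h4 : ∑ p : u, -(1 / (6 * ((p : ℕ) : ℝ))) = -((∑ p ∈ u, 1 / (p : ℝ)) / 6) := by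
      rw [Finset.sum_coe_sort u (fun p : ℕ => -(1 / (6 * (p : ℝ)))), Finset.sum_neg_distrib,
        Finset.sum_div]
      congr 1
      refine Finset.sum_congr rfl fun p _ => ?_
      rw [div_div, mul_comm]
    rw [h4]
    linarith
  -- the pointwise bound
  have hpt : ∀ κ : ℤ, κ ≠ 0 → (2 / 3 : ℝ) ^ (sfp κ).primeFactors.card ≤ G (κ : ZMod N) := by
    intro κ hκ
    have h1 : G (κ : ZMod N) =
        ∏ p : u, (if (((p : ℕ) : ℕ) : ℤ) ∣ κ ∧ ¬ ((p : ℕ) : ℤ) ^ 2 ∣ κ then (2 / 3 : ℝ) else 1) := by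
      refine Finset.prod_congr rfl fun p _ => ?_
      have h2 : ZMod.prodEquivPi m hm (κ : ZMod N) p = (κ : ZMod ((p : ℕ) ^ 2)) := by
        rw [map_intCast]
        rfl
      rw [h2, wt_int]
    rw [h1, Finset.prod_coe_sort u
      (fun p : ℕ => (if (p : ℤ) ∣ κ ∧ ¬ (p : ℤ) ^ 2 ∣ κ then (2 / 3 : ℝ) else 1)),
      Finset.prod_ite, Finset.prod_const_one, mul_one, Finset.prod_const]
    refine pow_le_pow_of_le_one (by norm_num) (by norm_num) ?_
    refine Finset.card_le_card fun p hp => ?_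
    rw [mem_filter] at hp
    rw [Nat.mem_primeFactors]
    exact ⟨hu p hp.1, (prime_dvd_sfp hκ (hu p hp.1)).2 hp.2, (sfp_pos κ).ne'⟩
  refine ⟨N + 1, fun H hH => ?_⟩
  -- the number of periods
  set K := (2 * H + 1) / N + 1 with hKdef
  have hNpos : 0 < N := Nat.pos_of_ne_zero hN0
  have hK1 : 2 * H + 1 ≤ N * K := by
    have h1 := Nat.div_add_mod (2 * H + 1) N
    have h2 := Nat.mod_lt (2 * H + 1) hNpos
    rw [hKdef, Nat.mul_succ]
    omega
  have hK2 : N * K ≤ 3 * H := by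
    have h1 := Nat.div_add_mod (2 * H + 1) N
    rw [hKdef, Nat.mul_succ]
    omega
  have h1 : ∑ κ ∈ (Icc (-(H : ℤ)) H).filter (fun κ => κ ≠ 0),
      (2 / 3 : ℝ) ^ (sfp κ).primeFactors.card ≤
      ∑ κ ∈ (Icc (-(H : ℤ)) H).filter (fun κ => κ ≠ 0), G (κ : ZMod N) := by
    refine Finset.sum_le_sum fun κ hκ => ?_
    exact hpt κ (mem_filter.1 hκ).2
  have h2 : ∑ κ ∈ (Icc (-(H : ℤ)) H).filter (fun κ => κ ≠ 0), G (κ : ZMod N) ≤
      ∑ κ ∈ (range (N * K)).image (fun x : ℕ => (x : ℤ) + (-(H : ℤ))), G (κ : ZMod N) := by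
    refine Finset.sum_le_sum_of_subset_of_nonneg ?_ fun _ _ _ => hG0 _
    intro κ hκ
    rw [mem_filter, mem_Icc] at hκ
    rw [mem_image]
    refine ⟨(κ + H).toNat, ?_, ?_⟩
    · rw [mem_range]
      omega
    · omega
  have h3 : ∑ κ ∈ (range (N * K)).image (fun x : ℕ => (x : ℤ) + (-(H : ℤ))), G (κ : ZMod N) =
      ∑ x ∈ range (N * K), G (((x : ℤ) + (-(H : ℤ)) : ℤ) : ZMod N) := by
    rw [Finset.sum_image]
    intro x _ y _ hxy
    simp only at hxy
    omega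
  have h4 := sum_range_periodic N G (-(H : ℤ)) K
  have h5 : (K : ℝ) * ∑ y, G y ≤ K * (N * (ε / 3)) :=
    mul_le_mul_of_nonneg_left hsum (Nat.cast_nonneg _)
  have h6 : ((N * K : ℕ) : ℝ) ≤ ((3 * H : ℕ) : ℝ) := by exact_mod_cast hK2
  push_cast at h6
  calc _ ≤ (K : ℝ) * ∑ y, G y := by
        rw [← h4, ← h3]
        exact h1.trans h2
    _ ≤ K * (N * (ε / 3)) := h5
    _ = ((N : ℝ) * K) * (ε / 3) := by ring
    _ ≤ (3 * (H : ℝ)) * (ε / 3) := mul_le_mul_of_nonneg_right h6 (by positivity)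
    _ = ε * H := by ring

end Stoll308.OF
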