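import Pool.Agent.Work.MP_308fa9_nt.OF.Body
import Pool.Agent.Work.MP_308fa9_nt.OF.Omega

set_option autoImplicit false

/-!
Few polynomials come from reduced pairs without a short vector.
-/

namespace Stoll308.OF

open Polynomial Finset Matrix BG

lemma mcf_inj {n : ℕ} {a a' : Fin (n + 1) → ℤ} (h0 : a 0 ≠ 0) (h1 : a 0 = a' 0)
    (h : mcf a = mcf a') : a = a' := by
  funext i
  refine Fin.cases h1 (fun j => ?_) i
  have h2 := congrFun h j
  unfold mcf at h2
  rw [← h1] at h2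
  exact mul_left_cancel₀ (pow_ne_zero _ h0) h2

theorem large_t {n : ℕ} (hn : 3 ≤ n) (K τ₀ : ℝ) (hK : 1 ≤ K) (hτ : 0 < τ₀) (ε : ℝ)
    (hε : 0 < ε) : ∃ H₀ : ℕ, ∀ H : ℕ, H₀ ≤ H → ∀ T : Finset (Fin (n + 1) → ℤ),
      (∀ a ∈ T, a 0 ≠ 0 ∧ |(a 0 : ℝ)| ≤ H ∧
        ∃ (A B : Matrix (Fin n) (Fin n) ℤ) (t : Fin n → ℝ), RPair K H a A B t ∧
          ∀ i, τ₀ < t i) →
      (T.card : ℝ) ≤ ε * (H : ℝ) ^ (n + 1) := by
  classical
  obtain ⟨L, hL⟩ : ∃ L : ℝ, L = K / τ₀ ^ (n - 1) := ⟨_, rfl⟩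
  obtain ⟨K', hK'⟩ : ∃ K' : ℝ, K' = K * L ^ 2 + L ^ 2 + K := ⟨_, rfl⟩
  have hL2 : 0 ≤ L ^ 2 := sq_nonneg L
  have hK0 : 0 < K := by linarith
  have hKL : 0 ≤ K * L ^ 2 := by positivity
  have hK'1 : 1 ≤ K' := by rw [hK']; linarith
  obtain ⟨C, hC, hbody⟩ := body hn K' hK'1
  obtain ⟨H₀, hom⟩ := omega_small (ε / C) (by positivity)
  refine ⟨H₀ + 1, fun H hH T hT => ?_⟩
  have hH1 : (1 : ℝ) ≤ H := by
    have : 1 ≤ H := by omega
    exact_mod_cast this
  have hom' := hom H (by omega)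
  -- the lengths
  have htL : ∀ (a : Fin (n + 1) → ℤ) (A B : Matrix (Fin n) (Fin n) ℤ) (t : Fin n → ℝ),
      RPair K H a A B t → (∀ i, τ₀ < t i) → ∀ i, t i ≤ L := by
    intro a A B t h ht i
    rw [hL, le_div_iff₀ (by positivity)]
    calc t i * τ₀ ^ (n - 1) = t i * ∏ _j ∈ univ.erase i, τ₀ := by
          rw [Finset.prod_const, card_erase_of_mem (mem_univ i), Finset.card_univ,
            Fintype.card_fin]
      _ ≤ t i * ∏ j ∈ univ.erase i, t j := by
          refine mul_le_mul_of_nonneg_left ?_ (h.pos i).le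
          exact Finset.prod_le_prod (fun _ _ => hτ.le) fun j _ => (ht j).le
      _ = ∏ j, t j := Finset.mul_prod_erase univ t (mem_univ i)
      _ ≤ K := h.prod
  -- one leading coefficient
  have hone : ∀ κ ∈ (Icc (-(H : ℤ)) H).filter (fun κ => κ ≠ 0),
      ((T.filter fun a => a 0 = κ).card : ℝ) ≤
        C * (H : ℝ) ^ n * (2 / 3 : ℝ) ^ (sfp κ).primeFactors.card := by
    intro κ hκ
    rw [mem_filter] at hκ
    rcases (T.filter fun a => a 0 = κ).eq_empty_or_nonempty with he | ⟨a₁, ha₁⟩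
    · rw [he, card_empty]
      push_cast
      positivity
    rw [mem_filter] at ha₁
    obtain ⟨h1, h2, A₁, B₁, t₁, hP₁, -⟩ := hT a₁ ha₁.1
    rw [ha₁.2] at h2
    have hsq := hP₁.sq
    rw [ha₁.2] at hsq
    have hsf : (0 : ℝ) ≤ sfp κ := Nat.cast_nonneg _
    have hinj : Set.InjOn (mcf (n := n)) (T.filter fun a => a 0 = κ) := by
      intro a ha a' ha' h
      rw [mem_coe, mem_filter] at ha ha'
      exact mcf_inj (hT a ha.1).1 (ha.2.trans ha'.2.symm) h
    rw [← card_image_of_injOn hinj]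
    refine hbody H κ hH1 hκ.2 h2 ?_ _ ?_
    · refine hsq.trans (mul_le_mul_of_nonneg_right ?_ hsf)
      rw [hK']
      linarith
    · intro c hc
      rw [mem_image] at hc
      obtain ⟨a, ha, rfl⟩ := hc
      rw [mem_filter] at ha
      obtain ⟨-, -, A, B, t, hP, ht⟩ := hT a ha.1
      have htt : ∀ i j, t i * t j ≤ L ^ 2 := by
        intro i j
        rw [pow_two]
        exact mul_le_mul (htL a A B t hP ht i) (htL a A B t hP ht j) (hP.pos j).le
          ((hP.pos i).le.trans (htL a A B t hP ht i))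
      refine ⟨A, B, hP.symA, hP.symB, hP.char, fun i j => ?_, fun i j => ?_, ?_⟩
      · refine (hP.hA i j).trans ((htt i j).trans ?_)
        rw [hK']
        linarith
      · refine (hP.hB i j).trans ?_
        calc K * H * (t i * t j) ≤ K * H * L ^ 2 :=
              mul_le_mul_of_nonneg_left (htt i j) (by positivity)
          _ = K * L ^ 2 * H := by ring
          _ ≤ K' * H := by
              refine mul_le_mul_of_nonneg_right ?_ (by positivity)
              rw [hK']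
              linarith
      · have h3 := hP.rk1
        rw [ha.2] at h3
        exact h3
  have hmaps : ∀ a ∈ T, a 0 ∈ (Icc (-(H : ℤ)) H).filter (fun κ => κ ≠ 0) := by
    intro a ha
    rw [mem_filter, mem_Icc, ← abs_le]
    refine ⟨?_, (hT a ha).1⟩
    have h1 := (hT a ha).2.1
    rw [← Int.cast_abs] at h1
    exact_mod_cast h1
  calc (T.card : ℝ) = ∑ κ ∈ (Icc (-(H : ℤ)) H).filter (fun κ => κ ≠ 0),
        ((T.filter fun a => a 0 = κ).card : ℝ) := by
        rw [card_eq_sum_card_fiberwise hmaps]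
        push_cast
        rfl
    _ ≤ ∑ κ ∈ (Icc (-(H : ℤ)) H).filter (fun κ => κ ≠ 0),
        C * (H : ℝ) ^ n * (2 / 3 : ℝ) ^ (sfp κ).primeFactors.card := sum_le_sum hone
    _ = C * (H : ℝ) ^ n * ∑ κ ∈ (Icc (-(H : ℤ)) H).filter (fun κ => κ ≠ 0),
        (2 / 3 : ℝ) ^ (sfp κ).primeFactors.card := by rw [mul_sum]
    _ ≤ C * (H : ℝ) ^ n * (ε / C * H) := mul_le_mul_of_nonneg_left hom' (by positivity)
    _ = ε * (H : ℝ) ^ (n + 1) := by
        rw [pow_succ]
        field_simp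

end Stoll308.OF
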