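import Pool.Agent.Work.MP_308fa9_nt.OF.Rep
import Pool.Agent.Work.MP_308fa9_nt.OF.LargeT
import Pool.Agent.Work.MP_308fa9_nt.OF.Cusp
import Pool.Agent.Work.MP_308fa9_nt.OF.Els
import Pool.Agent.Work.MP_308fa9_nt.BG.PTransfer
import Pool.Agent.Work.MP_308fa9_nt.BF.Main

set_option autoImplicit false

/-!
The theorem for the full family.
-/

namespace Stoll308.OF

open Polynomial Finset Matrix BG

lemma GZ_eq (K : Type*) [CommRing K] {n : ℕ} (a : Fin (n + 1) → ℤ) :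
    BF.GZ K a = fpol (a 0 : K) (fun i => ((a i.succ : ℤ) : K)) := by
  unfold BF.GZ BF.gpol fpol
  rw [Fin.sum_univ_succ]
  congr 1
  refine Finset.sum_congr rfl fun i _ => ?_
  congr 2
  rw [Fin.val_succ]
  omega

lemma selP_of_sel {n : ℕ} (ψ : ℤ[X]) (a : Fin (n + 1) → ℤ) (h : BF.Sel ψ a) :
    SelP ψ (a 0) (fun i : Fin n => a i.succ) := by
  obtain ⟨δ, h1, h2, h3⟩ := h
  refine ⟨δ, by rw [← GZ_eq]; exact h1, fun p hp => ?_, ?_⟩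
  · obtain ⟨x, y, s, g1, g2, g3⟩ := h2 p
    rw [GZ_eq] at g2 g3
    exact ⟨x, y, s, g1, g2, g3⟩
  · obtain ⟨x, y, s, g1, g2, g3⟩ := h3
    rw [GZ_eq] at g2 g3
    exact ⟨x, y, s, g1, g2, g3⟩

lemma irr_mcf {n : ℕ} (hn : 1 ≤ n) (a : Fin (n + 1) → ℤ) (h0 : a 0 ≠ 0)
    (h : Irreducible (BF.GZ ℚ a)) : Irreducible (FZ ℚ (mcf a)) := by
  have h0' : (a 0 : ℚ) ≠ 0 := by exact_mod_cast h0
  rw [GZ_eq] at h
  have h1 := Transfer.comp_fpol hn (a 0 : ℚ) (fun i : Fin n => ((a i.succ : ℤ) : ℚ)) h0'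
  have h2 : Irreducible ((fpol (a 0 : ℚ) (fun i : Fin n => ((a i.succ : ℤ) : ℚ))).comp
      (C (a 0 : ℚ)⁻¹ * X)) := by
    have h3 : Invertible ((a 0 : ℚ)⁻¹) := invertibleOfNonzero (inv_ne_zero h0')
    have h4 := (MulEquiv.irreducible_iff (algEquivCMulXAddC ((a 0 : ℚ)⁻¹) 0)).2 h
    have h5 : algEquivCMulXAddC ((a 0 : ℚ)⁻¹) 0
        (fpol (a 0 : ℚ) (fun i : Fin n => ((a i.succ : ℤ) : ℚ))) =
        (fpol (a 0 : ℚ) (fun i : Fin n => ((a i.succ : ℤ) : ℚ))).comp (C (a 0 : ℚ)⁻¹ * X) := by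
      rw [algEquivCMulXAddC_apply, map_zero, add_zero]
      rfl
    rwa [h5] at h4
  rw [h1] at h2
  have h5 : IsUnit (C (((a 0 : ℚ) ^ (n - 1))⁻¹) : ℚ[X]) :=
    isUnit_C.2 (isUnit_iff_ne_zero.2 (inv_ne_zero (pow_ne_zero _ h0')))
  have h6 := (irreducible_isUnit_mul h5).1 h2
  have h7 := Transfer.FZ_cast (K := ℚ) (a 0) (fun i : Fin n => a i.succ)
  unfold mcf
  rw [h7]
  exact h6

open Classical in
lemma cnt_lead {n : ℕ} (P : ℤ → Prop) (H : ℕ) (hH : 1 ≤ H) :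
    (BF.cnt n (fun a => P (a 0)) H : ℝ) ≤
      (((Icc (-(H : ℤ)) H).filter P).card : ℝ) * (3 * (H : ℝ)) ^ n := by
  have h1 : BF.cnt n (fun a => P (a 0)) H ≤
      (((Icc (-(H : ℤ)) H).filter P) ×ˢ
        (Fintype.piFinset fun _ : Fin n => Icc (-(H : ℤ)) (H : ℤ))).card := by
    unfold BF.cnt
    refine card_le_card_of_injOn (fun a => (a 0, fun i : Fin n => a i.succ)) ?_ ?_
    · intro a ha
      simp only [coe_filter, Fintype.mem_piFinset, Set.mem_ofPred_eq] at ha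
      simp only [coe_product, Set.mem_prod, mem_coe, mem_filter, Fintype.mem_piFinset]
      exact ⟨⟨ha.1 0, ha.2⟩, fun i => ha.1 i.succ⟩
    · intro a _ b _ h
      simp only [Prod.mk.injEq] at h
      funext i
      exact Fin.cases h.1 (fun j => congrFun h.2 j) i
  rw [card_product, Fintype.card_piFinset, prod_const, Finset.card_univ, Fintype.card_fin,
    Int.card_Icc] at h1
  have h2 : (((H : ℤ) + 1 - -(H : ℤ)).toNat : ℝ) ≤ 3 * H := by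
    have h3 : ((H : ℤ) + 1 - -(H : ℤ)).toNat = 2 * H + 1 := by omega
    rw [h3]
    have : (1 : ℝ) ≤ H := by exact_mod_cast hH
    push_cast
    linarith
  have h4 : (BF.cnt n (fun a => P (a 0)) H : ℝ) ≤
      (((Icc (-(H : ℤ)) H).filter P).card : ℝ) *
        (((H : ℤ) + 1 - -(H : ℤ)).toNat : ℝ) ^ n := by exact_mod_cast h1
  refine h4.trans (mul_le_mul_of_nonneg_left ?_ (Nat.cast_nonneg _))
  exact pow_le_pow_left₀ (Nat.cast_nonneg _) h2 n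

/-- Few leading coefficients have a large square divisor. -/
lemma sqf_cnt (n : ℕ) (ε : ℝ) (hε : 0 < ε) : ∃ S : ℝ, 1 ≤ S ∧ ∀ H : ℕ, 1 ≤ H →
    (BF.cnt n (fun a => a 0 ≠ 0 ∧ S * sfp (a 0) < |(a 0 : ℝ)|) H : ℝ) ≤
      ε * (H : ℝ) ^ (n + 1) := by
  obtain ⟨S, hS, h⟩ := sqf_small (ε / 3 ^ n) (by positivity)
  refine ⟨S, hS, fun H hH => ?_⟩
  have h1 := cnt_lead (n := n) (fun κ : ℤ => κ ≠ 0 ∧ S * sfp κ < |(κ : ℝ)|) H hH
  refine h1.trans ?_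
  have h2 := h H
  calc _ ≤ (ε / 3 ^ n * H) * (3 * (H : ℝ)) ^ n := by
        refine mul_le_mul_of_nonneg_right ?_ (by positivity)
        refine le_trans (le_of_eq ?_) h2
        congr 2
        ext x
        simp
    _ = ε * (H : ℝ) ^ (n + 1) := by
        rw [mul_pow, pow_succ]
        field_simp

/-- Few leading coefficients are small. -/
lemma lead_cnt (n : ℕ) (ε : ℝ) (hε : 0 < ε) : ∃ η : ℝ, 0 < η ∧ ∃ H₀ : ℕ, ∀ H : ℕ, H₀ ≤ H →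
    (BF.cnt n (fun a => |(a 0 : ℝ)| < η * H) H : ℝ) ≤ ε * (H : ℝ) ^ (n + 1) := by
  obtain ⟨ε', hε'⟩ : ∃ ε' : ℝ, ε' = ε / 3 ^ n := ⟨_, rfl⟩
  have hε'0 : 0 < ε' := by rw [hε']; positivity
  refine ⟨ε' / 4, by positivity, ⌈2 / ε'⌉₊ + 1, fun H hH => ?_⟩
  have hH1 : 1 ≤ H := by omega
  have hHr : (1 : ℝ) ≤ H := by exact_mod_cast hH1
  have hH2 : 2 / ε' ≤ H := by
    refine (Nat.le_ceil _).trans ?_
    have : ⌈2 / ε'⌉₊ ≤ H := by omega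
    exact_mod_cast this
  have h1 := cnt_lead (n := n) (fun κ : ℤ => |(κ : ℝ)| < ε' / 4 * H) H hH1
  refine h1.trans ?_
  have h2 : (((Icc (-(H : ℤ)) H).filter fun κ : ℤ => |(κ : ℝ)| < ε' / 4 * H).card : ℝ) ≤
      ε' * H := by
    classical
    have h3 : ((Icc (-(H : ℤ)) H).filter fun κ : ℤ => |(κ : ℝ)| < ε' / 4 * H) ⊆
        Icc (-⌊ε' / 4 * H⌋) ⌊ε' / 4 * H⌋ := by
      intro κ hκ
      rw [mem_filter] at hκ
      rw [mem_Icc, ← abs_le]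
      apply Int.le_floor.2
      rw [Int.cast_abs]
      exact hκ.2.le
    have h4 := card_le_card h3
    rw [Int.card_Icc] at h4
    have h0 : 0 ≤ ⌊ε' / 4 * (H : ℝ)⌋ := Int.floor_nonneg.2 (by positivity)
    have h5 : (((⌊ε' / 4 * (H : ℝ)⌋ + 1 - -⌊ε' / 4 * (H : ℝ)⌋).toNat : ℕ) : ℤ) =
        2 * ⌊ε' / 4 * (H : ℝ)⌋ + 1 := by
      rw [Int.toNat_of_nonneg (by omega)]; ring
    have h6 : (((⌊ε' / 4 * (H : ℝ)⌋ + 1 - -⌊ε' / 4 * (H : ℝ)⌋).toNat : ℕ) : ℝ) =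
        2 * (⌊ε' / 4 * (H : ℝ)⌋ : ℝ) + 1 := by exact_mod_cast h5
    have h7 := Int.floor_le (ε' / 4 * (H : ℝ))
    have h8 : 2 ≤ ε' * H := by
      rw [div_le_iff₀ hε'0] at hH2
      linarith
    have h9 : (((Icc (-(H : ℤ)) H).filter fun κ : ℤ => |(κ : ℝ)| < ε' / 4 * H).card : ℝ) ≤
        (((⌊ε' / 4 * (H : ℝ)⌋ + 1 - -⌊ε' / 4 * (H : ℝ)⌋).toNat : ℕ) : ℝ) := by
      exact_mod_cast h4
    rw [h6] at h9
    linarith
  calc _ ≤ (ε' * H) * (3 * (H : ℝ)) ^ n := by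
        refine mul_le_mul_of_nonneg_right ?_ (by positivity)
        exact h2
    _ = ε * (H : ℝ) ^ (n + 1) := by
        rw [hε', mul_pow, pow_succ]
        field_simp

theorem sel_small (n : ℕ) (hn : 3 ≤ n) (ho : Odd n) (ψ : ℤ[X]) (ε : ℝ) (hε : 0 < ε) :
    ∃ H₀ : ℕ, ∀ H : ℕ, H₀ ≤ H →
      (BF.cnt n (fun a => BF.Sel ψ a ∨ BF.HasPoint ψ a ℚ) H : ℝ) ≤ ε * H ^ (n + 1) := by
  obtain ⟨S, hS, h1⟩ := sqf_cnt n (ε / 5) (by positivity)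
  obtain ⟨η, hη, H₁, h2⟩ := lead_cnt n (ε / 5) (by positivity)
  obtain ⟨K, hK, hred⟩ := red_of_mloc hn ho η S hη hS
  obtain ⟨τ₀, H₂, hτ₀, h3⟩ := cusp n hn ho K hK (ε / 5) (by positivity)
  obtain ⟨H₃, h4⟩ := large_t hn K τ₀ hK hτ₀ (ε / 5) (by positivity)
  obtain ⟨H₄, h5⟩ := BF.reducible_small n (by omega) (ε / 5) (by positivity)
  refine ⟨H₁ + H₂ + H₃ + H₄ + 1, ?_⟩
  intro H hH
  have hH1 : 1 ≤ H := by omega
  have hHr : (1 : ℝ) ≤ H := by exact_mod_cast hH1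
  have g1 := h1 H hH1
  have g2 := h2 H (by omega)
  have g5 := h5 H (by omega)
  have g3 := BF.cnt_le_of_card _ H _ (h3 H (by omega))
  have g4 := BF.cnt_le_of_card _ H _ (h4 H (by omega))
  set P1 : (Fin (n + 1) → ℤ) → Prop := fun a => a 0 ≠ 0 ∧ S * sfp (a 0) < |(a 0 : ℝ)| with hP1
  set P2 : (Fin (n + 1) → ℤ) → Prop := fun a => |(a 0 : ℝ)| < η * H with hP2
  set P3 : (Fin (n + 1) → ℤ) → Prop := fun a => a 0 ≠ 0 ∧ |(a 0 : ℝ)| ≤ H ∧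
    Irreducible (FZ ℚ (mcf a)) ∧ ∃ (A B : Matrix (Fin n) (Fin n) ℤ) (t : Fin n → ℝ),
      RPair K H a A B t ∧ ∃ i, t i ≤ τ₀ with hP3
  set P4 : (Fin (n + 1) → ℤ) → Prop := fun a => a 0 ≠ 0 ∧ |(a 0 : ℝ)| ≤ H ∧
    ∃ (A B : Matrix (Fin n) (Fin n) ℤ) (t : Fin n → ℝ), RPair K H a A B t ∧
      ∀ i, τ₀ < t i with hP4
  set P5 : (Fin (n + 1) → ℤ) → Prop := fun a => a 0 = 0 ∨ IsSquare (a 0) ∨
    ¬ Irreducible (BF.GZ ℚ a) with hP5
  have hle : BF.cnt n (fun a => BF.Sel ψ a ∨ BF.HasPoint ψ a ℚ) H ≤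
      BF.cnt n P1 H + (BF.cnt n P2 H + (BF.cnt n P3 H + (BF.cnt n P4 H + BF.cnt n P5 H))) := by
    refine le_trans (BF.cnt_mono (Q := fun b => P1 b ∨ P2 b ∨ P3 b ∨ P4 b ∨ P5 b) H ?_) ?_
    · intro a ha h
      by_cases q5 : P5 a
      · exact Or.inr (Or.inr (Or.inr (Or.inr q5)))
      by_cases q1 : P1 a
      · exact Or.inl q1
      by_cases q2 : P2 a
      · exact Or.inr (Or.inl q2)
      right; right
      rw [hP5] at q5
      simp only [not_or, not_not] at q5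
      obtain ⟨h0, hsq, hF⟩ := q5
      have q1' : |(a 0 : ℝ)| ≤ S * sfp (a 0) := by
        rw [hP1] at q1
        simp only [not_and, not_lt] at q1
        exact q1 h0
      have q2' : η * H ≤ |(a 0 : ℝ)| := by
        rw [hP2] at q2
        exact not_lt.1 q2
      have hSel : BF.Sel ψ a := by
        rcases h with h | h
        · exact h
        · exact BF.sel_of_point (by omega) ψ a h0 hsq hF h
      have har : ∀ i, |(a i : ℝ)| ≤ H := fun i => by exact_mod_cast ha i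
      have hirr := irr_mcf (by omega) a h0 hF
      obtain ⟨δ, hδ, hl, -⟩ := selP_to_mloc (by omega) ψ (a 0) (fun i : Fin n => a i.succ) h0
        (selP_of_sel ψ a hSel)
      obtain ⟨A, B, t, hP⟩ := hred a H hHr h0 q2' q1' har hirr δ hδ hl
      by_cases ht : ∃ i, t i ≤ τ₀
      · exact Or.inl ⟨h0, har 0, hirr, A, B, t, hP, ht⟩
      · push Not at ht
        exact Or.inr (Or.inl ⟨h0, har 0, A, B, t, hP, ht⟩)
    · refine (BF.cnt_or _ _ H).trans ?_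
      gcongr
      refine (BF.cnt_or _ _ H).trans ?_
      gcongr
      refine (BF.cnt_or _ _ H).trans ?_
      gcongr
      exact BF.cnt_or _ _ H
  calc ((BF.cnt n (fun a => BF.Sel ψ a ∨ BF.HasPoint ψ a ℚ) H : ℕ) : ℝ)
      ≤ ((BF.cnt n P1 H + (BF.cnt n P2 H + (BF.cnt n P3 H + (BF.cnt n P4 H +
        BF.cnt n P5 H))) : ℕ) : ℝ) := by exact_mod_cast hle
    _ ≤ ε * H ^ (n + 1) := by
        push_cast
        linarith

theorem main (n : ℕ) (hn : 3 ≤ n) (ψ : ℤ[X]) (hψ : 1 ≤ ψ.natDegree) :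
    (∃ c₀ : ℝ, 0 < c₀ ∧ ∃ H₀ : ℕ, ∀ H : ℕ, H₀ ≤ H →
      c₀ * H ^ (n + 1) ≤ (BF.cnt n (fun a => BF.ELS ψ a ∧ BF.Smooth ψ a) H : ℝ)) ∧
    ∀ ε : ℝ, 0 < ε → ∃ H₀ : ℕ, ∀ H : ℕ, H₀ ≤ H →
      (BF.cnt n (fun a => BF.Sel ψ a ∨ BF.HasPoint ψ a ℚ) H : ℝ) ≤ ε * H ^ (n + 1) := by
  rcases Nat.even_or_odd n with he | ho
  · refine BF.main n ?_ he ψ hψ
    rcases Nat.lt_or_ge n 4 with h | h
    · have h3 : n = 3 := by omega
      rw [h3] at he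
      exact absurd he (by decide)
    · exact h
  refine ⟨?_, fun ε hε => sel_small n hn ho ψ ε hε⟩
  obtain ⟨c, hc, H₁, h1⟩ := els_many n hn ho ψ hψ
  obtain ⟨H₂, h2⟩ := BF.singular_small n (by omega) ψ hψ (c / 2) (by positivity)
  refine ⟨c / 2, by positivity, H₁ + H₂, ?_⟩
  intro H hH
  have g1 := h1 H (by omega)
  have g2 := h2 H (by omega)
  have h3 : BF.cnt n (BF.ELS ψ) H ≤ BF.cnt n (fun a => BF.ELS ψ a ∧ BF.Smooth ψ a) H +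
      BF.cnt n (fun a => ¬ BF.Smooth ψ a) H := by
    refine le_trans (BF.cnt_mono (Q := fun a => (BF.ELS ψ a ∧ BF.Smooth ψ a) ∨
      ¬ BF.Smooth ψ a) H ?_) (BF.cnt_or _ _ H)
    intro b _ hb
    by_cases h : BF.Smooth ψ b
    · exact Or.inl ⟨hb, h⟩
    · exact Or.inr h
  have h4 : (BF.cnt n (BF.ELS ψ) H : ℝ) ≤ BF.cnt n (fun a => BF.ELS ψ a ∧ BF.Smooth ψ a) H +
      BF.cnt n (fun a => ¬ BF.Smooth ψ a) H := by exact_mod_cast h3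
  linarith

end Stoll308.OF
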