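import Pool.Agent.Work.MP_308fa9_nt.BF.Defs
import Pool.Agent.Work.MP_308fa9_nt.BG.Basic

set_option autoImplicit false

/-!
Working definitions for the full family, `n` odd.
-/

namespace Stoll308.OF

open Polynomial Finset Matrix BG

/-- The coefficients of the monic polynomial with the roots `a₀ θ`. -/
def mcf {n : ℕ} (a : Fin (n + 1) → ℤ) : Fin n → ℤ := fun i => a 0 ^ (i : ℕ) * a i.succ

/-- The product of the primes which divide `κ` exactly once. -/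
def sfp (κ : ℤ) : ℕ := ∏ p ∈ κ.natAbs.primeFactors.filter (fun p => ¬ p ^ 2 ∣ κ.natAbs), p

/-- The matrix is `- w wᵀ` modulo `p`. -/
def Rk1 {n : ℕ} (p : ℕ) (B : Matrix (Fin n) (Fin n) ℤ) : Prop :=
  ∃ w : Fin n → ℤ, ∀ i j, (p : ℤ) ∣ B i j + w i * w j

/-- A reduced pair: `K` is a constant, `H` the height, `t` the lengths of the basis. -/
structure RPair {n : ℕ} (K H : ℝ) (a : Fin (n + 1) → ℤ) (A B : Matrix (Fin n) (Fin n) ℤ)
    (t : Fin n → ℝ) : Prop where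
  symA : A.IsSymm
  symB : B.IsSymm
  char : HasChar (mcf a) A B
  pos : ∀ i, 0 < t i
  hA : ∀ i j, |(A i j : ℝ)| ≤ t i * t j
  hB : ∀ i j, |(B i j : ℝ)| ≤ K * H * (t i * t j)
  mono : ∀ i j, i ≤ j → t i ≤ t j
  prod : ∏ i, t i ≤ K
  sq : H ≤ K * sfp (a 0)
  rk1 : ∀ p : ℕ, p.Prime → p ∣ sfp (a 0) → Rk1 p B

lemma sfp_primeFactors (κ : ℤ) :
    (sfp κ).primeFactors = κ.natAbs.primeFactors.filter (fun p => ¬ p ^ 2 ∣ κ.natAbs) := by
  unfold sfp
  rw [Nat.primeFactors_prod]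
  intro p hp
  exact Nat.prime_of_mem_primeFactors (mem_filter.1 hp).1

lemma sfp_pos (κ : ℤ) : 0 < sfp κ := by
  unfold sfp
  exact Finset.prod_pos fun p hp => (Nat.prime_of_mem_primeFactors (mem_filter.1 hp).1).pos

lemma sfp_squarefree (κ : ℤ) : Squarefree (sfp κ) := by
  unfold sfp
  refine Finset.squarefree_prod_of_pairwise_isCoprime ?_ ?_
  · intro p hp q hq hpq
    exact Nat.coprime_iff_isRelPrime.1 ((Nat.coprime_primes (Nat.prime_of_mem_primeFactors (mem_filter.1 hp).1)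
      (Nat.prime_of_mem_primeFactors (mem_filter.1 hq).1)).2 hpq)
  · intro p hp
    exact (Nat.prime_of_mem_primeFactors (mem_filter.1 hp).1).prime.squarefree

lemma prime_dvd_sfp {κ : ℤ} (hκ : κ ≠ 0) {p : ℕ} (hp : p.Prime) :
    p ∣ sfp κ ↔ (p : ℤ) ∣ κ ∧ ¬ (p : ℤ) ^ 2 ∣ κ := by
  have h1 : p ∣ sfp κ ↔ p ∈ (sfp κ).primeFactors := by
    rw [Nat.mem_primeFactors]
    exact ⟨fun h => ⟨hp, h, (sfp_pos κ).ne'⟩, fun h => h.2.1⟩
  rw [h1, sfp_primeFactors κ, mem_filter, Nat.mem_primeFactors, Int.natCast_dvd,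
    ← Nat.cast_pow, Int.natCast_dvd]
  have h2 : κ.natAbs ≠ 0 := Int.natAbs_ne_zero.2 hκ
  tauto

lemma sfp_dvd {κ : ℤ} : (sfp κ : ℤ) ∣ κ := by
  rw [Int.natCast_dvd]
  unfold sfp
  exact (Finset.prod_dvd_prod_of_subset _ _ _ (filter_subset _ _)).trans
    (Nat.prod_primeFactors_dvd _)

end Stoll308.OF
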