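import Pool.Agent.Work.MP_308fa9_nt.OF.Basic
import Pool.Agent.Work.MP_308fa9_nt.BF.LocLat

set_option autoImplicit false

/-!
The Hankel matrices of `FZ (mcf a)` (roots `a₀ θ`) and of `mon a` (roots `θ`).
-/

namespace Stoll308.OF

open Polynomial Finset Matrix BG BF

variable {K : Type*} [Field K] {n : ℕ}

/-- `F(a₀ T) = a₀ⁿ · mon(T)`. -/
lemma FZ_mcf_comp (hn : 1 ≤ n) (a : Fin (n + 1) → ℤ) (h : (a 0 : K) ≠ 0) :
    (FZ K (mcf a)).comp (C (a 0 : K) * X) = C ((a 0 : K) ^ n) * mon K a := by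
  have e1 : C ((a 0 : K) ^ n) * mon K a = C ((a 0 : K) ^ (n - 1)) * GZ K a := by
    unfold mon
    rw [← mul_assoc, ← C_mul]
    congr 2
    obtain ⟨m, rfl⟩ : ∃ m, n = m + 1 := ⟨n - 1, by omega⟩
    rw [Nat.add_sub_cancel, pow_succ]
    field_simp
  rw [e1]
  unfold FZ fpol GZ gpol
  rw [Fin.sum_univ_succ, mul_add, Finset.mul_sum]
  simp only [add_comp, mul_comp, C_comp, pow_comp, X_comp, Polynomial.sum_comp]
  congr 1
  · rw [C_1, one_mul, mul_pow, ← C_pow, ← mul_assoc, ← C_mul, ← pow_succ]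
    simp only [Fin.val_zero, Nat.sub_zero]
    congr 3
    omega
  · refine Finset.sum_congr rfl fun i _ => ?_
    have hi := i.isLt
    rw [mul_pow, ← C_pow, ← mul_assoc, ← mul_assoc, ← C_mul, ← C_mul, Fin.val_succ]
    congr 1
    · congr 1
      unfold mcf
      push_cast
      have : n - 1 = (i : ℕ) + (n - 1 - (i : ℕ)) := by omega
      conv_rhs => rw [this, pow_add]
      ring
    · congr 1
      omega

/-- Change of the variable `T = c S` in a remainder. -/
lemma mod_comp {F M P : K[X]} {c : K} (hc : c ≠ 0) (hF : F.Monic) (hM : M.Monic)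
    (hFn : F.natDegree = n) (hMn : M.natDegree = n)
    (h : F.comp (C c * X) = C (c ^ n) * M) :
    (P.comp (C c * X)) %ₘ M = (P %ₘ F).comp (C c * X) := by
  have h1 := modByMonic_add_div P F
  have h2 : P.comp (C c * X) = (P %ₘ F).comp (C c * X) +
      M * (C (c ^ n) * (P /ₘ F).comp (C c * X)) := by
    conv_lhs => rw [← h1]
    rw [add_comp, mul_comp, h]
    ring
  have h3 : ((P %ₘ F).comp (C c * X)).degree < M.degree := by
    rcases eq_or_ne (P %ₘ F) 0 with h0 | h0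
    · rw [h0, zero_comp, degree_zero, degree_eq_natDegree hM.ne_zero]
      exact WithBot.bot_lt_coe _
    · have h4 := degree_modByMonic_lt P hF
      rw [degree_eq_natDegree hF.ne_zero, hFn] at h4
      rw [degree_eq_natDegree hM.ne_zero, hMn]
      refine lt_of_le_of_lt ?_ h4
      refine (degree_le_natDegree).trans ?_
      rw [natDegree_comp, natDegree_C_mul_X c hc, mul_one, degree_eq_natDegree h0]
  rw [h2, add_modByMonic, (modByMonic_eq_self_iff hM).2 h3,
    (modByMonic_eq_zero_iff_dvd hM).2 (Dvd.intro _ rfl), add_zero]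

lemma coeff_comp_C_mul_X (P : K[X]) (c : K) (k : ℕ) :
    (P.comp (C c * X)).coeff k = c ^ k * P.coeff k := by
  rw [comp_C_mul_X_coeff, mul_comm]

/-- The entries of the Hankel matrices. -/
lemma Hank_conv (hn : 1 ≤ n) (a : Fin (n + 1) → ℤ) (h : (a 0 : K) ≠ 0) (δ : K[X]) (i j : Fin n) :
    Hank n (FZ K (mcf a)) δ i j = (a 0 : K) ^ ((i : ℕ) + j) * ((a 0 : K) ^ (n - 1))⁻¹ *
      Hank n (mon K a) (δ.comp (C (a 0 : K) * X)) i j := by
  have h1 := mod_comp (P := δ * X ^ ((i : ℕ) + j)) h (FZ_monic (R := K) (mcf a))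
    (BF.LocLat.mon_monic a h) (FZ_natDegree (mcf a)) (BF.LocLat.mon_natDegree a h)
    (FZ_mcf_comp hn a h)
  have h2 := congrArg (fun q : K[X] => q.coeff (n - 1)) h1
  simp only [coeff_comp_C_mul_X] at h2
  have h3 : (δ * X ^ ((i : ℕ) + j)).comp (C (a 0 : K) * X) =
      (a 0 : K) ^ ((i : ℕ) + j) • (δ.comp (C (a 0 : K) * X) * X ^ ((i : ℕ) + j)) := by
    rw [mul_comp, pow_comp, X_comp, mul_pow, ← C_pow, smul_eq_C_mul]
    ring
  rw [h3, smul_modByMonic, coeff_smul, smul_eq_mul] at h2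
  unfold Hank
  rw [mul_right_comm, h2, mul_right_comm, mul_inv_cancel₀ (pow_ne_zero _ h), one_mul]

end Stoll308.OF
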