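import Pool.Agent.Work.MP_308fa9_nt.OF.Basic

set_option autoImplicit false

/-!
Sums over the leading coefficient: divisors and large square divisors.
-/

namespace Stoll308.OF

open Finset

lemma card_dvd_Icc (H g : ℕ) (hg : 0 < g) :
    ((((Icc (-(H : ℤ)) H).filter fun κ => κ ≠ 0).filter fun κ => (g : ℤ) ∣ κ).card : ℝ) ≤
      2 * H / g := by
  have h1 : (((Icc (-(H : ℤ)) H).filter fun κ => κ ≠ 0).filter fun κ => (g : ℤ) ∣ κ) ⊆
      ((Icc 1 (H / g)).image fun k : ℕ => (g : ℤ) * (k : ℤ)) ∪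
        ((Icc 1 (H / g)).image fun k : ℕ => -((g : ℤ) * (k : ℤ))) := by
    intro κ hκ
    simp only [mem_filter, mem_Icc] at hκ
    obtain ⟨⟨⟨h1, h2⟩, h3⟩, c, hc⟩ := hκ
    have hg' : (0 : ℤ) < g := by exact_mod_cast hg
    simp only [mem_union, mem_image, mem_Icc]
    have hc0 : c ≠ 0 := by
      rintro rfl
      exact h3 (by rw [hc]; simp)
    have hcn : 1 ≤ c.natAbs := Nat.one_le_iff_ne_zero.2 (Int.natAbs_ne_zero.2 hc0)
    have hle : c.natAbs ≤ H / g := by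
      rw [Nat.le_div_iff_mul_le hg]
      have : κ.natAbs ≤ H := by omega
      rw [hc, Int.natAbs_mul, Int.natAbs_natCast] at this
      rw [mul_comm]; exact this
    rcases lt_or_gt_of_ne hc0 with h | h
    · right
      refine ⟨c.natAbs, ⟨hcn, hle⟩, ?_⟩
      have : ((c.natAbs : ℕ) : ℤ) = -c := by omega
      rw [this, hc]; ring
    · left
      refine ⟨c.natAbs, ⟨hcn, hle⟩, ?_⟩
      have : ((c.natAbs : ℕ) : ℤ) = c := by omega
      rw [this, hc]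
  have h2 := (card_le_card h1).trans (card_union_le _ _)
  have h3 : ((Icc 1 (H / g)).image fun k : ℕ => (g : ℤ) * (k : ℤ)).card ≤ H / g :=
    card_image_le.trans (by simp)
  have h4 : ((Icc 1 (H / g)).image fun k : ℕ => -((g : ℤ) * (k : ℤ))).card ≤ H / g :=
    card_image_le.trans (by simp)
  have h5 : ((H / g : ℕ) : ℝ) ≤ (H : ℝ) / g := Nat.cast_div_le
  have h6 : ((((Icc (-(H : ℤ)) H).filter fun κ => κ ≠ 0).filter fun κ => (g : ℤ) ∣ κ).card : ℝ) ≤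
      ((H / g : ℕ) : ℝ) + ((H / g : ℕ) : ℝ) := by
    exact_mod_cast h2.trans (add_le_add h3 h4)
  calc _ ≤ _ := h6
    _ ≤ (H : ℝ) / g + (H : ℝ) / g := add_le_add h5 h5
    _ = 2 * H / g := by ring

lemma sum_inv_sq_le (N : ℕ) : ∑ g ∈ Icc 1 N, (1 / (g : ℝ)) ^ 2 ≤ (2 : ℝ) := by
  have key : ∀ N : ℕ, 1 ≤ N → ∑ g ∈ Icc 1 N, (1 / (g : ℝ)) ^ 2 ≤ 2 - 1 / (N : ℝ) := by
    intro N hN
    induction N, hN using Nat.le_induction with
    | base => norm_num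
    | succ n hn ih =>
      rw [sum_Icc_succ_top (by omega)]
      have hn' : (0 : ℝ) < n := by exact_mod_cast hn
      have : (1 / ((n + 1 : ℕ) : ℝ)) ^ 2 ≤ 1 / (n : ℝ) - 1 / ((n + 1 : ℕ) : ℝ) := by
        push_cast
        rw [div_sub_div _ _ hn'.ne' (by positivity), div_pow, div_le_div_iff₀ (by positivity) (by positivity)]
        nlinarith
      linarith
  rcases Nat.eq_zero_or_pos N with rfl | h
  · simp
  · have := key N h
    have h0 : (0 : ℝ) < 1 / (N : ℝ) := by positivity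
    linarith

lemma sum_tail_sq_le (D N : ℕ) (hD : 1 ≤ D) :
    ∑ g ∈ Icc (D + 1) N, (1 / (g : ℝ)) ^ 2 ≤ 1 / (D : ℝ) := by
  have hD' : (0 : ℝ) < D := by exact_mod_cast hD
  rcases Nat.lt_or_ge N D with h | h
  · rw [Icc_eq_empty (by omega), sum_empty]; positivity
  have key : ∑ g ∈ Icc (D + 1) N, (1 / (g : ℝ)) ^ 2 ≤ 1 / (D : ℝ) - 1 / (N : ℝ) := by
    induction N, h using Nat.le_induction with
    | base => simp
    | succ n hn ih =>
      rw [sum_Icc_succ_top (by omega)]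
      have hn' : (0 : ℝ) < n := by exact_mod_cast (by omega : 0 < n)
      have : (1 / ((n + 1 : ℕ) : ℝ)) ^ 2 ≤ 1 / (n : ℝ) - 1 / ((n + 1 : ℕ) : ℝ) := by
        push_cast
        rw [div_sub_div _ _ hn'.ne' (by positivity), div_pow, div_le_div_iff₀ (by positivity) (by positivity)]
        nlinarith
      linarith
  have h0 : (0 : ℝ) ≤ 1 / (N : ℝ) := by positivity
  linarith

theorem div_sum (H : ℕ) :
    ∑ κ ∈ (Icc (-(H : ℤ)) H).filter (fun κ => κ ≠ 0), ∑ g ∈ (sfp κ).divisors, (1 / (g : ℝ)) ≤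
      4 * H := by
  set T := (Icc (-(H : ℤ)) H).filter (fun κ => κ ≠ 0) with hT
  have h1 : ∀ κ ∈ T, ∑ g ∈ (sfp κ).divisors, (1 / (g : ℝ)) ≤
      ∑ g ∈ Icc 1 H, if (g : ℤ) ∣ κ then (1 / (g : ℝ)) else 0 := by
    intro κ hκ
    rw [← sum_filter]
    refine sum_le_sum_of_subset_of_nonneg ?_ (fun _ _ _ => by positivity)
    intro g hg
    rw [Nat.mem_divisors] at hg
    have hκ' : -(H : ℤ) ≤ κ ∧ κ ≤ H ∧ κ ≠ 0 := by
      simp only [hT, mem_filter, mem_Icc] at hκ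
      exact ⟨hκ.1.1, hκ.1.2, hκ.2⟩
    have hd : (g : ℤ) ∣ κ := (Int.natCast_dvd_natCast.2 hg.1).trans sfp_dvd
    rw [mem_filter, mem_Icc]
    refine ⟨⟨Nat.pos_of_ne_zero (ne_zero_of_dvd_ne_zero hg.2 hg.1), ?_⟩, hd⟩
    have := Nat.le_of_dvd (Int.natAbs_pos.2 hκ'.2.2) (Int.natCast_dvd.1 hd)
    omega
  calc _ ≤ ∑ κ ∈ T, ∑ g ∈ Icc 1 H, (if (g : ℤ) ∣ κ then (1 / (g : ℝ)) else 0) := sum_le_sum h1
    _ = ∑ g ∈ Icc 1 H, ∑ κ ∈ T, (if (g : ℤ) ∣ κ then (1 / (g : ℝ)) else 0) := sum_comm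
    _ = ∑ g ∈ Icc 1 H, ((T.filter fun κ => (g : ℤ) ∣ κ).card : ℝ) * (1 / (g : ℝ)) := by
        refine sum_congr rfl fun g _ => ?_
        rw [← sum_filter, sum_const, nsmul_eq_mul]
    _ ≤ ∑ g ∈ Icc 1 H, (2 * H) * (1 / (g : ℝ)) ^ 2 := by
        refine sum_le_sum fun g hg => ?_
        have hg' : 0 < g := (mem_Icc.1 hg).1
        calc _ ≤ (2 * H / g) * (1 / (g : ℝ)) :=
              mul_le_mul_of_nonneg_right (card_dvd_Icc H g hg') (by positivity)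
          _ = _ := by ring
    _ = 2 * H * ∑ g ∈ Icc 1 H, (1 / (g : ℝ)) ^ 2 := by rw [mul_sum]
    _ ≤ 2 * H * 2 := mul_le_mul_of_nonneg_left (sum_inv_sq_le H) (by positivity)
    _ = 4 * H := by ring

lemma exists_sq (κ : ℤ) (hκ : κ ≠ 0) :
    ∃ d : ℕ, 0 < d ∧ ((d ^ 2 : ℕ) : ℤ) ∣ κ ∧ κ.natAbs ≤ sfp κ * d ^ 3 := by
  set n := κ.natAbs with hn
  have hn0 : n ≠ 0 := Int.natAbs_ne_zero.2 hκ
  have hprod : ∏ p ∈ n.primeFactors, p ^ n.factorization p = n := by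
    conv_rhs => rw [← Nat.prod_factorization_pow_eq_self hn0]
    rfl
  refine ⟨∏ p ∈ n.primeFactors, p ^ (n.factorization p / 2), ?_, ?_, ?_⟩
  · exact prod_pos fun p hp => pow_pos (Nat.prime_of_mem_primeFactors hp).pos _
  · rw [Int.natCast_dvd, ← hn, ← prod_pow]
    conv_rhs => rw [← hprod]
    refine prod_dvd_prod_of_dvd _ _ fun p _ => ?_
    rw [← pow_mul]
    exact pow_dvd_pow _ (by omega)
  · have hs : sfp κ = ∏ p ∈ n.primeFactors, if ¬ p ^ 2 ∣ n then p else 1 := by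
      unfold sfp
      rw [prod_filter]
    rw [hs, ← prod_pow, ← prod_mul_distrib]
    conv_lhs => rw [← hprod]
    refine prod_le_prod' fun p hp => ?_
    have hpp := Nat.prime_of_mem_primeFactors hp
    have hp1 : 1 ≤ p := hpp.one_lt.le
    have hv1 : 1 ≤ n.factorization p :=
      hpp.factorization_pos_of_dvd hn0 (Nat.dvd_of_mem_primeFactors hp)
    by_cases h : p ^ 2 ∣ n
    · have hv2 : 2 ≤ n.factorization p := (hpp.pow_dvd_iff_le_factorization hn0).1 h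
      simp only [h, not_true_eq_false, if_false, one_mul]
      rw [← pow_mul]
      exact Nat.pow_le_pow_right hp1 (by omega)
    · have hv2 : ¬ 2 ≤ n.factorization p := fun h' =>
        h ((hpp.pow_dvd_iff_le_factorization hn0).2 h')
      have hv : n.factorization p = 1 := by omega
      simp [h, hv]

theorem sqf_small (ε : ℝ) (hε : 0 < ε) : ∃ S : ℝ, 1 ≤ S ∧ ∀ H : ℕ,
    (((Icc (-(H : ℤ)) H).filter fun κ => κ ≠ 0 ∧ S * sfp κ < |(κ : ℝ)|).card : ℝ) ≤ ε * H := by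
  obtain ⟨D, hD⟩ := exists_nat_gt (2 / ε + 1)
  have hD0 : (0 : ℝ) < D := lt_trans (by positivity) hD
  have hD1 : 1 ≤ D := by exact_mod_cast hD0
  have hDe : 2 / (D : ℝ) ≤ ε := by
    rw [div_le_iff₀ hD0]
    have : 2 / ε ≤ D := by linarith
    rw [div_le_iff₀ hε] at this
    linarith
  refine ⟨(D : ℝ) ^ 3, one_le_pow₀ (by exact_mod_cast hD1), fun H => ?_⟩
  set T := (Icc (-(H : ℤ)) H).filter (fun κ => κ ≠ 0) with hT
  have hsub : ((Icc (-(H : ℤ)) H).filter fun κ => κ ≠ 0 ∧ (D : ℝ) ^ 3 * sfp κ < |(κ : ℝ)|) ⊆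
      (Icc (D + 1) H).biUnion fun d => T.filter fun κ => ((d ^ 2 : ℕ) : ℤ) ∣ κ := by
    intro κ hκ
    rw [mem_filter, mem_Icc] at hκ
    obtain ⟨⟨h1, h2⟩, h3, h4⟩ := hκ
    obtain ⟨d, hd0, hd1, hd2⟩ := exists_sq κ h3
    rw [mem_biUnion]
    have hle : d ^ 2 ≤ κ.natAbs :=
      Nat.le_of_dvd (Int.natAbs_pos.2 h3) (Int.natCast_dvd.1 hd1)
    have hdD : D < d := by
      by_contra hcon
      push Not at hcon
      have e1 : |(κ : ℝ)| = ((κ.natAbs : ℕ) : ℝ) := by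
        rw [Nat.cast_natAbs]; push_cast; rfl
      have e2 : ((κ.natAbs : ℕ) : ℝ) ≤ (sfp κ : ℝ) * (d : ℝ) ^ 3 := by exact_mod_cast hd2
      have e3 : (sfp κ : ℝ) * (d : ℝ) ^ 3 ≤ (sfp κ : ℝ) * (D : ℝ) ^ 3 := by
        refine mul_le_mul_of_nonneg_left ?_ (by positivity)
        exact pow_le_pow_left₀ (by positivity) (by exact_mod_cast hcon) 3
      rw [e1] at h4
      linarith [mul_comm ((D : ℝ) ^ 3) (sfp κ : ℝ)]
    refine ⟨d, mem_Icc.2 ⟨hdD, ?_⟩, mem_filter.2 ⟨mem_filter.2 ⟨mem_Icc.2 ⟨h1, h2⟩, h3⟩, hd1⟩⟩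
    have : d ≤ d ^ 2 := by nlinarith
    omega
  have h1 : (((Icc (-(H : ℤ)) H).filter fun κ => κ ≠ 0 ∧
      (D : ℝ) ^ 3 * sfp κ < |(κ : ℝ)|).card : ℝ) ≤
      ∑ d ∈ Icc (D + 1) H, ((T.filter fun κ => ((d ^ 2 : ℕ) : ℤ) ∣ κ).card : ℝ) := by
    exact_mod_cast (card_le_card hsub).trans card_biUnion_le
  calc _ ≤ _ := h1
    _ ≤ ∑ d ∈ Icc (D + 1) H, (2 * H) * (1 / (d : ℝ)) ^ 2 := by
        refine sum_le_sum fun d hd => ?_
        have hd0 : 0 < d ^ 2 := pow_pos (by have := (mem_Icc.1 hd).1; omega) 2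
        refine (card_dvd_Icc H (d ^ 2) hd0).trans (le_of_eq ?_)
        push_cast
        ring
    _ = 2 * H * ∑ d ∈ Icc (D + 1) H, (1 / (d : ℝ)) ^ 2 := by rw [mul_sum]
    _ ≤ 2 * H * (1 / D) := mul_le_mul_of_nonneg_left (sum_tail_sq_le D H hD1) (by positivity)
    _ = (2 / D) * H := by ring
    _ ≤ ε * H := mul_le_mul_of_nonneg_right hDe (by positivity)

end Stoll308.OF
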