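import Pool.Agent.Work.MP_308fa9_nt.OF.Mod
import Pool.Agent.Work.MP_308fa9_nt.BG.CuspCell

set_option autoImplicit false

/-!
The number of polynomials with a given leading coefficient which come from pairs without short
vectors.
-/

namespace Stoll308.OF

open Finset Matrix BG

namespace Body

/-- the entries of a symmetric matrix -/
def evec {n : ℕ} (M : Matrix (Fin n) (Fin n) ℤ) : Ix n → ℤ := fun x => M x.1.1 x.1.2

lemma evec_inj {n : ℕ} {M M' : Matrix (Fin n) (Fin n) ℤ} (hM : M.IsSymm) (hM' : M'.IsSymm)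
    (h : evec M = evec M') : M = M' := by
  have hup : ∀ i j : Fin n, i ≤ j → M i j = M' i j := fun i j hij => congrFun h ⟨(i, j), hij⟩
  ext i j
  rcases le_total i j with h1 | h1
  · exact hup i j h1
  · rw [← hM.apply, ← hM'.apply]
    exact hup j i h1

lemma class_le {n : ℕ} (hn : 1 ≤ n) (p : ℕ) (hp : p.Prime)
    (T : Finset (Matrix (Fin n) (Fin n) ℤ)) (hT : ∀ B ∈ T, Rk1 p B) :
    (((T.image evec).image fun v i => ((v i : ℤ) : ZMod p)).card : ℝ) ≤
      (if p = 2 then 3 / 2 else 1) * (2 / 3 * (p : ℝ) ^ n) := by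
  classical
  have e1 : ((T.image evec).image fun v i => ((v i : ℤ) : ZMod p)) =
      T.image fun (B : Matrix (Fin n) (Fin n) ℤ) (x : Ix n) => ((B x.1.1 x.1.2 : ℤ) : ZMod p) := by
    rw [image_image]
    rfl
  rw [e1]
  split_ifs with h2
  · have h3 := rk1_card p hp (univ : Finset (Fin n)) T hT
    have h4 : (T.image fun (B : Matrix (Fin n) (Fin n) ℤ) (x : Ix n) =>
        ((B x.1.1 x.1.2 : ℤ) : ZMod p)) ⊆
        (T.image fun (B : Matrix (Fin n) (Fin n) ℤ)
          (x : {i // i ∈ (univ : Finset (Fin n))} × {i // i ∈ (univ : Finset (Fin n))}) =>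
          ((B x.1.1 x.2.1 : ℤ) : ZMod p)).image
          (fun v (x : Ix n) => v (⟨x.1.1, mem_univ _⟩, ⟨x.1.2, mem_univ _⟩)) := by
      intro u hu
      obtain ⟨B, hB, rfl⟩ := mem_image.1 hu
      exact mem_image.2 ⟨_, mem_image_of_mem _ hB, rfl⟩
    have h5 := (card_le_card h4).trans (card_image_le.trans h3)
    rw [card_univ, Fintype.card_fin] at h5
    have h6 : (((T.image fun (B : Matrix (Fin n) (Fin n) ℤ) (x : Ix n) =>
        ((B x.1.1 x.1.2 : ℤ) : ZMod p)).card : ℕ) : ℝ) ≤ (p : ℝ) ^ n := by exact_mod_cast h5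
    linarith
  · have h3 := rk1_card_odd p hp h2 T hT
    have h4 : 2 * (((T.image fun (B : Matrix (Fin n) (Fin n) ℤ) (x : Ix n) =>
        ((B x.1.1 x.1.2 : ℤ) : ZMod p)).card : ℕ) : ℝ) ≤ (p : ℝ) ^ n + 1 := by exact_mod_cast h3
    have h5 : (3 : ℝ) ≤ (p : ℝ) ^ n := by
      have h6 : 3 ≤ p := by
        have := hp.two_le
        omega
      have h7 : (3 : ℝ) ≤ p := by exact_mod_cast h6
      calc (3 : ℝ) ≤ p := h7
        _ = (p : ℝ) ^ 1 := (pow_one _).symm
        _ ≤ (p : ℝ) ^ n := pow_le_pow_right₀ (by linarith) hn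
    linarith

end Body

open Body

theorem body {n : ℕ} (hn : 3 ≤ n) (K : ℝ) (hK : 1 ≤ K) : ∃ C : ℝ, 0 < C ∧
    ∀ (H : ℝ) (κ : ℤ), 1 ≤ H → κ ≠ 0 → |(κ : ℝ)| ≤ H → H ≤ K * sfp κ →
      ∀ T : Finset (Fin n → ℤ),
      (∀ c ∈ T, ∃ A B : Matrix (Fin n) (Fin n) ℤ, A.IsSymm ∧ B.IsSymm ∧ HasChar c A B ∧
        (∀ i j, |(A i j : ℝ)| ≤ K) ∧ (∀ i j, |(B i j : ℝ)| ≤ K * H) ∧
        ∀ p : ℕ, p.Prime → p ∣ sfp κ → Rk1 p B) →
      (T.card : ℝ) ≤ C * H ^ n * (2 / 3 : ℝ) ^ (sfp κ).primeFactors.card := by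
  classical
  have hK0 : 0 < K := by linarith
  set N := Fintype.card (Ix n) with hN
  refine ⟨(2 * K + 1) ^ N * (3 / 2 * (2 * K ^ 2 + 1) ^ N), by positivity, ?_⟩
  intro H κ hH hκ hκH hHK T hT
  set q := sfp κ with hqdef
  have hq0 : 0 < q := sfp_pos κ
  have hqR : (0 : ℝ) < q := by exact_mod_cast hq0
  have hq : Squarefree q := sfp_squarefree κ
  have hqH : (q : ℝ) ≤ H := by
    have h1 : q ≤ κ.natAbs := Nat.le_of_dvd (Int.natAbs_pos.2 hκ) (Int.natCast_dvd.1 sfp_dvd)
    have h2 : (q : ℝ) ≤ (κ.natAbs : ℝ) := by exact_mod_cast h1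
    rw [Nat.cast_natAbs, Int.cast_abs] at h2
    exact h2.trans hκH
  choose! A B hsA hsB hch hA hB hrk using hT
  have hinj : Set.InjOn (fun c => (evec (A c), evec (B c))) (T : Set (Fin n → ℤ)) := by
    intro c hc c' hc' h
    have h1 : A c = A c' := evec_inj (hsA c hc) (hsA c' hc') (congrArg Prod.fst h)
    have h2 : B c = B c' := evec_inj (hsB c hc) (hsB c' hc') (congrArg Prod.snd h)
    have h3 := hch c' hc'
    rw [← h1, ← h2] at h3
    exact BG.CuspCell.char_inj (hch c hc) h3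
  have h1 : T.card ≤ (T.image (fun c => evec (A c))).card * (T.image (fun c => evec (B c))).card := by
    rw [← card_product, ← card_image_of_injOn hinj]
    refine card_le_card fun x hx => ?_
    obtain ⟨c, hc, rfl⟩ := mem_image.1 hx
    exact mem_product.2 ⟨mem_image_of_mem _ hc, mem_image_of_mem _ hc⟩
  have hAc : ((T.image (fun c => evec (A c))).card : ℝ) ≤ (2 * K + 1) ^ N := by
    have h2 := box_mod 1 one_pos (fun _ : Ix n => K) (fun _ => hK0.le)
      (T.image (fun c => evec (A c))) (by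
        intro v hv i
        obtain ⟨c, hc, rfl⟩ := mem_image.1 hv
        exact hA c hc _ _)
    have h3 : (((T.image (fun c => evec (A c))).image fun v i => ((v i : ℤ) : ZMod 1)).card : ℝ)
        ≤ 1 := by
      have : ((T.image (fun c => evec (A c))).image fun v i => ((v i : ℤ) : ZMod 1)).card ≤ 1 :=
        card_le_one.2 fun a _ b _ => Subsingleton.elim a b
      exact_mod_cast this
    refine h2.trans ?_
    rw [Nat.cast_one, div_one, prod_const, card_univ]
    have h4 : (0 : ℝ) ≤ (2 * K + 1) ^ N := by positivity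
    calc _ ≤ 1 * (2 * K + 1) ^ N := mul_le_mul_of_nonneg_right h3 h4
      _ = _ := one_mul _
  have hBc : ((T.image (fun c => evec (B c))).card : ℝ) ≤
      (3 / 2 * ((2 / 3 : ℝ) ^ q.primeFactors.card * H ^ n)) * (2 * K ^ 2 + 1) ^ N := by
    set TB := T.image (fun c => B c) with hTB
    have e1 : T.image (fun c => evec (B c)) = TB.image evec := by
      rw [hTB, image_image]
      rfl
    rw [e1]
    have h2 := box_mod q hq0 (fun _ : Ix n => K * H) (fun _ => by positivity)
      (TB.image evec) (by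
        intro v hv i
        obtain ⟨M, hM, rfl⟩ := mem_image.1 hv
        obtain ⟨c, hc, rfl⟩ := mem_image.1 hM
        exact hB c hc _ _)
    have h3 : (((TB.image evec).image fun v i => ((v i : ℤ) : ZMod q)).card : ℝ) ≤
        ∏ p ∈ q.primeFactors, (((TB.image evec).image fun v i => ((v i : ℤ) : ZMod p)).card : ℝ) := by
      exact_mod_cast crt_card q hq (TB.image evec)
    have h4 : ∏ p ∈ q.primeFactors,
        (((TB.image evec).image fun v i => ((v i : ℤ) : ZMod p)).card : ℝ) ≤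
        ∏ p ∈ q.primeFactors, ((if p = 2 then 3 / 2 else 1) * (2 / 3 * (p : ℝ) ^ n)) := by
      refine prod_le_prod (fun p _ => by positivity) fun p hp => ?_
      refine class_le (by omega) p (Nat.prime_of_mem_primeFactors hp) TB fun M hM => ?_
      obtain ⟨c, hc, rfl⟩ := mem_image.1 hM
      exact hrk c hc p (Nat.prime_of_mem_primeFactors hp) (Nat.dvd_of_mem_primeFactors hp)
    have h5 : ∏ p ∈ q.primeFactors, ((if p = 2 then 3 / 2 else 1) * (2 / 3 * (p : ℝ) ^ n)) ≤
        3 / 2 * ((2 / 3 : ℝ) ^ q.primeFactors.card * H ^ n) := by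
      rw [prod_mul_distrib, prod_mul_distrib, prod_const, prod_pow]
      have e2 : ∏ p ∈ q.primeFactors, (p : ℝ) = q := by
        rw [← Nat.cast_prod, Nat.prod_primeFactors_of_squarefree hq]
      rw [e2, Finset.prod_ite_eq' q.primeFactors 2 (fun _ => (3 / 2 : ℝ))]
      have h6 : (if 2 ∈ q.primeFactors then (3 / 2 : ℝ) else 1) ≤ 3 / 2 := by
        split_ifs <;> norm_num
      have h7 : (q : ℝ) ^ n ≤ H ^ n := pow_le_pow_left₀ hqR.le hqH n
      exact mul_le_mul h6 (mul_le_mul_of_nonneg_left h7 (by positivity)) (by positivity)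
        (by norm_num)
    have h8 : ∏ _i : Ix n, (2 * (K * H) / q + 1) ≤ (2 * K ^ 2 + 1) ^ N := by
      rw [prod_const, card_univ]
      refine pow_le_pow_left₀ (by positivity) ?_ _
      have h9 : H / q ≤ K := by
        rw [div_le_iff₀ hqR]
        exact hHK
      have h10 : 2 * (K * H) / q = 2 * K * (H / q) := by ring
      rw [h10]
      nlinarith
    refine h2.trans ?_
    exact mul_le_mul (h3.trans (h4.trans h5)) h8 (prod_nonneg fun _ _ => by positivity)
      (by positivity)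
  calc (T.card : ℝ) ≤ ((T.image (fun c => evec (A c))).card : ℝ) *
        ((T.image (fun c => evec (B c))).card : ℝ) := by exact_mod_cast h1
    _ ≤ (2 * K + 1) ^ N *
        ((3 / 2 * ((2 / 3 : ℝ) ^ q.primeFactors.card * H ^ n)) * (2 * K ^ 2 + 1) ^ N) :=
        mul_le_mul hAc hBc (by positivity) (by positivity)
    _ = _ := by ring

end Stoll308.OF
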