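import Pool.Agent.Work.MP_308fa9_nt.OF.Basic
import Pool.Agent.Work.MP_308fa9_nt.BG.Expo

set_option autoImplicit false

/-!
The inequality for the exponents in the cusp.
-/

namespace Stoll308.OF

open Finset BG

namespace ExpoAux

lemma flip (N : ℕ) (f : ℕ → ℝ) :
    ∑ j ∈ range (N + 1), f (N - j) = ∑ j ∈ range (N + 1), f j := by
  have := Finset.sum_range_reflect f (N + 1)
  simpa using this

/-- one term of the sum -/
lemma term (N : ℕ) (Y : ℕ → ℝ) (hY : ∀ i j, i ≤ j → j ≤ N → Y j ≤ Y i)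
    (hc : ∀ i, i ≤ N → Y i + Y (N - i) ≤ 0) (i j : ℕ) (hi : i ≤ N) (hj : j ≤ N) :
    2 * (if i ≤ j then max 0 (Y i + Y j) else 0) ≤
      (if i ≤ j ∧ i + j < N then Y i - Y (N - j) else 0) +
        (if i ≤ j ∧ i + j < N then Y j - Y (N - i) else 0) := by
  by_cases hij : i ≤ j
  swap
  · have z1 : ¬(i ≤ j ∧ i + j < N) := fun h => hij h.1
    rw [if_neg hij, if_neg z1, if_neg z1]
    norm_num
  rw [if_pos hij]
  by_cases hs : i + j < N
  · have z1 : i ≤ j ∧ i + j < N := ⟨hij, hs⟩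
    rw [if_pos z1, if_pos z1]
    have a := hc i (by omega)
    have b := hc j (by omega)
    have c := hY i (N - j) (by omega) (by omega)
    have d := hY j (N - i) (by omega) (by omega)
    rcases max_cases 0 (Y i + Y j) with ⟨h1, h2⟩ | ⟨h1, h2⟩
    · rw [h1]
      linarith
    · rw [h1]
      linarith
  · have z1 : ¬(i ≤ j ∧ i + j < N) := fun h => hs h.2
    rw [if_neg z1, if_neg z1]
    have a : Y i + Y j ≤ 0 := by
      have := hc i hi
      have := hY (N - i) j (by omega) hj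
      linarith
    rw [max_eq_left a]
    norm_num

lemma core (m : ℕ) (Y : ℕ → ℝ) (hY : ∀ i j, i ≤ j → j ≤ 2 * m → Y j ≤ Y i)
    (hc : ∀ i, i ≤ 2 * m → Y i + Y (2 * m - i) ≤ 0) :
    2 * (∑ i ∈ range (2 * m + 1), ∑ j ∈ range (2 * m + 1),
        if i ≤ j then max 0 (Y i + Y j) else 0) ≤
      (∑ i ∈ range (2 * m + 1), ∑ j ∈ range (2 * m + 1), if j < i then Y j - Y i else 0) +
        ∑ a ∈ range m, (Y a - Y (2 * m - a)) := by
  set N := 2 * m with hN
  -- the sum of the terms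
  have h1 : 2 * (∑ i ∈ range (N + 1), ∑ j ∈ range (N + 1),
        if i ≤ j then max 0 (Y i + Y j) else 0) ≤
      (∑ i ∈ range (N + 1), ∑ j ∈ range (N + 1),
        if i ≤ j ∧ i + j < N then Y i - Y (N - j) else 0) +
      (∑ i ∈ range (N + 1), ∑ j ∈ range (N + 1),
        if i ≤ j ∧ i + j < N then Y j - Y (N - i) else 0) := by
    rw [Finset.mul_sum, ← Finset.sum_add_distrib]
    refine Finset.sum_le_sum fun i hi => ?_
    rw [Finset.mul_sum, ← Finset.sum_add_distrib]
    refine Finset.sum_le_sum fun j hj => ?_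
    exact term N Y hY hc i j (by
      have := Finset.mem_range.mp hi
      omega) (by
      have := Finset.mem_range.mp hj
      omega)
  -- the first half
  have h2 : (∑ i ∈ range (N + 1), ∑ j ∈ range (N + 1),
        if i ≤ j ∧ i + j < N then Y i - Y (N - j) else 0) =
      ∑ a ∈ range (N + 1), ∑ b ∈ range (N + 1), if a < b ∧ a + b ≤ N then Y a - Y b else 0 := by
    refine Finset.sum_congr rfl fun i _ => ?_
    rw [← flip N (fun b => if i < b ∧ i + b ≤ N then Y i - Y b else 0)]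
    refine Finset.sum_congr rfl fun j hj => ?_
    have hj' := Finset.mem_range.mp hj
    by_cases h : i ≤ j ∧ i + j < N
    · rw [if_pos h, if_pos (by omega)]
    · rw [if_neg h, if_neg (by omega)]
  have h3 : (∑ i ∈ range (N + 1), ∑ j ∈ range (N + 1),
        if i ≤ j ∧ i + j < N then Y j - Y (N - i) else 0) =
      ∑ a ∈ range (N + 1), ∑ b ∈ range (N + 1), if a < b ∧ N ≤ a + b then Y a - Y b else 0 := by
    rw [Finset.sum_comm]
    refine Finset.sum_congr rfl fun j hj => ?_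
    have hj' := Finset.mem_range.mp hj
    rw [← flip N (fun b => if j < b ∧ N ≤ j + b then Y j - Y b else 0)]
    refine Finset.sum_congr rfl fun i hi => ?_
    have hi' := Finset.mem_range.mp hi
    by_cases h : i ≤ j ∧ i + j < N
    · rw [if_pos h, if_pos (by omega)]
    · rw [if_neg h, if_neg (by omega)]
  have h4 : (∑ a ∈ range (N + 1), ∑ b ∈ range (N + 1),
        if a < b ∧ a + b ≤ N then Y a - Y b else 0) +
      (∑ a ∈ range (N + 1), ∑ b ∈ range (N + 1), if a < b ∧ N ≤ a + b then Y a - Y b else 0) =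
      (∑ a ∈ range (N + 1), ∑ b ∈ range (N + 1), if a < b then Y a - Y b else 0) +
        ∑ a ∈ range m, (Y a - Y (N - a)) := by
    have e : ∑ a ∈ range m, (Y a - Y (N - a)) =
        ∑ a ∈ range (N + 1), ∑ b ∈ range (N + 1), if a < b ∧ a + b = N then Y a - Y b else 0 := by
      have e1 : range m = (range (N + 1)).filter (· < m) := by
        ext k
        rw [Finset.mem_filter, Finset.mem_range, Finset.mem_range]
        omega
      rw [e1, Finset.sum_filter]
      refine Finset.sum_congr rfl fun a ha => ?_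
      have ha' := Finset.mem_range.mp ha
      rw [Finset.sum_eq_single (N - a)]
      · by_cases h : a < m
        · rw [if_pos h, if_pos (by omega)]
        · rw [if_neg h, if_neg (by omega)]
      · intro b _ hb
        rw [if_neg (by omega)]
      · intro h
        exact absurd (Finset.mem_range.mpr (by omega)) h
    rw [e, ← Finset.sum_add_distrib, ← Finset.sum_add_distrib]
    refine Finset.sum_congr rfl fun a _ => ?_
    rw [← Finset.sum_add_distrib, ← Finset.sum_add_distrib]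
    refine Finset.sum_congr rfl fun b _ => ?_
    by_cases hab : a < b
    · rcases lt_trichotomy (a + b) N with h | h | h
      · rw [if_pos ⟨hab, h.le⟩, if_neg (by omega), if_pos hab, if_neg (by omega)]
      · rw [if_pos ⟨hab, h.le⟩, if_pos ⟨hab, h.ge⟩, if_pos hab, if_pos ⟨hab, h⟩]
      · rw [if_neg (by omega), if_pos ⟨hab, h.le⟩, if_pos hab, if_neg (by omega), zero_add,
          add_zero]
    · rw [if_neg (fun h => hab h.1), if_neg (fun h => hab h.1), if_neg hab,
        if_neg (fun h => hab h.1)]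
  have h5 : (∑ i ∈ range (N + 1), ∑ j ∈ range (N + 1), if j < i then Y j - Y i else 0) =
      ∑ a ∈ range (N + 1), ∑ b ∈ range (N + 1), if a < b then Y a - Y b else 0 :=
    Finset.sum_comm
  rw [h5, ← h4, ← h2, ← h3]
  exact h1

/-- the row `r` -/
lemma row (m r : ℕ) (Y : ℕ → ℝ) {κ : ℝ} (hκ : 0 ≤ κ) (hr : r < m)
    (h1 : ∀ i, i ≤ 2 * m → Y i + Y (2 * m - i) ≤ 0)
    (h2 : ∀ i, i ≤ 2 * m → -(2 * κ) ≤ Y i + Y (2 * m - i)) :
    ((2 * m + 1 : ℕ) - 2 * r : ℝ) * Y r - (2 * m + 1 : ℕ) * κ ≤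
      ∑ j ∈ Ico r (2 * m + 1), max 0 (Y r + Y j) := by
  set T := Ico r (2 * m - r) with hT
  have a1 : ∑ j ∈ T, (Y r + Y j) ≤ ∑ j ∈ Ico r (2 * m + 1), max 0 (Y r + Y j) :=
    (Finset.sum_le_sum fun j _ => le_max_right 0 (Y r + Y j)).trans
      (Finset.sum_le_sum_of_subset_of_nonneg (Finset.Ico_subset_Ico le_rfl (by omega))
        fun j _ _ => le_max_left _ _)
  have a2 : ∑ j ∈ Ico r (2 * m - r + 1), Y j = ∑ j ∈ T, Y j + Y (2 * m - r) :=
    Finset.sum_Ico_succ_top (by omega) _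
  have a3 : ∑ j ∈ Ico r (2 * m - r + 1), Y (2 * m - j) = ∑ j ∈ Ico r (2 * m - r + 1), Y j := by
    have := Finset.sum_Ico_reflect Y r (m := 2 * m - r + 1) (n := 2 * m) (by omega)
    rw [this]
    have e1 : 2 * m + 1 - (2 * m - r + 1) = r := by omega
    have e2 : 2 * m + 1 - r = 2 * m - r + 1 := by omega
    rw [e1, e2]
  have a4 : -((2 * m + 1 : ℕ) * (2 * κ)) ≤
      ∑ j ∈ Ico r (2 * m - r + 1), (Y j + Y (2 * m - j)) := by
    have b1 : ∑ j ∈ Ico r (2 * m - r + 1), -(2 * κ) ≤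
        ∑ j ∈ Ico r (2 * m - r + 1), (Y j + Y (2 * m - j)) :=
      Finset.sum_le_sum fun j hj => h2 j (by
        have := Finset.mem_Ico.mp hj
        omega)
    refine le_trans ?_ b1
    rw [Finset.sum_const, Nat.card_Ico, nsmul_eq_mul]
    have b2 : ((2 * m - r + 1 - r : ℕ) : ℝ) ≤ (2 * m + 1 : ℕ) := by
      exact_mod_cast (by omega : 2 * m - r + 1 - r ≤ 2 * m + 1)
    nlinarith
  rw [Finset.sum_add_distrib, a3] at a4
  have a5 : ∑ j ∈ T, (Y r + Y j) = (2 * m - 2 * r : ℝ) * Y r + ∑ j ∈ T, Y j := by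
    rw [Finset.sum_add_distrib, Finset.sum_const, hT, Nat.card_Ico, nsmul_eq_mul]
    have : ((2 * m - r - r : ℕ) : ℝ) = 2 * m - 2 * r := by
      rw [Nat.cast_sub (by omega), Nat.cast_sub (by omega)]
      push_cast
      ring
    rw [this]
  have a6 := h1 r (by omega)
  push_cast at a4 ⊢
  linarith

/-- the additive form -/
lemma total {n : ℕ} (hn : 3 ≤ n) (ho : Odd n) {κ L : ℝ} (hκ : 0 ≤ κ) (_hL : 0 ≤ L) (y : Fin n → ℝ)
    (hmono : ∀ i j, i ≤ j → y j ≤ y i) (hsum : -κ ≤ ∑ i, y i)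
    (h1 : ∀ i, y i + y (Fin.rev i) ≤ 0) (r : Fin n) (hr : (r : ℕ) < n / 2)
    (h3 : y ⟨0, by omega⟩ ≤ y r + κ) (h4 : 2 * y r ≤ κ + L) :
    (∑ p : Ix n, max 0 (-y p.1.1 - y p.1.2)) + (L + ((n : ℝ) - (r : ℕ)) * L +
        (∑ j ∈ univ.filter (fun j => r ≤ j), (-y r - y j)) +
        ∑ p ∈ (univ : Finset (Ix n)).filter (fun x => x.1.1 ≠ r), max 0 (-y p.1.1 - y p.1.2)) ≤
      (4 * n ^ 2 + 4 * n) * κ + (n + 1) * L +
        (∑ i, ∑ j ∈ univ.filter (· < i), (y j - y i)) - min L (y ⟨0, by omega⟩) / 2 := by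
  have h2 : ∀ i, -(2 * κ) ≤ y i + y (Fin.rev i) := by
    intro i
    have a : ∑ j, (y j + y (Fin.rev j)) = 2 * ∑ j, y j := by
      rw [Finset.sum_add_distrib, Expo.sum_rev]
      ring
    have b : -(y i + y (Fin.rev i)) ≤ ∑ j, -(y j + y (Fin.rev j)) :=
      Finset.single_le_sum (f := fun j => -(y j + y (Fin.rev j)))
        (fun j _ => by have := h1 j; linarith) (Finset.mem_univ i)
    rw [Finset.sum_neg_distrib, a] at b
    linarith
  obtain ⟨m, rfl⟩ : ∃ m, n = 2 * m + 1 := ho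
  have hrm : (r : ℕ) < m := by omega
  -- the extension to the natural numbers
  set Y : ℕ → ℝ := fun k => if h : k < 2 * m + 1 then y ⟨k, h⟩ else 0 with hYdef
  have hYv : ∀ i : Fin (2 * m + 1), Y i = y i := fun i => by
    rw [hYdef]
    simp only [i.2, dif_pos]
  have hY : ∀ k (h : k < 2 * m + 1), Y k = y ⟨k, h⟩ := fun k h => hYv ⟨k, h⟩
  have hYmono : ∀ i j, i ≤ j → j ≤ 2 * m → Y j ≤ Y i := fun i j hij hj => by
    rw [hY i (by omega), hY j (by omega)]
    exact hmono _ _ hij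
  have hrev : ∀ i (hi : i ≤ 2 * m), (⟨2 * m - i, by omega⟩ : Fin (2 * m + 1)) =
      Fin.rev ⟨i, by omega⟩ := fun i hi => by
    ext
    simp only [Fin.val_rev]
    omega
  have hY1 : ∀ i, i ≤ 2 * m → Y i + Y (2 * m - i) ≤ 0 := fun i hi => by
    rw [hY i (by omega), hY (2 * m - i) (by omega), hrev i hi]
    exact h1 _
  have hY2 : ∀ i, i ≤ 2 * m → -(2 * κ) ≤ Y i + Y (2 * m - i) := fun i hi => by
    rw [hY i (by omega), hY (2 * m - i) (by omega), hrev i hi]
    exact h2 _
  have hc := core m Y hYmono hY1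
  have hrow := row m r Y hκ hrm hY1 hY2
  -- conversions
  have e1 : ∑ p : Ix (2 * m + 1), max 0 (y p.1.1 + y p.1.2) =
      ∑ i ∈ range (2 * m + 1), ∑ j ∈ range (2 * m + 1),
        if i ≤ j then max 0 (Y i + Y j) else 0 := by
    rw [Expo.ix_sum (fun i j => max 0 (y i + y j)),
      ← Fin.sum_univ_eq_sum_range (fun i => ∑ j ∈ range (2 * m + 1),
        if i ≤ j then max 0 (Y i + Y j) else 0)]
    refine Finset.sum_congr rfl fun i _ => ?_
    rw [← Fin.sum_univ_eq_sum_range (fun j => if (i : ℕ) ≤ j then max 0 (Y i + Y j) else 0)]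
    refine Finset.sum_congr rfl fun j _ => ?_
    rw [hYv i, hYv j]
    by_cases h : i ≤ j
    · rw [if_pos h, if_pos (Fin.le_def.mp h)]
    · rw [if_neg h, if_neg (fun h' => h (Fin.le_def.mpr h'))]
  have e2 : ∑ i, ∑ j ∈ univ.filter (· < i), (y j - y i) =
      ∑ i ∈ range (2 * m + 1), ∑ j ∈ range (2 * m + 1), if j < i then Y j - Y i else 0 := by
    rw [← Fin.sum_univ_eq_sum_range (fun i => ∑ j ∈ range (2 * m + 1),
        if j < i then Y j - Y i else 0)]
    refine Finset.sum_congr rfl fun i _ => ?_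
    rw [← Fin.sum_univ_eq_sum_range (fun j => if j < (i : ℕ) then Y j - Y i else 0),
      Finset.sum_filter]
    refine Finset.sum_congr rfl fun j _ => ?_
    rw [hYv i, hYv j]
    by_cases h : j < i
    · rw [if_pos h, if_pos (Fin.lt_def.mp h)]
    · rw [if_neg h, if_neg (fun h' => h (Fin.lt_def.mpr h'))]
  have e3 : ∑ j ∈ univ.filter (fun j => r ≤ j), max 0 (y r + y j) =
      ∑ j ∈ Ico (r : ℕ) (2 * m + 1), max 0 (Y r + Y j) := by
    have a := Fin.sum_univ_eq_sum_range
      (fun k => if (r : ℕ) ≤ k then max 0 (Y r + Y k) else 0) (2 * m + 1)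
    have b : ∑ j ∈ univ.filter (fun j => r ≤ j), max 0 (y r + y j) =
        ∑ j : Fin (2 * m + 1), if (r : ℕ) ≤ (j : ℕ) then max 0 (Y r + Y j) else 0 := by
      rw [Finset.sum_filter]
      refine Finset.sum_congr rfl fun j _ => ?_
      rw [hYv, hYv]
      by_cases h : r ≤ j
      · rw [if_pos h, if_pos (Fin.le_def.mp h)]
      · rw [if_neg h, if_neg (fun h' => h (Fin.le_def.mpr h'))]
    rw [b, a, ← Finset.sum_filter]
    refine Finset.sum_congr ?_ fun _ _ => rfl
    ext k
    rw [Finset.mem_filter, Finset.mem_range, Finset.mem_Ico]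
    omega
  -- the excluded row
  have e4 : ∑ p ∈ (univ : Finset (Ix (2 * m + 1))).filter (fun x => x.1.1 ≠ r),
        max 0 (-y p.1.1 - y p.1.2) =
      (∑ p : Ix (2 * m + 1), max 0 (-y p.1.1 - y p.1.2)) -
        ∑ j ∈ univ.filter (fun j => r ≤ j), max 0 (-y r - y j) := by
    rw [Finset.sum_filter, Expo.ix_sum (fun i j => if i ≠ r then max 0 (-y i - y j) else 0),
      Expo.ix_sum (fun i j => max 0 (-y i - y j)), eq_sub_iff_add_eq, Finset.sum_filter]
    have a : (∑ j, if r ≤ j then max 0 (-y r - y j) else 0) =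
        ∑ i, if i = r then (∑ j, if i ≤ j then max 0 (-y i - y j) else 0) else 0 := by
      rw [Finset.sum_ite_eq', if_pos (Finset.mem_univ _)]
    rw [a, ← Finset.sum_add_distrib]
    refine Finset.sum_congr rfl fun i _ => ?_
    by_cases h : i = r
    · subst h
      simp
    · rw [if_neg h, add_zero]
      refine Finset.sum_congr rfl fun j _ => ?_
      rw [if_pos h]
  -- linear part
  have hlin : -(2 * κ * (2 * m + 1 : ℕ) ^ 2) ≤ ∑ p : Ix (2 * m + 1), (y p.1.1 + y p.1.2) := by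
    rw [Expo.ix_sum (fun i j => y i + y j)]
    have a := Expo.sum_refl (fun i j => y i + y j)
    have b : -(4 * κ * (2 * m + 1 : ℕ) ^ 2) ≤ (∑ i, ∑ j, if i ≤ j then y i + y j else 0) +
        ∑ i, ∑ j, if i ≤ j then y (Fin.rev j) + y (Fin.rev i) else 0 := by
      have e : (-(4 * κ * (2 * m + 1 : ℕ) ^ 2) : ℝ) =
          ∑ _i : Fin (2 * m + 1), ∑ _j : Fin (2 * m + 1), -(4 * κ) := by
        simp only [Finset.sum_const, Finset.card_univ, Fintype.card_fin, nsmul_eq_mul]
        ring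
      rw [e, ← Finset.sum_add_distrib]
      refine Finset.sum_le_sum fun i _ => ?_
      rw [← Finset.sum_add_distrib]
      refine Finset.sum_le_sum fun j _ => ?_
      have a := h2 i
      have b := h2 j
      split_ifs
      · linarith
      · linarith
    rw [← a] at b
    linarith
  have e5 : ∑ p : Ix (2 * m + 1), max 0 (-y p.1.1 - y p.1.2) =
      -(∑ p : Ix (2 * m + 1), (y p.1.1 + y p.1.2)) +
        ∑ p : Ix (2 * m + 1), max 0 (y p.1.1 + y p.1.2) := by
    rw [← Finset.sum_neg_distrib, ← Finset.sum_add_distrib]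
    refine Finset.sum_congr rfl fun p _ => ?_
    rcases le_total 0 (y p.1.1 + y p.1.2) with h | h
    · rw [max_eq_left (by linarith : -y p.1.1 - y p.1.2 ≤ 0), max_eq_right h]
      ring
    · rw [max_eq_right (by linarith : 0 ≤ -y p.1.1 - y p.1.2), max_eq_left h]
      ring
  have e6 : (∑ j ∈ univ.filter (fun j => r ≤ j), (-y r - y j)) -
      ∑ j ∈ univ.filter (fun j => r ≤ j), max 0 (-y r - y j) =
      -∑ j ∈ univ.filter (fun j => r ≤ j), max 0 (y r + y j) := by
    rw [← Finset.sum_sub_distrib, ← Finset.sum_neg_distrib]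
    refine Finset.sum_congr rfl fun j _ => ?_
    rcases le_total 0 (y r + y j) with h | h
    · rw [max_eq_left (by linarith : -y r - y j ≤ 0), max_eq_right h]
      ring
    · rw [max_eq_right (by linarith : 0 ≤ -y r - y j), max_eq_left h]
      ring
  -- the middle terms
  have hmid : ∑ a ∈ range m, (Y a - Y (2 * m - a)) ≤ 2 * m * Y r + 4 * m * κ := by
    have a1 : ∑ a ∈ range m, (Y a - Y (2 * m - a)) ≤ ∑ a ∈ range m, (2 * Y r + 4 * κ) := by
      refine Finset.sum_le_sum fun a ha => ?_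
      have ha' := Finset.mem_range.mp ha
      have b := hY2 a (by omega)
      have c := hYmono 0 a (by omega) (by omega)
      have d : Y 0 ≤ Y r + κ := by
        rw [hY 0 (by omega), hYv r]
        exact h3
      linarith
    rw [Finset.sum_const, Finset.card_range, nsmul_eq_mul] at a1
    linarith
  have hy0 : y ⟨0, by omega⟩ = Y 0 := (hY 0 (by omega)).symm
  have hyr : y r = Y r := (hYv r).symm
  rw [e4, e2]
  rw [← e1] at hc
  rw [← e3] at hrow
  have hmR : (0 : ℝ) ≤ m := Nat.cast_nonneg _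
  have hfin : (2 * (r : ℕ) - 1 : ℝ) * Y r - (r : ℕ) * L ≤
      2 * m * κ + κ - min L (y ⟨0, by omega⟩) / 2 := by
    rw [hyr] at h4
    rcases Nat.eq_zero_or_pos (r : ℕ) with h | h
    · rw [h]
      have hm0 : -κ ≤ Y 0 := by
        have a := hY2 m (by omega)
        have e : 2 * m - m = m := by omega
        rw [e] at a
        have b := hYmono 0 m (by omega) (by omega)
        linarith
      have c := min_le_right L (y ⟨0, by omega⟩)
      rw [hy0] at c ⊢
      push_cast
      have : 0 ≤ m * κ := by positivity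
      linarith
    · have h5 : (1 : ℝ) ≤ (r : ℕ) := by exact_mod_cast h
      have h6 : ((r : ℕ) : ℝ) ≤ m := by exact_mod_cast hrm.le
      have c := min_le_left L (y ⟨0, by omega⟩)
      have d : (2 * (r : ℕ) - 1 : ℝ) * (2 * Y r) ≤ (2 * (r : ℕ) - 1 : ℝ) * (κ + L) :=
        mul_le_mul_of_nonneg_left h4 (by linarith)
      have e : ((r : ℕ) : ℝ) * κ ≤ m * κ := mul_le_mul_of_nonneg_right h6 hκ
      have : 0 ≤ m * κ := by positivity
      nlinarith
  push_cast at hlin hrow ⊢
  have hsq : 0 ≤ (m : ℝ) * κ := by positivity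
  rw [e5]
  linarith

end ExpoAux

theorem expo (n : ℕ) (hn : 3 ≤ n) (ho : Odd n) (K : ℝ) (hK : 1 ≤ K) : ∃ C : ℝ, 0 < C ∧
    ∀ (H : ℝ) (s : Fin n → ℝ) (r : Fin n), 1 ≤ H → (∀ i, 0 < s i) →
      (∀ i j, i ≤ j → s i ≤ s j) → ∏ i, s i ≤ K → (∀ i, 1 ≤ s i * s (Fin.rev i)) →
      (r : ℕ) < n / 2 → s r ≤ K * s ⟨0, by omega⟩ → 1 ≤ K * H * s r ^ 2 →
      (∏ x : Ix n, max 1 (s x.1.1 * s x.1.2)) *
        (H * H ^ (n - (r : ℕ)) * (∏ j ∈ univ.filter (fun j => r ≤ j), (s r * s j)) *
          ∏ x ∈ (univ : Finset (Ix n)).filter (fun x => x.1.1 ≠ r),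
            max 1 (s x.1.1 * s x.1.2)) ≤
      C * H ^ (n + 1) * (∏ i, ∏ j ∈ univ.filter (· < i), (s i / s j)) *
        √(max (s ⟨0, by omega⟩) (1 / H)) := by
  refine ⟨Real.exp ((4 * n ^ 2 + 4 * n) * Real.log K), Real.exp_pos _, ?_⟩
  intro M s r hM hs hmono hprod hrev hr h3 h4
  have hM0 : 0 < M := by linarith
  have hK0 : 0 < K := by linarith
  obtain ⟨L, rfl⟩ : ∃ L, Real.exp L = M := ⟨Real.log M, Real.exp_log hM0⟩
  obtain ⟨κ, rfl⟩ : ∃ κ, Real.exp κ = K := ⟨Real.log K, Real.exp_log hK0⟩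
  obtain ⟨y, rfl⟩ : ∃ y : Fin n → ℝ, (fun i => Real.exp (-y i)) = s :=
    ⟨fun i => -Real.log (s i), by
      funext i
      rw [neg_neg, Real.exp_log (hs i)]⟩
  have hL : 0 ≤ L := by
    rwa [← Real.exp_zero, Real.exp_le_exp] at hM
  have hκ : 0 ≤ κ := by
    rwa [← Real.exp_zero, Real.exp_le_exp] at hK
  have key := ExpoAux.total hn ho hκ hL y
    (fun i j hij => by
      have := hmono i j hij
      simp only [Real.exp_le_exp] at this
      linarith)
    (by
      simp only [← Real.exp_sum, Real.exp_le_exp, Finset.sum_neg_distrib] at hprod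
      linarith)
    (fun i => by
      have := hrev i
      simp only [← Real.exp_add] at this
      rw [← Real.exp_zero, Real.exp_le_exp] at this
      linarith)
    r hr
    (by
      simp only [← Real.exp_add, Real.exp_le_exp] at h3
      linarith)
    (by
      simp only [← Real.exp_add, ← Real.exp_nat_mul] at h4
      rw [← Real.exp_zero, Real.exp_le_exp] at h4
      push_cast at h4
      linarith)
  have e0 : ∀ p : Ix n, max 1 (Real.exp (-y p.1.1) * Real.exp (-y p.1.2)) =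
      Real.exp (max 0 (-y p.1.1 - y p.1.2)) := by
    intro p
    rw [Real.exp_monotone.map_max, Real.exp_zero, ← Real.exp_add, sub_eq_add_neg]
  have e1 : ∏ p : Ix n, max 1 (Real.exp (-y p.1.1) * Real.exp (-y p.1.2)) =
      Real.exp (∑ p : Ix n, max 0 (-y p.1.1 - y p.1.2)) := by
    rw [Real.exp_sum]
    exact Finset.prod_congr rfl fun p _ => e0 p
  have e2 : ∏ p ∈ (univ : Finset (Ix n)).filter (fun x => x.1.1 ≠ r),
        max 1 (Real.exp (-y p.1.1) * Real.exp (-y p.1.2)) =
      Real.exp (∑ p ∈ (univ : Finset (Ix n)).filter (fun x => x.1.1 ≠ r),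
        max 0 (-y p.1.1 - y p.1.2)) := by
    rw [Real.exp_sum]
    exact Finset.prod_congr rfl fun p _ => e0 p
  have e6 : ∏ j ∈ univ.filter (fun j => r ≤ j), (Real.exp (-y r) * Real.exp (-y j)) =
      Real.exp (∑ j ∈ univ.filter (fun j => r ≤ j), (-y r - y j)) := by
    rw [Real.exp_sum]
    refine Finset.prod_congr rfl fun j _ => ?_
    rw [← Real.exp_add, sub_eq_add_neg]
  have e3 : ∏ i, ∏ j ∈ univ.filter (· < i), (Real.exp (-y i) / Real.exp (-y j)) =
      Real.exp (∑ i, ∑ j ∈ univ.filter (· < i), (y j - y i)) := by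
    rw [Real.exp_sum]
    refine Finset.prod_congr rfl fun i _ => ?_
    rw [Real.exp_sum]
    refine Finset.prod_congr rfl fun j _ => ?_
    rw [← Real.exp_sub]
    congr 1
    ring
  have e4 : √(max (Real.exp (-y ⟨0, by omega⟩)) (1 / Real.exp L)) =
      Real.exp (-(min L (y ⟨0, by omega⟩) / 2)) := by
    have a : 1 / Real.exp L = Real.exp (-L) := by rw [Real.exp_neg, one_div]
    rw [a, ← Real.exp_monotone.map_max, ← Real.exp_half]
    congr 1
    rcases le_total L (y ⟨0, by omega⟩) with h | h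
    · rw [min_eq_left h, max_eq_right (by linarith)]
      ring
    · rw [min_eq_right h, max_eq_left (by linarith)]
      ring
  have e5 : Real.exp L ^ (n + 1) = Real.exp (((n : ℝ) + 1) * L) := by
    rw [← Real.exp_nat_mul]
    push_cast
    rfl
  have e7 : Real.exp L ^ (n - (r : ℕ)) = Real.exp (((n : ℝ) - (r : ℕ)) * L) := by
    rw [← Real.exp_nat_mul, Nat.cast_sub r.2.le]
  simp only [Real.log_exp]
  rw [e1, e2, e3, e4, e5, e6, e7, ← Real.exp_add, ← Real.exp_add, ← Real.exp_add, ← Real.exp_add,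
    ← Real.exp_add, ← Real.exp_add, ← Real.exp_add]
  apply Real.exp_le_exp.mpr
  linarith

end Stoll308.OF
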