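import Pool.Agent.Work.MP_308fa9_nt.OF.Count
import Pool.Agent.Work.MP_308fa9_nt.OF.Expo

set_option autoImplicit false

/-!
The number of polynomials which come from the reduced pairs of one dyadic cell.
-/

namespace Stoll308.OF

open Polynomial Finset Matrix BG

namespace Cell

/-- The conditions for the scale of a nonempty cell. -/
lemma conds {n : ℕ} (hn : 3 ≤ n) {K : ℝ} (hK : 1 ≤ K) {H : ℕ} (hH : 1 ≤ H)
    {a : Fin (n + 1) → ℤ} (hF : Irreducible (FZ ℚ (mcf a))) {A B : Matrix (Fin n) (Fin n) ℤ}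
    {t : Fin n → ℝ} (h : RPair K H a A B t) {τ : Fin n → ℤ}
    (ht : ∀ i, (2 : ℝ) ^ (τ i) ≤ t i ∧ t i < (2 : ℝ) ^ (τ i + 1)) (s : Fin n → ℝ)
    (hs : ∀ i, s i = (2 : ℝ) ^ (τ i + 1)) :
    (∀ i j, i ≤ j → s i ≤ s j) ∧ (∏ i, s i ≤ 2 ^ n * K) ∧ (∀ i, 1 ≤ s i * s (Fin.rev i)) ∧
      (∀ i j : Fin n, (i : ℕ) + j = n - 2 → 1 ≤ (K * H) * (s i * s j)) := by
  have hts : ∀ i, t i ≤ s i := fun i => by rw [hs]; exact (ht i).2.le
  have hst : ∀ i, s i ≤ 2 * t i := fun i => by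
    rw [hs, zpow_add_one₀ two_ne_zero, mul_comm]
    exact mul_le_mul_of_nonneg_left (ht i).1 zero_le_two
  have hs0 : ∀ i, 0 < s i := fun i => (h.pos i).trans_le (hts i)
  have hτ : ∀ i j, i ≤ j → τ i ≤ τ j := by
    intro i j hij
    have h1 : (2 : ℝ) ^ (τ i) < (2 : ℝ) ^ (τ j + 1) :=
      lt_of_le_of_lt (ht i).1 (lt_of_le_of_lt (h.mono i j hij) (ht j).2)
    have h2 := (zpow_lt_zpow_iff_right₀ (one_lt_two (α := ℝ))).1 h1
    omega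
  have hmono : ∀ i j, i ≤ j → s i ≤ s j := by
    intro i j hij
    rw [hs, hs]
    exact zpow_le_zpow_right₀ (one_le_two (α := ℝ)) (by have := hτ i j hij; omega)
  have hH1 : (1 : ℝ) ≤ H := by exact_mod_cast hH
  have hM : 1 ≤ K * H := one_le_mul_of_one_le_of_one_le hK hH1
  have hM0 : 0 < K * H := by linarith
  -- nonzero entries
  have hAe : ∀ i j i' j' : Fin n, i' ≤ i → j' ≤ j → A i' j' ≠ 0 → 1 ≤ s i * s j := by
    intro i j i' j' hi hj hne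
    calc (1 : ℝ) ≤ |(A i' j' : ℝ)| := CuspCell.one_le_abs_cast hne
      _ ≤ t i' * t j' := h.hA i' j'
      _ ≤ s i' * s j' := mul_le_mul (hts _) (hts _) (h.pos _).le (hs0 _).le
      _ ≤ s i * s j := mul_le_mul (hmono _ _ hi) (hmono _ _ hj) (hs0 _).le (hs0 _).le
  have hBe : ∀ i j i' j' : Fin n, i' ≤ i → j' ≤ j → B i' j' ≠ 0 →
      1 ≤ (K * H) * (s i * s j) := by
    intro i j i' j' hi hj hne
    calc (1 : ℝ) ≤ |(B i' j' : ℝ)| := CuspCell.one_le_abs_cast hne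
      _ ≤ K * H * (t i' * t j') := h.hB i' j'
      _ ≤ K * H * (s i' * s j') := by
          apply mul_le_mul_of_nonneg_left _ hM0.le
          exact mul_le_mul (hts _) (hts _) (h.pos _).le (hs0 _).le
      _ ≤ K * H * (s i * s j) := by
          apply mul_le_mul_of_nonneg_left _ hM0.le
          exact mul_le_mul (hmono _ _ hi) (hmono _ _ hj) (hs0 _).le (hs0 _).le
  refine ⟨hmono, ?_, ?_, ?_⟩
  · calc ∏ i, s i ≤ ∏ i, (2 * t i) :=
          Finset.prod_le_prod (fun i _ => (hs0 i).le) fun i _ => hst i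
      _ = 2 ^ n * ∏ i, t i := by
          rw [Finset.prod_mul_distrib, Finset.prod_const, Finset.card_univ, Fintype.card_fin]
      _ ≤ 2 ^ n * K := mul_le_mul_of_nonneg_left h.prod (by positivity)
  · intro i
    obtain ⟨i', j', hi, hj, hne⟩ := CuspCell.zero_block h.char.1 i
    exact hAe i (Fin.rev i) i' j' hi hj hne
  · intro i j hij
    obtain ⟨i', j', hi, hj, hne⟩ :=
      block_ne (mcf a) hF A B h.char ((i : ℕ) + 1) (by omega) (by omega)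
    rcases hne with hne | hne
    · have h1 := hAe i j i' j' (Fin.le_def.2 (by omega)) (Fin.le_def.2 (by omega)) hne
      nlinarith
    · exact hBe i j i' j' (Fin.le_def.2 (by omega)) (Fin.le_def.2 (by omega)) hne

/-- The rows with a vanishing diagonal entry are divisible by `sfp (a 0)`. -/
lemma row_dvd {n : ℕ} {κ : ℤ} {B : Matrix (Fin n) (Fin n) ℤ}
    (h : ∀ p : ℕ, p.Prime → p ∣ sfp κ → Rk1 p B) {i : Fin n} (hi : B i i = 0) (j : Fin n) :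
    (sfp κ : ℤ) ∣ B i j := by
  rw [Int.natCast_dvd]
  have hsub : ∀ p ∈ κ.natAbs.primeFactors.filter (fun p => ¬ p ^ 2 ∣ κ.natAbs), p.Prime :=
    fun p hp => Nat.prime_of_mem_primeFactors (mem_filter.1 hp).1
  unfold sfp
  refine Finset.prod_primes_dvd _ (fun p hp => (hsub p hp).prime) (fun p hp => ?_)
  have hp1 := hsub p hp
  have hp2 : p ∣ sfp κ := Finset.dvd_prod_of_mem (fun p => p) hp
  obtain ⟨w, hw⟩ := h p hp1 hp2
  have h1 := hw i i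
  rw [hi, zero_add] at h1
  have h2 : (p : ℤ) ∣ w i := by
    rcases (Nat.prime_iff_prime_int.1 hp1).dvd_or_dvd h1 with h | h <;> exact h
  have h3 : (p : ℤ) ∣ B i j := (Int.dvd_add_left (dvd_mul_of_dvd_left h2 _)).1 (hw i j)
  exact Int.natCast_dvd.1 h3

/-- One step. -/
lemma step {n : ℕ} {K K' : ℝ} (hK : 1 ≤ K) {H : ℕ} {s : Fin n → ℝ} (hn : 3 ≤ n)
    (hs0 : ∀ i, 0 < s i) (hmono : ∀ i j, i ≤ j → s i ≤ s j) (hprod : ∏ i, s i ≤ K')
    (hrev : ∀ i, 1 ≤ s i * s (Fin.rev i)) {a : Fin (n + 1) → ℤ}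
    {A B : Matrix (Fin n) (Fin n) ℤ} (h : Box K H s a A B) (i j : Fin n)
    (hij : (j : ℕ) = (i : ℕ) + 1) (hB : ∀ k, k ≤ i → B k k = 0) :
    s j ≤ (n : ℝ) ^ 2 * K ^ 2 * K' ^ 2 * s i := by
  obtain ⟨h0, hH, hsf, hF, hAs, hBs, hch, hA, hBb, hrk⟩ := h
  have hK0 : 0 < K := by linarith
  have hn1 : (1 : ℝ) ≤ (n : ℝ) ^ 2 := by
    have : (1 : ℝ) ≤ n := by exact_mod_cast (by omega : 1 ≤ n)
    exact one_le_pow₀ this
  have hq0 : (0 : ℝ) < sfp (a 0) := by exact_mod_cast sfp_pos (a 0)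
  have hjn := j.2
  obtain ⟨i', j', hi', hj', hne⟩ :=
    block_ne (mcf a) hF A B hch ((i : ℕ) + 1) (by omega) (by omega)
  have hi2 : i' ≤ i := Fin.le_def.2 (by omega)
  have hj2 : j' ≤ Fin.rev j := Fin.le_def.2 (by rw [Fin.val_rev]; omega)
  have hle : s i' * s j' ≤ s i * s (Fin.rev j) :=
    mul_le_mul (hmono _ _ hi2) (hmono _ _ hj2) (hs0 _).le (hs0 _).le
  have hpos : 0 < s i' * s j' := mul_pos (hs0 _) (hs0 _)
  have hpos2 : 0 < s i * s (Fin.rev j) := mul_pos (hs0 _) (hs0 _)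
  have hKK : 1 ≤ K ^ 2 := one_le_pow₀ hK
  have key : 1 ≤ (n : ℝ) ^ 2 * K ^ 2 * (s i * s (Fin.rev j)) := by
    rcases hne with hne | hne
    · have h1 := CuspCell.one_le_abs_cast hne
      calc (1 : ℝ) ≤ (n : ℝ) ^ 2 * (s i' * s j') := h1.trans (hA i' j')
        _ ≤ (n : ℝ) ^ 2 * (s i * s (Fin.rev j)) := mul_le_mul_of_nonneg_left hle (by positivity)
        _ = (n : ℝ) ^ 2 * 1 * (s i * s (Fin.rev j)) := by ring
        _ ≤ (n : ℝ) ^ 2 * K ^ 2 * (s i * s (Fin.rev j)) := by gcongr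
    · have h1 : (sfp (a 0) : ℤ) ∣ B i' j' := row_dvd hrk (hB i' hi2) j'
      have h2 : (sfp (a 0) : ℝ) ≤ |(B i' j' : ℝ)| := by
        have h3 := Int.le_of_dvd (abs_pos.2 hne) ((dvd_abs _ _).2 h1)
        exact_mod_cast h3
      have h3 : (sfp (a 0) : ℝ) * 1 ≤ sfp (a 0) * ((n : ℝ) ^ 2 * K ^ 2 * (s i * s (Fin.rev j))) :=
        calc (sfp (a 0) : ℝ) * 1 = sfp (a 0) := mul_one _
          _ ≤ (n : ℝ) ^ 2 * (K * H) * (s i' * s j') := h2.trans (hBb i' j')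
          _ ≤ (n : ℝ) ^ 2 * (K * (K * sfp (a 0))) * (s i * s (Fin.rev j)) := by gcongr
          _ = _ := by ring
      exact le_of_mul_le_mul_left h3 hq0
  have h4 := CuspCell.pair_le hs0 hprod hrev j
  have h5 := hs0 i
  have h6 := hs0 j
  calc s j = s j * 1 := (mul_one _).symm
    _ ≤ s j * ((n : ℝ) ^ 2 * K ^ 2 * (s i * s (Fin.rev j))) := mul_le_mul_of_nonneg_left key h6.le
    _ = (n : ℝ) ^ 2 * K ^ 2 * s i * (s j * s (Fin.rev j)) := by ring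
    _ ≤ (n : ℝ) ^ 2 * K ^ 2 * s i * K' ^ 2 := mul_le_mul_of_nonneg_left h4 (by positivity)
    _ = _ := by ring

/-- The chain of the steps. -/
lemma steps {n : ℕ} {K K' : ℝ} (hK : 1 ≤ K) (hK' : 1 ≤ K') {H : ℕ} {s : Fin n → ℝ} (hn : 3 ≤ n)
    (hs0 : ∀ i, 0 < s i) (hmono : ∀ i j, i ≤ j → s i ≤ s j) (hprod : ∏ i, s i ≤ K')
    (hrev : ∀ i, 1 ≤ s i * s (Fin.rev i)) {a : Fin (n + 1) → ℤ}
    {A B : Matrix (Fin n) (Fin n) ℤ} (h : Box K H s a A B) (z : Fin n) (hz : (z : ℕ) = 0) :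
    ∀ (d : ℕ) (i : Fin n), (i : ℕ) = d → (∀ k, k < i → B k k = 0) →
      s i ≤ ((n : ℝ) ^ 2 * K ^ 2 * K' ^ 2) ^ d * s z := by
  intro d
  induction d with
  | zero =>
    intro i hi _
    have : i = z := Fin.ext (by omega)
    rw [this, pow_zero, one_mul]
  | succ d ih =>
    intro i hi hB
    have hin := i.2
    obtain ⟨j, hj⟩ : ∃ j : Fin n, (j : ℕ) = d := ⟨⟨d, by omega⟩, rfl⟩
    have hji : j < i := Fin.lt_def.2 (by omega)
    have h1 := ih j hj (fun k hk => hB k (hk.trans hji))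
    have h2 := step hK hn hs0 hmono hprod hrev h j i (by omega)
      (fun k hk => hB k (lt_of_le_of_lt hk hji))
    calc s i ≤ (n : ℝ) ^ 2 * K ^ 2 * K' ^ 2 * s j := h2
      _ ≤ (n : ℝ) ^ 2 * K ^ 2 * K' ^ 2 * (((n : ℝ) ^ 2 * K ^ 2 * K' ^ 2) ^ d * s z) :=
          mul_le_mul_of_nonneg_left h1 (by positivity)
      _ = _ := by ring

/-- The first nonzero diagonal entry of `B`. -/
lemma first {n : ℕ} {K K' : ℝ} (hK : 1 ≤ K) (hK' : 1 ≤ K') {H : ℕ} {s : Fin n → ℝ} (hn : 3 ≤ n)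
    (ho : Odd n)
    (hs0 : ∀ i, 0 < s i) (hmono : ∀ i j, i ≤ j → s i ≤ s j) (hprod : ∏ i, s i ≤ K')
    (hrev : ∀ i, 1 ≤ s i * s (Fin.rev i)) (z : Fin n) (hz : (z : ℕ) = 0)
    (hsm : ((n : ℝ) ^ 2 * K ^ 2 * K' ^ 2) ^ n * s z < 1) {a : Fin (n + 1) → ℤ}
    {A B : Matrix (Fin n) (Fin n) ℤ} (h : Box K H s a A B) :
    ∃ r : Fin n, ((r : ℕ) < n / 2 ∧ s r ≤ ((n : ℝ) ^ 2 * K ^ 2 * K' ^ 2) ^ n * s z ∧
      1 ≤ (n : ℝ) ^ 2 * (K * H) * (s r * s r)) ∧ (∀ i, i < r → B i i = 0) ∧ B r r ≠ 0 := by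
  classical
  obtain ⟨L, hL⟩ : ∃ L : ℝ, L = (n : ℝ) ^ 2 * K ^ 2 * K' ^ 2 := ⟨_, rfl⟩
  have hn1 : (1 : ℝ) ≤ (n : ℝ) ^ 2 := by
    have : (1 : ℝ) ≤ n := by exact_mod_cast (by omega : 1 ≤ n)
    exact one_le_pow₀ this
  have hL1 : 1 ≤ L := by
    rw [hL]
    exact one_le_mul_of_one_le_of_one_le
      (one_le_mul_of_one_le_of_one_le hn1 (one_le_pow₀ hK)) (one_le_pow₀ hK')
  have hst := steps hK hK' hn hs0 hmono hprod hrev h z hz
  rw [← hL] at hsm hst ⊢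
  have hex : ∃ i : Fin n, (i : ℕ) < n / 2 ∧ B i i ≠ 0 := by
    by_contra hcon
    push Not at hcon
    obtain ⟨m, hm⟩ : ∃ m : Fin n, (m : ℕ) = n / 2 := ⟨⟨n / 2, by omega⟩, rfl⟩
    have h1 := hst (n / 2) m hm (fun k hk => hcon k (by rw [Fin.lt_def] at hk; omega))
    have h2 := hrev m
    have hmr : Fin.rev m = m := Fin.ext (by
      rw [Fin.val_rev]
      obtain ⟨k, hk⟩ := ho
      omega)
    rw [hmr] at h2
    have h3 : 1 ≤ s m := by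
      by_contra hlt
      push Not at hlt
      have := hs0 m
      nlinarith
    have h4 : L ^ (n / 2) * s z ≤ L ^ n * s z :=
      mul_le_mul_of_nonneg_right (pow_le_pow_right₀ hL1 (by omega)) (hs0 z).le
    linarith
  obtain ⟨r, hr, hrmin⟩ := (univ.filter (fun i : Fin n => B i i ≠ 0)).exists_minimal
    (by obtain ⟨i, _, hi⟩ := hex; exact ⟨i, mem_filter.2 ⟨mem_univ _, hi⟩⟩)
  rw [mem_filter] at hr
  have hlt : ∀ i, i < r → B i i = 0 := by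
    intro i hi
    by_contra hne
    have := hrmin (mem_filter.2 ⟨mem_univ i, hne⟩) hi.le
    exact absurd hi (not_lt.2 this)
  refine ⟨r, ⟨?_, ?_, ?_⟩, hlt, hr.2⟩
  · obtain ⟨i, hi, hne⟩ := hex
    by_contra hge
    push Not at hge
    exact hne (hlt i (Fin.lt_def.2 (by omega)))
  · refine (hst r r rfl hlt).trans ?_
    exact mul_le_mul_of_nonneg_right (pow_le_pow_right₀ hL1 r.2.le) (hs0 z).le
  · obtain ⟨h0, hH, hsf, hF, hAs, hBs, hch, hA, hBb, hrk⟩ := h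
    exact (CuspCell.one_le_abs_cast hr.2).trans (hBb r r)

end Cell

open Cell in
theorem cell (n : ℕ) (hn : 3 ≤ n) (ho : Odd n) (K : ℝ) (hK : 1 ≤ K) :
    ∃ (C : ℝ) (Q : ℕ) (τ₁ : ℤ), 0 < C ∧ ∀ (H : ℕ) (τ : Fin n → ℤ), 1 ≤ H →
      τ ⟨0, by omega⟩ ≤ τ₁ → ∀ T : Finset (Fin (n + 1) → ℤ), T.Nonempty →
      (∀ a ∈ T, a 0 ≠ 0 ∧ |(a 0 : ℝ)| ≤ H ∧ Irreducible (FZ ℚ (mcf a)) ∧
        ∃ (A B : Matrix (Fin n) (Fin n) ℤ) (t : Fin n → ℝ), RPair K H a A B t ∧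
          ∀ i, (2 : ℝ) ^ (τ i) ≤ t i ∧ t i < (2 : ℝ) ^ (τ i + 1)) →
      (∀ i, τ ⟨0, by omega⟩ ≤ τ i) ∧ (∀ i, τ i ≤ Q * (1 + |τ ⟨0, by omega⟩|)) ∧
      (2 : ℝ) ^ (-τ ⟨0, by omega⟩) ≤ C * (H : ℝ) ^ Q ∧
      (T.card : ℝ) ≤ C * (H : ℝ) ^ (n + 1) *
        √(max ((2 : ℝ) ^ (τ ⟨0, by omega⟩)) (1 / (H : ℝ))) := by
  classical
  have hn1 : (1 : ℝ) ≤ (n : ℝ) ^ 2 := by
    have : (1 : ℝ) ≤ n := by exact_mod_cast (by omega : 1 ≤ n)
    exact one_le_pow₀ this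
  have hn0 : (0 : ℝ) < n := by exact_mod_cast (by omega : 0 < n)
  have hK0 : 0 < K := by linarith
  obtain ⟨K', hK'⟩ : ∃ K' : ℝ, K' = 2 ^ n * K := ⟨_, rfl⟩
  have hK'1 : 1 ≤ K' := by
    rw [hK']
    exact one_le_mul_of_one_le_of_one_le (one_le_pow₀ one_le_two) hK
  have hK'0 : 0 < K' := by linarith
  obtain ⟨L, hL⟩ : ∃ L : ℝ, L = (n : ℝ) ^ 2 * K ^ 2 * K' ^ 2 := ⟨_, rfl⟩
  have hKK : 1 ≤ K ^ 2 := one_le_pow₀ hK
  have hKK' : 1 ≤ K' ^ 2 := one_le_pow₀ hK'1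
  have hL1 : 1 ≤ L := by
    rw [hL]
    exact one_le_mul_of_one_le_of_one_le (one_le_mul_of_one_le_of_one_le hn1 hKK) hKK'
  have hLn : L ≤ L ^ n := by
    calc L = L ^ 1 := (pow_one L).symm
      _ ≤ L ^ n := pow_le_pow_right₀ hL1 (by omega)
  have hLn1 : 1 ≤ L ^ n := hL1.trans hLn
  have hK'L : K' ≤ L ^ n := by
    refine le_trans ?_ hLn
    rw [hL]
    calc K' = 1 * 1 * K' := by ring
      _ ≤ (n : ℝ) ^ 2 * K ^ 2 * K' ^ 2 := by
          have : K' ≤ K' ^ 2 := by nlinarith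
          gcongr
  have hnKL : (n : ℝ) ^ 2 * K ≤ L ^ n := by
    refine le_trans ?_ hLn
    rw [hL]
    calc (n : ℝ) ^ 2 * K = (n : ℝ) ^ 2 * K * 1 := by ring
      _ ≤ (n : ℝ) ^ 2 * K ^ 2 * K' ^ 2 := by
          have : K ≤ K ^ 2 := by nlinarith
          gcongr
  obtain ⟨C₀, hC₀, hexpo⟩ := expo n hn ho (L ^ n) hLn1
  obtain ⟨q, hq⟩ : ∃ q : ℕ, K' ^ 2 < 2 ^ q := pow_unbounded_of_one_lt _ one_lt_two
  obtain ⟨m, hm⟩ : ∃ m : ℕ, L ^ n < 2 ^ m := pow_unbounded_of_one_lt _ one_lt_two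
  have h0n : 0 < n := by omega
  obtain ⟨z, hz⟩ : ∃ z : Fin n, z = ⟨0, h0n⟩ := ⟨_, rfl⟩
  have hz0 : (z : ℕ) = 0 := by rw [hz]
  obtain ⟨D, hD⟩ : ∃ D : ℝ, D = (3 * (n : ℝ) ^ 2 * K ^ 2) ^ (3 * Fintype.card (Ix n) + 4) :=
    ⟨_, rfl⟩
  have hD0 : 0 < D := by
    rw [hD]
    positivity
  refine ⟨2 * (K' ^ 2 * K) ^ (n - 1) + 2 * D * n * C₀, q + n, -(m : ℤ) - 1, by positivity, ?_⟩
  intro H τ hH hτ₁ T hTne hT
  rw [← hz] at hτ₁ ⊢
  have hH1 : (1 : ℝ) ≤ H := by exact_mod_cast hH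
  have hH0 : (0 : ℝ) < H := by linarith
  have hM1 : 1 ≤ K * H := one_le_mul_of_one_le_of_one_le hK hH1
  obtain ⟨s, hs⟩ : ∃ s : Fin n → ℝ, ∀ i, s i = (2 : ℝ) ^ (τ i + 1) := ⟨_, fun _ => rfl⟩
  have hs0 : ∀ i, 0 < s i := fun i => by rw [hs]; positivity
  obtain ⟨c₀, hc₀⟩ := hTne
  obtain ⟨h0₀, hH₀, hF₀, A₀, B₀, t₀, hR₀, ht₀⟩ := hT c₀ hc₀
  obtain ⟨hmono, hprod, hrev, h3⟩ := conds hn hK hH hF₀ hR₀ ht₀ s hs
  rw [← hK'] at hprod
  have hsz : s z = 2 * (2 : ℝ) ^ (τ z) := by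
    rw [hs, zpow_add_one₀ two_ne_zero, mul_comm]
  have hchain := CuspCell.chain hn hK'1 hM1 hs0 hmono hprod hrev h3 (n - 1) z (by omega)
  have hsm : L ^ n * s z < 1 := by
    have h1 : s z ≤ (2 : ℝ) ^ (-(m : ℤ)) := by
      rw [hs]
      exact zpow_le_zpow_right₀ one_le_two (by omega)
    have h2 : (2 : ℝ) ^ m * (2 : ℝ) ^ (-(m : ℤ)) = 1 := by
      rw [← zpow_natCast, ← zpow_add₀ two_ne_zero]
      simp
    calc L ^ n * s z ≤ L ^ n * (2 : ℝ) ^ (-(m : ℤ)) := mul_le_mul_of_nonneg_left h1 (by linarith)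
      _ < (2 : ℝ) ^ m * (2 : ℝ) ^ (-(m : ℤ)) := mul_lt_mul_of_pos_right hm (by positivity)
      _ = 1 := h2
  refine ⟨fun i => ?_, fun i => ?_, ?_, ?_⟩
  · have h1 := hmono z i (by rw [Fin.le_def]; omega)
    rw [hs, hs, zpow_le_zpow_iff_right₀ (one_lt_two (α := ℝ))] at h1
    omega
  · have h1 := CuspCell.pair_le hs0 hprod hrev z
    have h2 : s i ≤ s (Fin.rev z) := hmono _ _ (by
      rw [Fin.le_def, Fin.val_rev]
      have := i.2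
      omega)
    have h6 : s z * s i < 2 ^ q :=
      lt_of_le_of_lt ((mul_le_mul_of_nonneg_left h2 (hs0 z).le).trans h1) hq
    rw [hs, hs, ← zpow_add₀ two_ne_zero, ← zpow_natCast,
      zpow_lt_zpow_iff_right₀ (one_lt_two (α := ℝ))] at h6
    have h7 := neg_abs_le (τ z)
    have h8 : (0 : ℤ) ≤ |τ z| := abs_nonneg _
    have h9 : ((q + n : ℕ) : ℤ) * (1 + |τ z|) = q + n + (q + n) * |τ z| := by push_cast; ring
    rw [h9]
    have h10 : (3 : ℤ) ≤ n := by exact_mod_cast hn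
    have h11 : (0 : ℤ) ≤ q := by positivity
    nlinarith
  · have h1 : (2 : ℝ) ^ (-τ z) * (2 : ℝ) ^ (τ z) = 1 := by
      rw [← zpow_add₀ two_ne_zero]; simp
    have h2 : (0 : ℝ) < (2 : ℝ) ^ (-τ z) := by positivity
    have h6 : (2 : ℝ) ^ (-τ z) ≤ 2 * (K' ^ 2 * (K * H)) ^ (n - 1) := by
      rw [hsz] at hchain
      calc (2 : ℝ) ^ (-τ z) = (2 : ℝ) ^ (-τ z) * 1 := (mul_one _).symm
        _ ≤ (2 : ℝ) ^ (-τ z) * ((K' ^ 2 * (K * H)) ^ (n - 1) * (2 * (2 : ℝ) ^ (τ z))) :=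
            mul_le_mul_of_nonneg_left hchain h2.le
        _ = ((2 : ℝ) ^ (-τ z) * (2 : ℝ) ^ (τ z)) * (2 * (K' ^ 2 * (K * H)) ^ (n - 1)) := by ring
        _ = _ := by rw [h1, one_mul]
    calc (2 : ℝ) ^ (-τ z) ≤ 2 * (K' ^ 2 * (K * H)) ^ (n - 1) := h6
      _ = 2 * (K' ^ 2 * K) ^ (n - 1) * (H : ℝ) ^ (n - 1) := by
          rw [← mul_assoc, mul_pow (K' ^ 2 * K)]; ring
      _ ≤ (2 * (K' ^ 2 * K) ^ (n - 1) + 2 * D * n * C₀) * (H : ℝ) ^ (q + n) := by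
          refine mul_le_mul ?_ (pow_le_pow_right₀ hH1 (by omega)) (by positivity) (by positivity)
          have : 0 < 2 * D * n * C₀ := by positivity
          linarith
  · obtain ⟨R, hR⟩ : ∃ R : Finset (Fin n), ∀ r, r ∈ R ↔ ((r : ℕ) < n / 2 ∧ s r ≤ L ^ n * s z ∧
        1 ≤ (n : ℝ) ^ 2 * (K * H) * (s r * s r)) :=
      ⟨univ.filter (fun r => (r : ℕ) < n / 2 ∧ s r ≤ L ^ n * s z ∧
        1 ≤ (n : ℝ) ^ 2 * (K * H) * (s r * s r)), fun r => by simp⟩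
    have hcount := count hn K hK H hH s hs0 hmono R (fun a A B h => by
      obtain ⟨r, h1, h2⟩ := first hK hK'1 hn ho hs0 hmono hprod hrev z hz0 (by rw [← hL]; exact hsm) h
      rw [← hL] at h1
      exact ⟨r, (hR r).2 h1, h2⟩) T (fun a ha => by
      obtain ⟨h0, hHa, hF, A, B, t, h, ht⟩ := hT a ha
      exact ⟨h0, hHa, hF, A, B, t, h, fun i => by rw [hs]; exact (ht i).2.le⟩)
    rw [← hD] at hcount
    obtain ⟨V, hV⟩ : ∃ V : ℝ, V = ∏ i, ∏ j ∈ univ.filter (· < i), (s i / s j) := ⟨_, rfl⟩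
    have hV0 : 0 < V := by
      rw [hV]
      exact Finset.prod_pos fun i _ => Finset.prod_pos fun j _ => div_pos (hs0 i) (hs0 j)
    have hexp : ∀ r ∈ R, (∏ x : Ix n, max 1 (s x.1.1 * s x.1.2)) *
        (H * H ^ (n - (r : ℕ)) * (∏ j ∈ univ.filter (fun j => r ≤ j), (s r * s j)) *
          ∏ x ∈ (univ : Finset (Ix n)).filter (fun x => x.1.1 ≠ r),
            max 1 (s x.1.1 * s x.1.2)) ≤
        C₀ * (H : ℝ) ^ (n + 1) * V * √(max (s z) (1 / H)) := by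
      intro r hr
      obtain ⟨hr1, hr2, hr3⟩ := (hR r).1 hr
      have := hexpo H s r hH1 hs0 hmono (hprod.trans hK'L) hrev hr1 (by rw [← hz]; exact hr2) (by
        calc (1 : ℝ) ≤ (n : ℝ) ^ 2 * (K * H) * (s r * s r) := hr3
          _ = (n : ℝ) ^ 2 * K * (H * s r ^ 2) := by ring
          _ ≤ L ^ n * (H * s r ^ 2) := mul_le_mul_of_nonneg_right hnKL (by positivity)
          _ = _ := by ring)
      rw [← hz, ← hV] at this
      exact this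
    rw [← hV] at hcount
    have hsqrt : √(max (s z) (1 / (H : ℝ))) ≤ 2 * √(max ((2 : ℝ) ^ (τ z)) (1 / (H : ℝ))) := by
      have h1 : max (s z) (1 / (H : ℝ)) ≤ 2 ^ 2 * max ((2 : ℝ) ^ (τ z)) (1 / (H : ℝ)) := by
        have h2 : (2 : ℝ) ^ (τ z) ≤ max ((2 : ℝ) ^ (τ z)) (1 / (H : ℝ)) := le_max_left _ _
        have h3 : 1 / (H : ℝ) ≤ max ((2 : ℝ) ^ (τ z)) (1 / (H : ℝ)) := le_max_right _ _
        have h4 : 0 < 1 / (H : ℝ) := by positivity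
        rw [hsz]
        refine max_le ?_ ?_
        · linarith
        · linarith
      calc √(max (s z) (1 / (H : ℝ))) ≤ √(2 ^ 2 * max ((2 : ℝ) ^ (τ z)) (1 / (H : ℝ))) :=
            Real.sqrt_le_sqrt h1
        _ = 2 * √(max ((2 : ℝ) ^ (τ z)) (1 / (H : ℝ))) := by
            rw [Real.sqrt_mul (by norm_num), Real.sqrt_sq (by norm_num)]
    have hsum := Finset.sum_le_sum hexp
    rw [Finset.sum_const, nsmul_eq_mul] at hsum
    have hRc : (R.card : ℝ) ≤ n := by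
      have := Finset.card_le_univ R
      rw [Fintype.card_fin] at this
      exact_mod_cast this
    have h6 : (T.card : ℝ) * V ≤ (2 * D * n * C₀ * (H : ℝ) ^ (n + 1) *
        √(max ((2 : ℝ) ^ (τ z)) (1 / (H : ℝ)))) * V := by
      calc (T.card : ℝ) * V
          ≤ D * (R.card * (C₀ * (H : ℝ) ^ (n + 1) * V * √(max (s z) (1 / (H : ℝ))))) :=
            hcount.trans (mul_le_mul_of_nonneg_left hsum hD0.le)
        _ ≤ D * (n * (C₀ * (H : ℝ) ^ (n + 1) * V *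
              (2 * √(max ((2 : ℝ) ^ (τ z)) (1 / (H : ℝ)))))) := by
            refine mul_le_mul_of_nonneg_left ?_ hD0.le
            refine mul_le_mul hRc ?_ (by positivity) hn0.le
            exact mul_le_mul_of_nonneg_left hsqrt (by positivity)
        _ = _ := by ring
    have h7 := le_of_mul_le_mul_right h6 hV0
    refine h7.trans ?_
    refine mul_le_mul_of_nonneg_right (mul_le_mul_of_nonneg_right ?_ (by positivity))
      (Real.sqrt_nonneg _)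
    have : 0 < 2 * (K' ^ 2 * K) ^ (n - 1) := by positivity
    linarith

end Stoll308.OF
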