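import Pool.Agent.Work.MP_308fa9_nt.OF.Row
import Pool.Agent.Work.MP_308fa9_nt.OF.Arith
import Pool.Agent.Work.MP_308fa9_nt.BG.CuspCell

set_option autoImplicit false

/-!
Double counting in a cell, for the pairs with a given first nonzero diagonal entry of `B`.
-/

namespace Stoll308.OF

open Polynomial Finset Matrix BG

/-- The triples in the box of the scale `s`. -/
def Box {n : ℕ} (K : ℝ) (H : ℕ) (s : Fin n → ℝ) (a : Fin (n + 1) → ℤ)
    (A B : Matrix (Fin n) (Fin n) ℤ) : Prop :=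
  a 0 ≠ 0 ∧ |(a 0 : ℝ)| ≤ H ∧ (H : ℝ) ≤ K * sfp (a 0) ∧ Irreducible (FZ ℚ (mcf a)) ∧
    A.IsSymm ∧ B.IsSymm ∧ HasChar (mcf a) A B ∧
    (∀ i j, |(A i j : ℝ)| ≤ (n : ℝ) ^ 2 * (s i * s j)) ∧
    (∀ i j, |(B i j : ℝ)| ≤ (n : ℝ) ^ 2 * (K * H) * (s i * s j)) ∧
    ∀ p : ℕ, p.Prime → p ∣ sfp (a 0) → Rk1 p B

namespace Cnt

lemma rk1_congr {n : ℕ} {p : ℕ} {B : Matrix (Fin n) (Fin n) ℤ} (W : Matrix (Fin n) (Fin n) ℤ)
    (h : Rk1 p B) : Rk1 p (W * B * Wᵀ) := by
  obtain ⟨w, hw⟩ := h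
  refine ⟨fun i => ∑ k, W i k * w k, fun i j => ?_⟩
  have e : (W * B * Wᵀ) i j + (∑ k, W i k * w k) * (∑ k, W j k * w k) =
      ∑ l, ∑ k, W i k * (B k l + w k * w l) * W j l := by
    rw [mul_apply, sum_mul_sum, sum_comm, ← sum_add_distrib]
    refine sum_congr rfl fun l _ => ?_
    rw [mul_apply, transpose_apply, sum_mul, ← sum_add_distrib]
    refine sum_congr rfl fun k _ => ?_
    ring
  rw [e]
  exact dvd_sum fun l _ => dvd_sum fun k _ => ((hw k l).mul_left _).mul_right _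

lemma mcf_inj {n : ℕ} {a a' : Fin (n + 1) → ℤ} (h0 : a 0 = a' 0) (hne : a 0 ≠ 0)
    (h : mcf a = mcf a') : a = a' := by
  funext i
  refine Fin.cases h0 (fun j => ?_) i
  have h1 := congrFun h j
  simp only [mcf] at h1
  rw [← h0] at h1
  exact mul_left_cancel₀ (pow_ne_zero _ hne) h1

lemma box_of {n : ℕ} {K : ℝ} (hK : 0 ≤ K) {H : ℕ} {s : Fin n → ℝ} (hs0 : ∀ i, 0 < s i)
    {a : Fin (n + 1) → ℤ} (h0 : a 0 ≠ 0) (hH : |(a 0 : ℝ)| ≤ H)
    (hF : Irreducible (FZ ℚ (mcf a))) {A B : Matrix (Fin n) (Fin n) ℤ} {t : Fin n → ℝ}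
    (h : RPair K H a A B t) (ht : ∀ i, t i ≤ s i) {W : Matrix (Fin n) (Fin n) ℤ}
    (hW : Unip.LU W) (hWb : ∀ i j, |(W i j : ℝ)| ≤ s i / s j) :
    Box K H s a (W * A * Wᵀ) (W * B * Wᵀ) := by
  have hA : ∀ i j, |(A i j : ℝ)| ≤ 1 * (s i * s j) := fun i j => by
    rw [one_mul]
    exact (h.hA i j).trans (mul_le_mul (ht _) (ht _) (h.pos _).le (hs0 _).le)
  have hB : ∀ i j, |(B i j : ℝ)| ≤ K * H * (s i * s j) := fun i j => by
    refine (h.hB i j).trans (mul_le_mul_of_nonneg_left ?_ (by positivity))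
    exact mul_le_mul (ht _) (ht _) (h.pos _).le (hs0 _).le
  refine ⟨h0, hH, h.sq, hF, Unip.symm_congr h.symA, Unip.symm_congr h.symB,
    CuspCell.char_congr hW.det h.char, fun i j => ?_, fun i j => ?_, fun p hp hpq => ?_⟩
  · have := Unip.box_mul hs0 zero_le_one hWb hA i j
    rwa [mul_one] at this
  · exact Unip.box_mul hs0 (by positivity) hWb hB i j
  · exact rk1_congr W (h.rk1 p hp hpq)

end Cnt

open Cnt

/-- `T` is a set of polynomials with reduced pairs in the box of the scale `s`, and `R` is a set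
which contains the index of the first nonzero diagonal entry of `B` for all triples of the box. -/
theorem count {n : ℕ} (hn : 3 ≤ n) (K : ℝ) (hK : 1 ≤ K) (H : ℕ) (hH : 1 ≤ H) (s : Fin n → ℝ)
    (hs0 : ∀ i, 0 < s i) (hmono : ∀ i j, i ≤ j → s i ≤ s j) (R : Finset (Fin n))
    (hR : ∀ (a : Fin (n + 1) → ℤ) (A B : Matrix (Fin n) (Fin n) ℤ), Box K H s a A B →
      ∃ r ∈ R, (∀ i, i < r → B i i = 0) ∧ B r r ≠ 0)
    (T : Finset (Fin (n + 1) → ℤ))
    (hT : ∀ a ∈ T, a 0 ≠ 0 ∧ |(a 0 : ℝ)| ≤ H ∧ Irreducible (FZ ℚ (mcf a)) ∧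
      ∃ (A B : Matrix (Fin n) (Fin n) ℤ) (t : Fin n → ℝ), RPair K H a A B t ∧
        ∀ i, t i ≤ s i) :
    (T.card : ℝ) * ∏ i, ∏ j ∈ univ.filter (· < i), (s i / s j) ≤
      (3 * (n : ℝ) ^ 2 * K ^ 2) ^ (3 * Fintype.card (Ix n) + 4) *
      ∑ r ∈ R, (∏ x : Ix n, max 1 (s x.1.1 * s x.1.2)) *
        (H * H ^ (n - (r : ℕ)) * (∏ j ∈ univ.filter (fun j => r ≤ j), (s r * s j)) *
          ∏ x ∈ (univ : Finset (Ix n)).filter (fun x => x.1.1 ≠ r),
            max 1 (s x.1.1 * s x.1.2)) := by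
  classical
  have hK0 : 0 < K := by linarith
  have hHR : (1 : ℝ) ≤ H := by exact_mod_cast hH
  have hH0 : (0 : ℝ) < H := by linarith
  have hnR : (3 : ℝ) ≤ n := by exact_mod_cast hn
  have hn0 : (0 : ℝ) < n := by linarith
  choose! h0T hHT hFT A B t hRP htT using hT
  -- the map
  set D := (Unip.Wset s) ×ˢ T with hD
  set Φ : (Fin n → Fin n → ℤ) × (Fin (n + 1) → ℤ) →
      ℤ × Matrix (Fin n) (Fin n) ℤ × Matrix (Fin n) (Fin n) ℤ := fun x =>
    (x.2 0, (Matrix.of x.1) * A x.2 * (Matrix.of x.1)ᵀ, (Matrix.of x.1) * B x.2 * (Matrix.of x.1)ᵀ)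
    with hΦ
  have hinj : Set.InjOn Φ (D : Set ((Fin n → Fin n → ℤ) × (Fin (n + 1) → ℤ))) := by
    rintro ⟨W, a⟩ hx ⟨W', a'⟩ hx' he
    rw [mem_coe, hD, mem_product] at hx hx'
    obtain ⟨hW, ha⟩ := hx
    obtain ⟨hW', ha'⟩ := hx'
    simp only at ha ha'
    obtain ⟨hLU, -⟩ := Unip.mem_Wset (W := Matrix.of W) hs0 hW
    obtain ⟨hLU', -⟩ := Unip.mem_Wset (W := Matrix.of W') hs0 hW'
    simp only [hΦ, Prod.mk.injEq] at he
    obtain ⟨he0, h1, h2⟩ := he
    obtain ⟨U, hU, hUW⟩ := hLU'.inv_mul hLU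
    rw [← hUW] at h1 h2
    have hA := Unip.congr_cancel hLU' h1
    have hB := Unip.congr_cancel hLU' h2
    have hc := CuspCell.char_congr hU.det (hRP a ha).char
    rw [hA, hB] at hc
    have haa : a = a' := mcf_inj he0 (h0T a ha) (CuspCell.char_inj hc (hRP a' ha').char)
    subst haa
    have hU1 := stab (mcf a) (hFT a ha) _ _ U (hRP a ha).char hU.1 hU.2 hA hB
    rw [hU1, Matrix.mul_one] at hUW
    have : W' = W := hUW
    rw [this]
  set TT := D.image Φ with hTT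
  have hTTcard : ((Unip.Wset s).card : ℝ) * (T.card : ℝ) = (TT.card : ℝ) := by
    rw [hTT, card_image_of_injOn hinj, hD, card_product]
    push_cast
    rfl
  have hTTbox : ∀ z ∈ TT, ∃ a : Fin (n + 1) → ℤ, z.1 = a 0 ∧ Box K H s a z.2.1 z.2.2 := by
    intro z hz
    obtain ⟨⟨W, a⟩, hx, rfl⟩ := mem_image.1 hz
    rw [hD, mem_product] at hx
    obtain ⟨hW, ha⟩ := hx
    simp only at ha hW
    obtain ⟨hLU, hWb⟩ := Unip.mem_Wset (W := Matrix.of W) hs0 hW
    exact ⟨a, rfl, box_of hK0.le hs0 (h0T a ha) (hHT a ha) (hFT a ha) (hRP a ha) (htT a ha)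
      hLU hWb⟩
  -- products
  set PA : ℝ := ∏ x : Ix n, max 1 (s x.1.1 * s x.1.2) with hPA
  have hPA0 : 0 ≤ PA := prod_nonneg fun x _ => zero_le_one.trans (le_max_left _ _)
  set N := Fintype.card (Ix n) with hN
  set M : ℝ := 3 * (n : ℝ) ^ 2 * K ^ 2 with hM
  have hM4 : 4 ≤ M := by
    have h1 : (1 : ℝ) ≤ K ^ 2 := one_le_pow₀ hK
    have h2 : (9 : ℝ) ≤ (n : ℝ) ^ 2 := by nlinarith
    rw [hM]
    nlinarith
  have hM1 : 1 ≤ M := by linarith
  have hNn : n ≤ N := by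
    have := Fintype.card_le_of_injective (fun i : Fin n => (⟨(i, i), le_rfl⟩ : Ix n))
      (fun i j h => by simpa using h)
    rwa [Fintype.card_fin] at this
  have hK2 : K ≤ K ^ 2 := by nlinarith
  have hfacA : ∀ x : ℝ, 2 * ((n : ℝ) ^ 2 * x) + 1 ≤ M * max 1 x := by
    intro x
    have h1 : x ≤ max 1 x := le_max_right _ _
    have h2 : 1 ≤ max 1 x := le_max_left _ _
    have h3 : (1 : ℝ) ≤ K ^ 2 := one_le_pow₀ hK
    have h4 : (1 : ℝ) ≤ (n : ℝ) ^ 2 := by nlinarith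
    calc 2 * ((n : ℝ) ^ 2 * x) + 1 ≤ 2 * ((n : ℝ) ^ 2 * max 1 x) + (n : ℝ) ^ 2 * max 1 x := by
          have h5 : (n : ℝ) ^ 2 * x ≤ (n : ℝ) ^ 2 * max 1 x :=
            mul_le_mul_of_nonneg_left h1 (by positivity)
          have h6 : 1 ≤ (n : ℝ) ^ 2 * max 1 x := one_le_mul_of_one_le_of_one_le h4 h2
          linarith
      _ = 3 * (n : ℝ) ^ 2 * 1 * max 1 x := by ring
      _ ≤ 3 * (n : ℝ) ^ 2 * K ^ 2 * max 1 x := by
          refine mul_le_mul_of_nonneg_right ?_ (by linarith)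
          exact mul_le_mul_of_nonneg_left h3 (by positivity)
  -- one r
  have hr : ∀ r : Fin n, ((TT.filter fun z => (∀ i, i < r → z.2.2 i i = 0) ∧ z.2.2 r r ≠ 0).card : ℝ)
      ≤ M ^ (3 * N + 4) * (PA * (H * H ^ (n - (r : ℕ)) *
        (∏ j ∈ univ.filter (fun j => r ≤ j), (s r * s j)) *
          ∏ x ∈ (univ : Finset (Ix n)).filter (fun x => x.1.1 ≠ r),
            max 1 (s x.1.1 * s x.1.2))) := by
    intro r
    set TR := TT.filter fun z => (∀ i, i < r → z.2.2 i i = 0) ∧ z.2.2 r r ≠ 0 with hTR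
    set P1 : ℝ := ∏ j ∈ univ.filter (fun j => r ≤ j), (s r * s j) with hP1
    set P2 : ℝ := ∏ x ∈ (univ : Finset (Ix n)).filter (fun x => x.1.1 ≠ r),
            max 1 (s x.1.1 * s x.1.2) with hP2
    have hP10 : 0 ≤ P1 := prod_nonneg fun j _ => (mul_pos (hs0 _) (hs0 _)).le
    have hP20 : 0 ≤ P2 := prod_nonneg fun x _ => zero_le_one.trans (le_max_left _ _)
    set K0 := (Icc (-(H : ℤ)) H).filter (fun κ : ℤ => κ ≠ 0) with hK0def
    have hmaps : ∀ z ∈ TR, z.1 ∈ K0 := by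
      intro z hz
      obtain ⟨a, ha, hb⟩ := hTTbox z (mem_filter.1 hz).1
      rw [hK0def, mem_filter, ha, mem_Icc, ← abs_le]
      refine ⟨?_, hb.1⟩
      have h1 := hb.2.1
      have h2 : ((|a 0| : ℤ) : ℝ) ≤ ((H : ℤ) : ℝ) := by
        rw [Int.cast_abs]
        exact_mod_cast h1
      exact_mod_cast h2
    -- one κ
    have hκ : ∀ κ ∈ K0, ((TR.filter fun z => z.1 = κ).card : ℝ) ≤
        (∑ g ∈ (sfp κ).divisors, (1 / (g : ℝ))) *
          (M ^ N * PA * (M ^ N * H ^ (n - (r : ℕ)) * P1) * (M ^ N * P2)) := by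
      intro κ hκ
      have hsum0 : 0 ≤ ∑ g ∈ (sfp κ).divisors, (1 / (g : ℝ)) := sum_nonneg fun g _ => by positivity
      set F := TR.filter fun z => z.1 = κ with hF
      rcases F.eq_empty_or_nonempty with hemp | ⟨z₀, hz₀⟩
      · rw [hemp, card_empty, Nat.cast_zero]
        positivity
      have hFTT : ∀ z ∈ F, z ∈ TT := fun z hz => (mem_filter.1 (mem_filter.1 hz).1).1
      have hFκ : ∀ z ∈ F, z.1 = κ := fun z hz => (mem_filter.1 hz).2
      have hFbox : ∀ z ∈ F, ∃ a : Fin (n + 1) → ℤ, κ = a 0 ∧ Box K H s a z.2.1 z.2.2 := by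
        intro z hz
        obtain ⟨a, ha, hb⟩ := hTTbox z (hFTT z hz)
        exact ⟨a, (hFκ z hz).symm.trans ha, hb⟩
      have hq : (H : ℝ) ≤ K * sfp κ := by
        obtain ⟨a, ha, hb⟩ := hFbox z₀ hz₀
        rw [ha]
        exact hb.2.2.1
      have hq0 : (0 : ℝ) < sfp κ := by exact_mod_cast sfp_pos κ
      have hcard : F.card ≤ (F.image fun z => (fun x : Ix n => z.2.1 x.1.1 x.1.2)).card *
          (F.image fun z => z.2.2).card := by
        rw [← card_product]
        refine card_le_card_of_injOn (fun z => ((fun x : Ix n => z.2.1 x.1.1 x.1.2), z.2.2)) ?_ ?_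
        · intro z hz
          exact mem_coe.2 (mem_product.2 ⟨mem_image_of_mem _ hz, mem_image_of_mem _ hz⟩)
        · intro z hz z' hz' h
          simp only [Prod.mk.injEq] at h
          obtain ⟨a, ha, hb⟩ := hFbox z hz
          obtain ⟨a', ha', hb'⟩ := hFbox z' hz'
          have h1 : z.2.1 = z'.2.1 := Unip.symm_ext hb.2.2.2.2.1 hb'.2.2.2.2.1
            (fun x => congrFun h.1 x)
          have h2 : z.1 = z'.1 := (hFκ z hz).trans (hFκ z' hz').symm
          exact Prod.ext h2 (Prod.ext h1 h.2)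
      have hcA : ((F.image fun z => (fun x : Ix n => z.2.1 x.1.1 x.1.2)).card : ℝ) ≤ M ^ N * PA := by
        set Ya : Ix n → ℝ := fun x => (n : ℝ) ^ 2 * (s x.1.1 * s x.1.2) with hYa
        have hYa0 : ∀ x, 0 ≤ Ya x := fun x =>
          mul_nonneg (by positivity) (mul_pos (hs0 _) (hs0 _)).le
        have h1 : (F.image fun z => (fun x : Ix n => z.2.1 x.1.1 x.1.2)) ⊆ Unip.Bset Ya := by
          intro v hv
          obtain ⟨z, hz, rfl⟩ := mem_image.1 hv
          obtain ⟨a, ha, hb⟩ := hFbox z hz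
          exact Unip.mem_Bset fun x => hb.2.2.2.2.2.2.2.1 _ _
        have h2 : ((F.image fun z => (fun x : Ix n => z.2.1 x.1.1 x.1.2)).card : ℝ) ≤
            ((Unip.Bset Ya).card : ℝ) := by exact_mod_cast card_le_card h1
        refine h2.trans ((Unip.card_Bset hYa0).trans ?_)
        have h3 : ∏ x, (2 * Ya x + 1) ≤ ∏ x : Ix n, (M * max 1 (s x.1.1 * s x.1.2)) :=
          prod_le_prod (fun x _ => by have := hYa0 x; positivity) fun x _ => hfacA _
        refine h3.trans (le_of_eq ?_)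
        rw [prod_mul_distrib, prod_const, card_univ]
      have hcB : ((F.image fun z => z.2.2).card : ℝ) ≤ (∑ g ∈ (sfp κ).divisors, (1 / (g : ℝ))) *
          (M ^ N * H ^ (n - (r : ℕ)) * P1) * (M ^ N * P2) := by
        set Y : Fin n → Fin n → ℝ := fun i j => (n : ℝ) ^ 2 * (K * H) * (s i * s j) with hY
        have hY0 : ∀ i j, 0 ≤ Y i j := fun i j =>
          mul_nonneg (by positivity) (mul_pos (hs0 _) (hs0 _)).le
        have h1 := row_count r (sfp κ) (sfp_squarefree κ) Y hY0 (fun j hj => by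
            simp only [hY]
            refine mul_le_mul_of_nonneg_left ?_ (by positivity)
            exact mul_le_mul_of_nonneg_left (hmono r j hj) (hs0 _).le)
          (F.image fun z => z.2.2) (by
            intro B' hB'
            obtain ⟨z, hz, rfl⟩ := mem_image.1 hB'
            obtain ⟨a, ha, hb⟩ := hFbox z hz
            have h2 := (mem_filter.1 (mem_filter.1 hz).1).2
            refine ⟨hb.2.2.2.2.2.1, h2.1, h2.2, hb.2.2.2.2.2.2.2.2.1, ?_⟩
            rw [ha]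
            exact hb.2.2.2.2.2.2.2.2.2)
        refine h1.trans ?_
        have h2 : ∏ j ∈ univ.filter (fun j => r ≤ j), (3 * Y r j) ≤
            M ^ N * H ^ (n - (r : ℕ)) * P1 := by
          have e1 : ∀ j ∈ univ.filter (fun j => r ≤ j), 3 * Y r j =
              (3 * (n : ℝ) ^ 2 * K) * H * (s r * s j) := fun j _ => by
            simp only [hY]
            ring
          rw [prod_congr rfl e1, prod_mul_distrib, prod_mul_distrib, prod_const, prod_const, ← hP1]
          have hc : (univ.filter fun j : Fin n => r ≤ j).card = n - (r : ℕ) := by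
            have : (univ.filter fun j : Fin n => r ≤ j) = Finset.Ici r := by
              ext j
              simp
            rw [this, Fin.card_Ici]
          rw [hc]
          refine mul_le_mul_of_nonneg_right ?_ hP10
          refine mul_le_mul_of_nonneg_right ?_ (by positivity)
          calc (3 * (n : ℝ) ^ 2 * K) ^ (n - (r : ℕ)) ≤ M ^ (n - (r : ℕ)) := by
                refine pow_le_pow_left₀ (by positivity) ?_ _
                exact mul_le_mul_of_nonneg_left hK2 (by positivity)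
            _ ≤ M ^ N := pow_le_pow_right₀ hM1 (by omega)
        have h3 : ∏ x ∈ (univ : Finset (Ix n)).filter (fun x => x.1.1 ≠ r),
            (2 * Y x.1.1 x.1.2 / (sfp κ : ℝ) + 1) ≤ M ^ N * P2 := by
          have h4 : ∏ x ∈ (univ : Finset (Ix n)).filter (fun x => x.1.1 ≠ r),
            (2 * Y x.1.1 x.1.2 / (sfp κ : ℝ) + 1) ≤
            ∏ x ∈ (univ : Finset (Ix n)).filter (fun x => x.1.1 ≠ r),
              (M * max 1 (s x.1.1 * s x.1.2)) := by
            refine prod_le_prod (fun x _ => by have := hY0 x.1.1 x.1.2; positivity) fun x _ => ?_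
            have hss : 0 < s x.1.1 * s x.1.2 := mul_pos (hs0 _) (hs0 _)
            have h5 : (H : ℝ) / sfp κ ≤ K := by
              rw [div_le_iff₀ hq0]
              exact hq
            have h6 : 2 * Y x.1.1 x.1.2 / (sfp κ : ℝ) =
                2 * ((n : ℝ) ^ 2 * K * (s x.1.1 * s x.1.2)) * (H / sfp κ) := by
              simp only [hY]
              ring
            have h7 : 2 * Y x.1.1 x.1.2 / (sfp κ : ℝ) ≤
                2 * ((n : ℝ) ^ 2 * K * (s x.1.1 * s x.1.2)) * K := by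
              rw [h6]
              exact mul_le_mul_of_nonneg_left h5 (by positivity)
            have h8 : s x.1.1 * s x.1.2 ≤ max 1 (s x.1.1 * s x.1.2) := le_max_right _ _
            have h9 : 1 ≤ max 1 (s x.1.1 * s x.1.2) := le_max_left _ _
            have h10 : (1 : ℝ) ≤ (n : ℝ) ^ 2 * K ^ 2 := by
              have h3' : (1 : ℝ) ≤ K ^ 2 := one_le_pow₀ hK
              have h4' : (1 : ℝ) ≤ (n : ℝ) ^ 2 := by nlinarith
              exact one_le_mul_of_one_le_of_one_le h4' h3'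
            have h11 : (n : ℝ) ^ 2 * K ^ 2 * (s x.1.1 * s x.1.2) ≤
                (n : ℝ) ^ 2 * K ^ 2 * max 1 (s x.1.1 * s x.1.2) :=
              mul_le_mul_of_nonneg_left h8 (by positivity)
            have h12 : 1 ≤ (n : ℝ) ^ 2 * K ^ 2 * max 1 (s x.1.1 * s x.1.2) :=
              one_le_mul_of_one_le_of_one_le h10 h9
            calc 2 * Y x.1.1 x.1.2 / (sfp κ : ℝ) + 1
                ≤ 2 * ((n : ℝ) ^ 2 * K * (s x.1.1 * s x.1.2)) * K + 1 := by linarith
              _ = 2 * ((n : ℝ) ^ 2 * K ^ 2 * (s x.1.1 * s x.1.2)) + 1 := by ring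
              _ ≤ 2 * ((n : ℝ) ^ 2 * K ^ 2 * max 1 (s x.1.1 * s x.1.2)) +
                  (n : ℝ) ^ 2 * K ^ 2 * max 1 (s x.1.1 * s x.1.2) := by linarith
              _ = _ := by rw [hM]; ring
          refine h4.trans ?_
          rw [prod_mul_distrib, prod_const, ← hP2]
          refine mul_le_mul_of_nonneg_right ?_ hP20
          refine pow_le_pow_right₀ hM1 ?_
          rw [hN, ← card_univ]
          exact card_le_card (filter_subset _ _)
        have h5 : 0 ≤ ∏ j ∈ univ.filter (fun j => r ≤ j), (3 * Y r j) :=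
          prod_nonneg fun j _ => mul_nonneg (by norm_num) (hY0 _ _)
        refine mul_le_mul (mul_le_mul_of_nonneg_left h2 hsum0) h3
          (prod_nonneg fun x _ => ?_) (by positivity)
        have := hY0 x.1.1 x.1.2
        positivity
      calc (F.card : ℝ) ≤ ((F.image fun z => (fun x : Ix n => z.2.1 x.1.1 x.1.2)).card : ℝ) *
            ((F.image fun z => z.2.2).card : ℝ) := by exact_mod_cast hcard
        _ ≤ (M ^ N * PA) * ((∑ g ∈ (sfp κ).divisors, (1 / (g : ℝ))) *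
          (M ^ N * H ^ (n - (r : ℕ)) * P1) * (M ^ N * P2)) :=
            mul_le_mul hcA hcB (by positivity) (by positivity)
        _ = _ := by ring
    have hsplit : TR.card = ∑ κ ∈ K0, (TR.filter fun z => z.1 = κ).card :=
      card_eq_sum_card_fiberwise fun z hz => mem_coe.2 (hmaps z (mem_coe.1 hz))
    have hdiv := div_sum H
    rw [← hK0def] at hdiv
    have hQ0 : 0 ≤ M ^ N * PA * (M ^ N * H ^ (n - (r : ℕ)) * P1) * (M ^ N * P2) := by positivity
    calc (TR.card : ℝ) = ∑ κ ∈ K0, ((TR.filter fun z => z.1 = κ).card : ℝ) := by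
          rw [hsplit]; push_cast; rfl
      _ ≤ ∑ κ ∈ K0, (∑ g ∈ (sfp κ).divisors, (1 / (g : ℝ))) *
          (M ^ N * PA * (M ^ N * H ^ (n - (r : ℕ)) * P1) * (M ^ N * P2)) := sum_le_sum hκ
      _ = (∑ κ ∈ K0, ∑ g ∈ (sfp κ).divisors, (1 / (g : ℝ))) *
          (M ^ N * PA * (M ^ N * H ^ (n - (r : ℕ)) * P1) * (M ^ N * P2)) := by rw [sum_mul]
      _ ≤ (4 * H) * (M ^ N * PA * (M ^ N * H ^ (n - (r : ℕ)) * P1) * (M ^ N * P2)) :=
          mul_le_mul_of_nonneg_right hdiv hQ0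
      _ = (4 * M ^ (3 * N)) * (PA * (H * H ^ (n - (r : ℕ)) * P1 * P2)) := by
          rw [show 3 * N = N + N + N by ring, pow_add, pow_add]
          ring
      _ ≤ M ^ (3 * N + 4) * (PA * (H * H ^ (n - (r : ℕ)) * P1 * P2)) := by
          refine mul_le_mul_of_nonneg_right ?_ (by positivity)
          calc 4 * M ^ (3 * N) ≤ M * M ^ (3 * N) :=
                mul_le_mul_of_nonneg_right hM4 (by positivity)
            _ = M ^ (3 * N + 1) := by ring
            _ ≤ M ^ (3 * N + 4) := pow_le_pow_right₀ hM1 (by omega)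
  -- the union over r
  have hsub : TT ⊆ R.biUnion fun r =>
      TT.filter fun z => (∀ i, i < r → z.2.2 i i = 0) ∧ z.2.2 r r ≠ 0 := by
    intro z hz
    obtain ⟨a, _, hb⟩ := hTTbox z hz
    obtain ⟨r, hrR, h1⟩ := hR a _ _ hb
    exact mem_biUnion.2 ⟨r, hrR, mem_filter.2 ⟨hz, h1⟩⟩
  have h1 : (TT.card : ℝ) ≤ ∑ r ∈ R,
      ((TT.filter fun z => (∀ i, i < r → z.2.2 i i = 0) ∧ z.2.2 r r ≠ 0).card : ℝ) := by
    exact_mod_cast (card_le_card hsub).trans card_biUnion_le
  calc (T.card : ℝ) * ∏ i, ∏ j ∈ univ.filter (· < i), (s i / s j)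
      ≤ (T.card : ℝ) * ((Unip.Wset s).card : ℝ) :=
        mul_le_mul_of_nonneg_left (Unip.card_Wset hs0) (Nat.cast_nonneg _)
    _ = (TT.card : ℝ) := by rw [mul_comm, hTTcard]
    _ ≤ _ := h1
    _ ≤ _ := by
        rw [mul_sum]
        exact sum_le_sum fun r _ => hr r

end Stoll308.OF
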