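import Pool.Agent.Work.MP_308fa9_nt.OF.Basic
import Pool.Agent.Work.MP_308fa9_nt.OF.HankConv
import Pool.Agent.Work.MP_308fa9_nt.BF.LocLat

set_option autoImplicit false

/-!
The local lattice at a prime which divides the leading coefficient exactly once.
-/

namespace Stoll308.OF

open Polynomial Finset Matrix BG

namespace LocLat1

open BF BF.LocLat

section padic

variable {p : ℕ} [Fact p.Prime] {n : ℕ} {a : Fin (n + 1) → ℤ}

lemma Jk_add {k : ℕ} {μ ν : ℚ_[p][X]} (h : Jk a k μ) (h' : Jk a k ν) : Jk a k (μ + ν) := by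
  obtain ⟨N, P, Q, t, h1, h2, h3, h4⟩ := h
  obtain ⟨N', P', Q', t', h1', h2', h3', h4'⟩ := h'
  refine ⟨N + N', P + P', X ^ N' * Q + X ^ N * Q', X ^ N' * t + X ^ N * t', by omega, ?_, ?_, ?_⟩
  · refine (natDegree_add_le _ _).trans (max_le ?_ ?_)
    · exact (natDegree_mul_le_of_le (natDegree_X_pow_le _) h2).trans (by omega)
    · exact (natDegree_mul_le_of_le (natDegree_X_pow_le _) h2').trans (by omega)
  · rw [pow_add]
    linear_combination (X ^ N') * h3 + (X ^ N) * h3'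
  · rw [Polynomial.map_add, h4, h4']

lemma int_norm_le (z : ℤ) : ‖(z : ℚ_[p])‖ ≤ 1 := by
  have := Padic.norm_int_le_one (p := p) z
  exact this

lemma Jk_X_hor {i : ℕ} (hi : i + 1 < n) : Jk a 0 (X * hor n (GZ ℚ_[p] a) i) := by
  have h1 := hor_succ (R := ℚ_[p]) (n := n) (GZ ℚ_[p] a) (i := i) (by omega)
  have h2 : X * hor n (GZ ℚ_[p] a) i = hor n (GZ ℚ_[p] a) (i + 1) +
      C (-(GZ ℚ_[p] a).coeff (n - i - 1)) := by
    rw [h1, C_neg]
    ring
  rw [h2]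
  refine Jk_add (Jk_hor (by omega)) (Jk_C ?_)
  rw [norm_neg, ← GZ_map (algebraMap ℤ_[p] ℚ_[p]) a, coeff_map]
  exact PadicInt.norm_le_one _

/-- `X * bas l` for `l > e`. -/
lemma Jk_X_bas {e l : ℕ} (hl : l < n - 1) (he : e < l) (hle : 0 < e ∨ l + 1 < n) :
    Jk a e (X * bas n e (GZ ℚ_[p] a) l) := by
  unfold bas
  rw [if_neg (by omega)]
  have h1 : Jk a e (X ^ e : ℚ_[p][X]) := Jk_X_pow le_rfl
  have h2 : Jk a 0 (X * hor n (GZ ℚ_[p] a) (l - e)) := Jk_X_hor (by omega)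
  have h3 := h1.mul h2
  rw [add_zero] at h3
  have e1 : X * (X ^ e * hor n (GZ ℚ_[p] a) (l - e)) =
      X ^ e * (X * hor n (GZ ℚ_[p] a) (l - e)) := by ring
  rw [e1]
  exact h3

lemma core {e : ℕ} (hne : n = 2 * e + 3) (h0 : (a 0 : ℚ_[p]) ≠ 0) (hp : ‖(a 0 : ℚ_[p])‖ < 1)
    (ξ y : ℚ_[p]) (hy : y ≠ 0) (hf : (GZ ℚ_[p] a).eval ξ = y ^ 2) (hξ : ‖ξ‖ ≤ 1)
    (hy1 : ‖y‖ ≤ 1) :
    ∃ (G : Matrix (Fin n) (Fin n) ℚ_[p]) (w : Fin n → ℚ_[p]), G.det ≠ 0 ∧
      (∀ i j, ‖((a 0 : ℚ_[p])⁻¹ •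
        (G * Hank n (mon ℚ_[p] a) (C ξ - X) * Gᵀ)) i j‖ ≤ 1) ∧
      ‖((a 0 : ℚ_[p])⁻¹ •
        (G * Hank n (mon ℚ_[p] a) (C ξ - X) * Gᵀ)).det‖ = 1 ∧ (∀ i, ‖w i‖ ≤ 1) ∧
      ∀ i j, ‖(G * Hank n (mon ℚ_[p] a) (X * (C ξ - X)) * Gᵀ) i j + w i * w j‖ < 1 := by
  set f := GZ ℚ_[p] a with hfd
  have hfn : f.natDegree ≤ n := GZ_natDegree_le a
  have hft : f.coeff n = a 0 := GZ_coeff_top a
  set g := quo n f ξ n with hg
  have hgn : g.natDegree ≤ n - 1 := quo_natDegree hfn ξ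
  have hgm : (C ξ - X) * g = C (y ^ 2) - f := by
    have h := quo_mul hfn ξ n le_rfl
    rw [hor_n, hf] at h
    exact h
  set r : Fin n := ⟨n - 1, by omega⟩ with hr
  set U : ℚ_[p][X] := C y⁻¹ * g with hU
  have hUn : U.natDegree < n := lt_of_le_of_lt (natDegree_C_mul_le _ _) (by omega)
  set t : Fin n → ℚ_[p][X] := fun i => bas n e f i with ht
  have htn : ∀ i, (t i).natDegree < n := by
    intro i
    have hi := i.isLt
    refine lt_of_le_of_lt (natDegree_le_of_coeff (m := (i : ℕ)) fun j hj => ?_) hi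
    exact bas_coeff_gt hfn (by omega) hj
  have htJ : ∀ i, Jk a e (t i) := fun i => Jk_bas i.isLt
  have htX : ∀ i : Fin n, i ≠ r → e < (i : ℕ) → Jk a e (X * t i) := by
    intro i hi hei
    have h1 : (i : ℕ) ≠ n - 1 := fun h => hi (Fin.ext h)
    have h2 := i.isLt
    exact Jk_X_bas (by omega) hei (Or.inr (by omega))
  set b : Fin n → ℚ_[p][X] := Function.update t r U with hb
  have hbr : b r = U := by rw [hb, Function.update_self]
  have hbi : ∀ i, i ≠ r → b i = t i := fun i hi => by rw [hb, Function.update_of_ne hi]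
  have hbn : ∀ i, (b i).natDegree < n := by
    intro i
    rcases eq_or_ne i r with rfl | hi
    · rw [hbr]
      exact hUn
    · rw [hbi i hi]
      exact htn i
  obtain ⟨c, hc1, hc2⟩ := expand (show e < n by omega) hfn ξ y⁻¹ 0 (by simp)
  have hUc : U = ∑ k : Fin n, C (c k) * t k := by
    rw [hU, ← hc1, add_zero]
  have hdet : (mat b).det = y⁻¹ * (a 0 : ℚ_[p]) ^ (e + 2) := by
    rw [hb, hUc, det_rep t r c, det_bas (by omega) hfn, hft, hc2 r (by rw [hr]; simp; omega)]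
    have e1 : n - 1 - (r : ℕ) = 0 := by rw [hr]; simp
    have e2 : n - 1 - e = e + 2 := by omega
    rw [e1, e2, pow_zero, mul_one]
  have hdne : (mat b).det ≠ 0 := by
    rw [hdet]
    exact mul_ne_zero (inv_ne_zero hy) (pow_ne_zero _ h0)
  have hmm := mon_monic a h0
  have hmn := mon_natDegree a h0
  have ha0 : 0 < ‖(a 0 : ℚ_[p])‖ := norm_pos_iff.mpr h0
  have hy0 : 0 < ‖y‖ := norm_pos_iff.mpr hy
  -- entries
  have hA : ∀ k : ℕ, ∀ i j, (mat b * Hank n (mon ℚ_[p] a) (X ^ k * (C ξ - X)) * (mat b)ᵀ) i j =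
      (a 0 : ℚ_[p]) * tauf a (X ^ k * (C ξ - X) * b i * b j) := by
    intro k i j
    rw [BG.LocLat.gram, rowP_mat b i (hbn i), rowP_mat b j (hbn j)]
    unfold tauf
    rw [← mul_assoc, mul_inv_cancel₀ h0, one_mul]
  have hUm : ∀ k : ℕ, ∀ q : ℚ_[p][X], tauf a (X ^ k * (C ξ - X) * q * U) =
      y * tauf a (X ^ k * q) := by
    intro k q
    have e1 : X ^ k * (C ξ - X) * q * U = C y * (X ^ k * q) + f * (-(X ^ k * q * C y⁻¹)) := by
      have e2 : (C y⁻¹ * C (y ^ 2) : ℚ_[p][X]) = C y := by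
        rw [← C_mul]
        congr 1
        field_simp
      rw [hU]
      linear_combination (X ^ k * q * C y⁻¹) * hgm + (X ^ k * q) * e2
    rw [e1, tauf_add, tauf_mul a h0, add_zero, tauf_C_mul]
  have hUU : ∀ k ≤ 1, tauf a (X ^ k * (C ξ - X) * U * U) = ξ ^ k := by
    intro k hk
    rw [hUm]
    have e1 : X ^ k * U = C y⁻¹ * (X ^ k * g) := by
      rw [hU]
      ring
    rw [e1, tauf_C_mul, tauf_pow_quo a (by omega) h0 ξ (by omega), ← mul_assoc,
      mul_inv_cancel₀ hy, one_mul]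
  have hsw : ∀ k : ℕ, ∀ q q' : ℚ_[p][X], tauf a (X ^ k * (C ξ - X) * q * q') =
      tauf a (X ^ k * (C ξ - X) * q' * q) := by
    intro k q q'
    congr 1
    ring
  have hlin : Jk a 1 (C ξ - X : ℚ_[p][X]) := by
    have := Jk_lin (a := a) hξ (d := -1) (by rw [norm_neg, norm_one])
    have e1 : (C ξ - X : ℚ_[p][X]) = C ξ + C (-1) * X := by
      rw [C_neg, C_1]
      ring
    rw [e1]
    exact this
  refine ⟨mat b, fun i => if (i : ℕ) = e then 1 else 0, hdne, ?_, ?_, ?_, ?_⟩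
  · intro i j
    have h1 := hA 0 i j
    rw [pow_zero, one_mul] at h1
    rw [Matrix.smul_apply, h1, smul_eq_mul, ← mul_assoc, inv_mul_cancel₀ h0, one_mul]
    have hmix : ∀ q : ℚ_[p][X], Jk a e q → ‖tauf a ((C ξ - X) * q * U)‖ ≤ 1 := by
      intro q hq
      have h2 := hUm 0 q
      rw [pow_zero, one_mul, one_mul] at h2
      rw [h2, norm_mul]
      exact mul_le_one₀ hy1 (norm_nonneg _) (hq.le (by omega) h0)
    rcases eq_or_ne i r with rfl | hi
    · rcases eq_or_ne j r with rfl | hj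
      · rw [hbr]
        have h2 := hUU 0 (by norm_num)
        rw [pow_zero, one_mul, pow_zero] at h2
        rw [h2, norm_one]
      · rw [hbr, hbi j hj]
        have h2 := hsw 0 U (t j)
        rw [pow_zero, one_mul] at h2
        rw [h2]
        exact hmix _ (htJ j)
    · rcases eq_or_ne j r with rfl | hj
      · rw [hbr, hbi i hi]
        exact hmix _ (htJ i)
      · rw [hbi i hi, hbi j hj]
        exact (((hlin.mul (htJ i)).mul (htJ j))).le (by omega) h0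
  · rw [Matrix.det_smul, Fintype.card_fin, Matrix.det_mul, Matrix.det_mul, Matrix.det_transpose,
      hank_lin_det _ hmm hmn]
    have e1 : (mon ℚ_[p] a).eval ξ = (a 0 : ℚ_[p])⁻¹ * y ^ 2 := by
      unfold mon
      rw [eval_mul, eval_C, hf]
    rw [e1, hdet]
    simp only [norm_mul, norm_pow, norm_inv, norm_neg, norm_one, one_pow, one_mul]
    have e2 : ‖(a 0 : ℚ_[p])‖ ^ n * ‖(a 0 : ℚ_[p])‖ = ‖(a 0 : ℚ_[p])‖ ^ (e + 2) *
        ‖(a 0 : ℚ_[p])‖ ^ (e + 2) := by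
      rw [← pow_succ, ← pow_add]
      congr 1
      omega
    rw [inv_pow]
    field_simp
    linear_combination -e2
  · intro i
    beta_reduce
    split_ifs <;> simp
  · intro i j
    have h1 := hA 1 i j
    rw [pow_one] at h1
    rw [h1]
    beta_reduce
    have hsmall : ∀ z : ℚ_[p], ‖z‖ ≤ 1 → ‖(a 0 : ℚ_[p]) * z‖ < 1 := by
      intro z hz
      rw [norm_mul]
      exact lt_of_le_of_lt (mul_le_of_le_one_right (norm_nonneg _) hz) hp
    have hrn : (r : ℕ) ≠ e := by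
      rw [hr]
      simp
      omega
    have hmix : ∀ q : ℚ_[p][X], Jk a e q → ‖(a 0 : ℚ_[p]) * tauf a (X * (C ξ - X) * q * U)‖ < 1 := by
      intro q hq
      have h2 := hUm 1 q
      rw [pow_one] at h2
      rw [h2]
      apply hsmall
      rw [norm_mul]
      have h3 : Jk a (1 + e) (X * q) := by
        have h4 : Jk a 1 (X ^ 1 : ℚ_[p][X]) := Jk_X_pow le_rfl
        rw [pow_one] at h4
        exact h4.mul hq
      exact mul_le_one₀ hy1 (norm_nonneg _) (h3.le (by omega) h0)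
    rcases eq_or_ne i r with rfl | hi
    · rw [if_neg hrn, zero_mul, add_zero]
      rcases eq_or_ne j r with rfl | hj
      · rw [hbr]
        have h2 := hUU 1 le_rfl
        rw [pow_one, pow_one] at h2
        rw [h2]
        exact hsmall _ hξ
      · rw [hbr, hbi j hj]
        have h2 := hsw 1 U (t j)
        rw [pow_one] at h2
        rw [h2]
        exact hmix _ (htJ j)
    · rcases eq_or_ne j r with rfl | hj
      · rw [if_neg hrn, mul_zero, add_zero, hbr, hbi i hi]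
        exact hmix _ (htJ i)
      · rw [hbi i hi, hbi j hj]
        -- one index above `e`
        have hbig : ∀ i j : Fin n, i ≠ r → e < (i : ℕ) →
            ‖(a 0 : ℚ_[p]) * tauf a (X * (C ξ - X) * t i * t j)‖ < 1 := by
          intro i j hi hei
          apply hsmall
          have e1 : X * (C ξ - X) * t i * t j = (C ξ - X) * (X * t i) * t j := by ring
          rw [e1]
          exact (((hlin.mul (htX i hi hei)).mul (htJ j))).le (by omega) h0
        rcases lt_or_ge e (i : ℕ) with hei | hei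
        · rw [if_neg (by omega), zero_mul, add_zero]
          exact hbig i j hi hei
        · rcases lt_or_ge e (j : ℕ) with hej | hej
          · rw [if_neg (show ¬ ((j : ℕ) = e) by omega), mul_zero, add_zero]
            have h2 := hsw 1 (t i) (t j)
            rw [pow_one] at h2
            rw [h2]
            exact hbig j i hj hej
          · -- both indices at most `e`
            have e1 : t i = X ^ (i : ℕ) := by
              rw [ht]
              simp only [bas, if_pos hei]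
            have e2 : t j = X ^ (j : ℕ) := by
              rw [ht]
              simp only [bas, if_pos hej]
            have e3 : X * (C ξ - X) * t i * t j = C ξ * X ^ ((i : ℕ) + j + 1) -
                X ^ ((i : ℕ) + j + 2) := by
              rw [e1, e2]
              ring
            have e4 : (C ξ * X ^ ((i : ℕ) + j + 1) - X ^ ((i : ℕ) + j + 2) : ℚ_[p][X]).natDegree
                < n := by
              refine lt_of_le_of_lt (natDegree_sub_le _ _) (max_lt ?_ ?_)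
              · exact lt_of_le_of_lt (natDegree_C_mul_X_pow_le _ _) (by omega)
              · exact lt_of_le_of_lt (natDegree_X_pow_le _) (by omega)
            rw [e3, tauf_small a h0 e4, ← mul_assoc, mul_inv_cancel₀ h0, one_mul, coeff_sub,
              coeff_C_mul, coeff_X_pow, coeff_X_pow, if_neg (by omega), mul_zero, zero_sub]
            by_cases hij : n - 1 = (i : ℕ) + j + 2
            · rw [if_pos hij, if_pos (by omega), if_pos (by omega)]
              simp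
            · rw [if_neg hij]
              have h3 : ¬ ((i : ℕ) = e ∧ (j : ℕ) = e) := by omega
              by_cases h4 : (i : ℕ) = e
              · rw [if_neg (show ¬ ((j : ℕ) = e) by tauto)]
                simp
              · rw [if_neg h4]
                simp

lemma norm_sq_ne (z : ℚ_[p]) : ‖z ^ 2‖ ≠ (p : ℝ)⁻¹ := by
  intro h
  have hp1 : (1 : ℝ) < p := by exact_mod_cast (Fact.out : p.Prime).one_lt
  rcases eq_or_ne z 0 with rfl | hz
  · have h3 : (0 : ℝ) < (p : ℝ)⁻¹ := by positivity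
    rw [← h] at h3
    simp at h3
  · rw [norm_pow, Padic.norm_eq_zpow_neg_valuation hz, ← zpow_natCast, ← _root_.zpow_mul,
      ← _root_.zpow_neg_one] at h
    have h2 := zpow_right_injective₀ (by linarith : (0 : ℝ) < p) hp1.ne' h
    push_cast at h2
    omega

lemma x_int (h1 : (p : ℤ) ∣ a 0) (h2 : ¬ (p : ℤ) ^ 2 ∣ a 0) : ‖(a 0 : ℚ_[p])‖ = (p : ℝ)⁻¹ := by
  have hp1 : (1 : ℝ) < p := by exact_mod_cast (Fact.out : p.Prime).one_lt
  refine le_antisymm ?_ ?_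
  · have h3 := (Padic.norm_int_le_pow_iff_dvd (p := p) (a 0) 1).2 (by simpa using h1)
    simpa using h3
  · by_contra hc
    push Not at hc
    apply h2
    have h3 : ‖(a 0 : ℚ_[p])‖ ≤ (p : ℝ) ^ (-(2 : ℕ) : ℤ) := by
      rcases eq_or_ne ((a 0 : ℚ_[p])) 0 with h0 | h0
      · rw [h0, norm_zero]
        positivity
      · rw [Padic.norm_eq_zpow_neg_valuation h0] at hc ⊢
        rw [← _root_.zpow_neg_one] at hc
        have h4 := (zpow_lt_zpow_iff_right₀ hp1).1 hc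
        refine zpow_le_zpow_right₀ hp1.le ?_
        push_cast
        omega
    have h5 := (Padic.norm_int_le_pow_iff_dvd (p := p) (a 0) 2).1 h3
    exact_mod_cast h5

lemma x_le (hp : ‖(a 0 : ℚ_[p])‖ = (p : ℝ)⁻¹) {x y : ℚ_[p]}
    (hf : (GZ ℚ_[p] a).eval (x ^ 2) = y ^ 2) : ‖x‖ ≤ 1 := by
  have hp1 : (1 : ℝ) < p := by exact_mod_cast (Fact.out : p.Prime).one_lt
  by_contra hc
  push Not at hc
  have hx0 : x ≠ 0 := by
    rintro rfl
    norm_num at hc
  have hxp : (p : ℝ) ≤ ‖x‖ := by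
    rw [Padic.norm_eq_zpow_neg_valuation hx0] at hc ⊢
    have h1 : (p : ℝ) ^ (0 : ℤ) < (p : ℝ) ^ (-x.valuation) := by rwa [zpow_zero]
    have h2 := (zpow_lt_zpow_iff_right₀ hp1).1 h1
    have h3 : (p : ℝ) ^ (1 : ℤ) ≤ (p : ℝ) ^ (-x.valuation) := zpow_le_zpow_right₀ hp1.le (by omega)
    rwa [zpow_one] at h3
  have h1 : (GZ ℚ_[p] a).eval (x ^ 2) = ∑ i : Fin (n + 1), (a i : ℚ_[p]) * (x ^ 2) ^ (n - (i : ℕ)) := by
    simp [gpol, eval_finsetSum]
  have h2 : (y / x ^ n) ^ 2 = (a 0 : ℚ_[p]) + ∑ i : Fin n, (a i.succ : ℚ_[p]) *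
      (x⁻¹ ^ 2) ^ ((i : ℕ) + 1) := by
    rw [div_pow, ← hf, h1, Fin.sum_univ_succ, add_div, Finset.sum_div]
    congr 1
    · simp only [Fin.val_zero, Nat.sub_zero]
      rw [← pow_mul, ← pow_mul, mul_comm n 2, mul_div_assoc, div_self (pow_ne_zero _ hx0), mul_one]
    · refine Finset.sum_congr rfl fun i _ => ?_
      have hi := i.isLt
      rw [Fin.val_succ, mul_div_assoc]
      congr 1
      rw [div_eq_iff (pow_ne_zero _ (pow_ne_zero _ hx0))]
      have e1 : (x ^ n) ^ 2 = (x ^ 2) ^ ((i : ℕ) + 1) * (x ^ 2) ^ (n - ((i : ℕ) + 1)) := by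
        rw [← pow_add, ← pow_mul, ← pow_mul]
        congr 1
        omega
      have e2 : (x⁻¹ ^ 2) ^ ((i : ℕ) + 1) * (x ^ 2) ^ ((i : ℕ) + 1) = 1 := by
        rw [← mul_pow, ← mul_pow, inv_mul_cancel₀ hx0, one_pow, one_pow]
      rw [e1, ← mul_assoc, e2, one_mul]
  have hxi : ‖x⁻¹‖ ≤ (p : ℝ)⁻¹ := by
    rw [norm_inv]
    exact inv_anti₀ (by linarith) hxp
  have hpi : (p : ℝ)⁻¹ ≤ 1 := inv_le_one_of_one_le₀ hp1.le
  have hpi0 : (0 : ℝ) < (p : ℝ)⁻¹ := by positivity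
  have hpi1 : (p : ℝ)⁻¹ < 1 := inv_lt_one_of_one_lt₀ hp1
  have h3 : ‖∑ i : Fin n, (a i.succ : ℚ_[p]) * (x⁻¹ ^ 2) ^ ((i : ℕ) + 1)‖ ≤ (p : ℝ)⁻¹ ^ 2 := by
    refine IsUltrametricDist.norm_sum_le_of_forall_le_of_nonneg (by positivity) fun i _ => ?_
    rw [norm_mul, norm_pow, norm_pow]
    calc ‖(a i.succ : ℚ_[p])‖ * (‖x⁻¹‖ ^ 2) ^ ((i : ℕ) + 1) ≤ 1 * (‖x⁻¹‖ ^ 2) ^ 1 := by
          refine mul_le_mul (int_norm_le _) ?_ (by positivity) (by norm_num)
          refine pow_le_pow_of_le_one (by positivity) ?_ (by omega)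
          exact pow_le_one₀ (norm_nonneg _) (hxi.trans hpi)
      _ ≤ (p : ℝ)⁻¹ ^ 2 := by
          rw [one_mul, pow_one]
          exact pow_le_pow_left₀ (norm_nonneg _) hxi 2
  have h4 : ‖(y / x ^ n) ^ 2‖ = (p : ℝ)⁻¹ := by
    rw [h2, ← hp]
    have h5 : ‖∑ i : Fin n, (a i.succ : ℚ_[p]) * (x⁻¹ ^ 2) ^ ((i : ℕ) + 1)‖ <
        ‖(a 0 : ℚ_[p])‖ := by
      rw [hp]
      refine lt_of_le_of_lt h3 ?_
      rw [pow_two]
      exact mul_lt_of_lt_one_right hpi0 hpi1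
    rw [IsUltrametricDist.norm_add_eq_max_of_norm_ne_norm h5.ne', max_eq_left h5.le]
  exact norm_sq_ne _ h4

end padic

end LocLat1

theorem loc_lattice1 {n : ℕ} (hn : 3 ≤ n) (ho : Odd n) (a : Fin (n + 1) → ℤ) (δ : ℚ[X])
    (p : ℕ) [Fact p.Prime] (h1 : (p : ℤ) ∣ a 0) (h2 : ¬ (p : ℤ) ^ 2 ∣ a 0)
    (h : MLoc (a 0) (mcf a) δ ℚ_[p]) :
    ∃ (G : Matrix (Fin n) (Fin n) ℚ_[p]) (w : Fin n → ℚ_[p]), G.det ≠ 0 ∧
      (∀ i j, ‖(G * Hank n (FZ ℚ_[p] (mcf a)) (δ.map (algebraMap ℚ ℚ_[p])) * Gᵀ) i j‖ ≤ 1) ∧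
      ‖(G * Hank n (FZ ℚ_[p] (mcf a)) (δ.map (algebraMap ℚ ℚ_[p])) * Gᵀ).det‖ = 1 ∧
      (∀ i, ‖w i‖ ≤ 1) ∧
      ∀ i j, ‖(G * Hank n (FZ ℚ_[p] (mcf a)) (X * δ.map (algebraMap ℚ ℚ_[p])) * Gᵀ) i j +
        w i * w j‖ < 1 := by
  obtain ⟨x, y, s, hy, hxy, hs⟩ := h
  obtain ⟨e, hne⟩ : ∃ e, n = 2 * e + 3 := by
    obtain ⟨r, hr⟩ := ho
    exact ⟨r - 1, by omega⟩
  have hp1 : (1 : ℝ) < p := by exact_mod_cast (Fact.out : p.Prime).one_lt
  have hap := LocLat1.x_int h1 h2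
  have h0 : (a 0 : ℚ_[p]) ≠ 0 := by
    rw [← norm_pos_iff, hap]
    positivity
  have hlt : ‖(a 0 : ℚ_[p])‖ < 1 := by
    rw [hap]
    exact inv_lt_one_of_one_lt₀ hp1
  have hcomp := FZ_mcf_comp (K := ℚ_[p]) (by omega : 1 ≤ n) a h0
  -- the value of `f`
  have hev : (BF.GZ ℚ_[p] a).eval (x ^ 2) = y ^ 2 := by
    have e1 := congrArg (fun q : ℚ_[p][X] => q.eval (x ^ 2)) hcomp
    simp only [eval_comp, eval_mul, eval_C, eval_X] at e1
    rw [← hxy] at e1
    have e2 : (BF.mon ℚ_[p] a).eval (x ^ 2) = (a 0 : ℚ_[p])⁻¹ * (BF.GZ ℚ_[p] a).eval (x ^ 2) := by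
      unfold BF.mon
      rw [eval_mul, eval_C]
    rw [e2] at e1
    have e3 : (a 0 : ℚ_[p]) ^ n = (a 0 : ℚ_[p]) ^ (n - 1) * (a 0 : ℚ_[p]) := by
      rw [← pow_succ]
      congr 1
      omega
    rw [e3] at e1
    have e4 : (a 0 : ℚ_[p]) ^ (n - 1) ≠ 0 := pow_ne_zero _ h0
    apply mul_left_cancel₀ e4
    rw [e1]
    field_simp
  have hx := LocLat1.x_le hap hev
  have hx2 : ‖x ^ 2‖ ≤ 1 := by
    rw [norm_pow]
    exact pow_le_one₀ (norm_nonneg _) hx
  have hy1 : ‖y‖ ≤ 1 := by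
    have h := BF.LocLat.norm_eval_le (a := a) (x ^ 2) 1 le_rfl hx2
    rw [hev, norm_pow, one_pow] at h
    nlinarith [norm_nonneg y]
  obtain ⟨Gb, w, g1, g2, g3, g4, g5⟩ := LocLat1.core hne h0 hlt (x ^ 2) y hy hev hx2 hy1
  set F := FZ ℚ_[p] (mcf a) with hF
  have hFm : F.Monic := FZ_monic (mcf a)
  have hFn : F.natDegree = n := FZ_natDegree (mcf a)
  set d : ℚ_[p][X] := δ.map (algebraMap ℚ ℚ_[p]) with hd
  -- `s` is invertible modulo `F`
  have hsF : IsCoprime s F := by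
    have hF0 : F.eval (a 0 * x ^ 2) ≠ 0 := by
      rw [← hxy]
      exact mul_ne_zero (pow_ne_zero _ h0) (pow_ne_zero _ hy)
    obtain ⟨q, hq⟩ := X_sub_C_dvd_sub_C_eval (a := (a 0 : ℚ_[p]) * x ^ 2) (p := F)
    obtain ⟨t, ht⟩ := hs
    set ε := F.eval ((a 0 : ℚ_[p]) * x ^ 2) with hε
    have hee : (C ε⁻¹ : ℚ_[p][X]) * C ε = 1 := by
      rw [← C_mul, inv_mul_cancel₀ hF0, C_1]
    refine ⟨C ε⁻¹ * q * d * s, C ε⁻¹ * (1 + q * t), ?_⟩
    linear_combination (C ε⁻¹) * hq - C ε⁻¹ * q * ht + hee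
  have hsdet := mulMat_det_ne_zero (n := n) _ s hFm hFn hsF
  have key : ∀ k : ℕ, Hank n F (X ^ k * (C (a 0 * x ^ 2) - X)) =
      mulMat n F s * Hank n F (X ^ k * d) * (mulMat n F s)ᵀ := by
    intro k
    rw [← hank_mul_sq _ _ _ hFm hFn]
    refine hank_congr _ _ _ hFm ?_
    have e1 : X ^ k * (C (a 0 * x ^ 2) - X) - X ^ k * d * s ^ 2 =
        X ^ k * ((C (a 0 * x ^ 2) - X) - d * s ^ 2) := by ring
    rw [e1]
    exact hs.mul_left (X ^ k)
  set D : Matrix (Fin n) (Fin n) ℚ_[p] := Matrix.diagonal fun i => (a 0 : ℚ_[p]) ^ (i : ℕ) with hD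
  set D' : Matrix (Fin n) (Fin n) ℚ_[p] := Matrix.diagonal fun i => ((a 0 : ℚ_[p]) ^ (i : ℕ))⁻¹
    with hD'
  have hDD : D' * D = 1 := by
    rw [hD, hD', Matrix.diagonal_mul_diagonal, ← Matrix.diagonal_one]
    congr 1
    funext i
    exact inv_mul_cancel₀ (pow_ne_zero _ h0)
  have hDT : Dᵀ = D := Matrix.diagonal_transpose _
  have hDT' : D'ᵀ = D' := Matrix.diagonal_transpose _
  have conv : ∀ k : ℕ, Hank n F (X ^ k * (C (a 0 * x ^ 2) - X)) =
      (((a 0 : ℚ_[p]) ^ (n - 1))⁻¹ * (a 0 : ℚ_[p]) ^ (k + 1)) •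
        (D * Hank n (BF.mon ℚ_[p] a) (X ^ k * (C (x ^ 2) - X)) * D) := by
    intro k
    ext i j
    rw [hF, Hank_conv (by omega) a h0, Matrix.smul_apply, hD, Matrix.mul_diagonal,
      Matrix.diagonal_mul, smul_eq_mul]
    have e1 : (X ^ k * (C ((a 0 : ℚ_[p]) * x ^ 2) - X)).comp (C (a 0 : ℚ_[p]) * X) =
        (a 0 : ℚ_[p]) ^ (k + 1) • (X ^ k * (C (x ^ 2) - X)) := by
      rw [mul_comp, pow_comp, sub_comp, X_comp, C_comp, smul_eq_C_mul]
      simp only [C_mul, C_pow]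
      ring
    rw [e1]
    unfold Hank
    rw [smul_mul_assoc, smul_modByMonic, coeff_smul, smul_eq_mul, pow_add]
    ring
  have hfin : ∀ k : ℕ, (((a 0 : ℚ_[p]) ^ e) • (Gb * D' * mulMat n F s)) *
      Hank n F (X ^ k * d) * (((a 0 : ℚ_[p]) ^ e) • (Gb * D' * mulMat n F s))ᵀ =
      ((a 0 : ℚ_[p])⁻¹ * (a 0 : ℚ_[p]) ^ k) •
        (Gb * Hank n (BF.mon ℚ_[p] a) (X ^ k * (C (x ^ 2) - X)) * Gbᵀ) := by
    intro k
    have e1 : (Gb * D' * mulMat n F s) * Hank n F (X ^ k * d) * (Gb * D' * mulMat n F s)ᵀ =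
        Gb * D' * (mulMat n F s * Hank n F (X ^ k * d) * (mulMat n F s)ᵀ) * D' * Gbᵀ := by
      rw [Matrix.transpose_mul, Matrix.transpose_mul, hDT']
      simp only [Matrix.mul_assoc]
    have e2 : Gb * D' * (D * Hank n (BF.mon ℚ_[p] a) (X ^ k * (C (x ^ 2) - X)) * D) * D' * Gbᵀ =
        Gb * Hank n (BF.mon ℚ_[p] a) (X ^ k * (C (x ^ 2) - X)) * Gbᵀ := by
      have hDD2 : D * D' = 1 := by
        rw [hD, hD', Matrix.diagonal_mul_diagonal, ← Matrix.diagonal_one]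
        congr 1
        funext i
        exact mul_inv_cancel₀ (pow_ne_zero _ h0)
      calc Gb * D' * (D * Hank n (BF.mon ℚ_[p] a) (X ^ k * (C (x ^ 2) - X)) * D) * D' * Gbᵀ =
          Gb * (D' * D) * Hank n (BF.mon ℚ_[p] a) (X ^ k * (C (x ^ 2) - X)) * (D * D') * Gbᵀ := by
            simp only [Matrix.mul_assoc]
        _ = _ := by rw [hDD, hDD2, Matrix.mul_one, Matrix.mul_one]
    rw [Matrix.transpose_smul, Matrix.smul_mul, Matrix.smul_mul, Matrix.mul_smul, smul_smul, e1,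
      ← key k, conv k, Matrix.mul_smul, Matrix.smul_mul, Matrix.smul_mul, e2, smul_smul]
    congr 1
    have e3 : (a 0 : ℚ_[p]) ^ (n - 1) = (a 0 : ℚ_[p]) ^ e * (a 0 : ℚ_[p]) ^ e *
        (a 0 : ℚ_[p]) ^ 2 := by
      rw [← pow_add, ← pow_add]
      congr 1
      omega
    rw [e3]
    have e4 : (a 0 : ℚ_[p]) ^ e ≠ 0 := pow_ne_zero _ h0
    field_simp
    ring
  have f0 := hfin 0
  have f1 := hfin 1
  simp only [pow_zero, one_mul, mul_one] at f0
  simp only [pow_one, inv_mul_cancel₀ h0, one_smul] at f1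
  refine ⟨((a 0 : ℚ_[p]) ^ e) • (Gb * D' * mulMat n F s), w, ?_, ?_, ?_, g4, ?_⟩
  · rw [Matrix.det_smul, Matrix.det_mul, Matrix.det_mul]
    refine mul_ne_zero (pow_ne_zero _ (pow_ne_zero _ h0)) (mul_ne_zero (mul_ne_zero g1 ?_) hsdet)
    rw [hD', Matrix.det_diagonal]
    exact Finset.prod_ne_zero_iff.2 fun i _ => inv_ne_zero (pow_ne_zero _ h0)
  · rw [f0]
    exact g2
  · rw [f0]
    exact g3
  · rw [f1]
    exact g5

end Stoll308.OF
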