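import Pool.Agent.Work.MP_308fa9_nt.OF.Basic

set_option autoImplicit false

/-!
Counting the points of a box by their residue classes; the classes of the matrices `- w wᵀ`.
-/

namespace Stoll308.OF

open Finset Matrix BG

/-- Integers of absolute value at most `Y` in one class modulo `q`. -/
private lemma ap_card (q : ℕ) (hq : 0 < q) (Y : ℝ) (hY : 0 ≤ Y) (S : Finset ℤ)
    (hS : ∀ z ∈ S, |(z : ℝ)| ≤ Y) (hc : ∀ z ∈ S, ∀ z' ∈ S, (q : ℤ) ∣ z - z') :
    (S.card : ℝ) ≤ 2 * Y / q + 1 := by
  have hq' : (0 : ℝ) < q := by exact_mod_cast hq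
  rcases S.eq_empty_or_nonempty with rfl | hne
  · simp only [card_empty, Nat.cast_zero]
    positivity
  set m := S.min' hne with hm
  set M := S.max' hne with hM
  have hmM : m ≤ M := S.min'_le_max' hne
  have hsub : S ⊆ (range (((M - m) / q).toNat + 1)).image (fun k : ℕ => m + q * k) := by
    intro z hz
    obtain ⟨k, hk⟩ := hc z hz m (S.min'_mem hne)
    have h1 : m ≤ z := S.min'_le z hz
    have h2 : z ≤ M := S.le_max' z hz
    have hk0 : 0 ≤ k := by
      by_contra hneg
      push Not at hneg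
      have : (q : ℤ) * k < 0 := mul_neg_of_pos_of_neg (by exact_mod_cast hq) hneg
      omega
    have hk1 : k ≤ (M - m) / q := by
      rw [Int.le_ediv_iff_mul_le (by exact_mod_cast hq)]
      linarith
    rw [mem_image]
    refine ⟨k.toNat, ?_, ?_⟩
    · rw [mem_range]
      omega
    · rw [Int.toNat_of_nonneg hk0]
      linarith
  have h1 : S.card ≤ ((M - m) / q).toNat + 1 := by
    refine (card_le_card hsub).trans ?_
    refine card_image_le.trans ?_
    rw [card_range]
  have h2 : ((((M - m) / q).toNat : ℤ) : ℝ) ≤ 2 * Y / q := by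
    rw [Int.toNat_of_nonneg (Int.ediv_nonneg (by linarith) (by positivity))]
    rw [le_div_iff₀ hq']
    have h3 : (M - m) / q * q ≤ M - m := Int.ediv_mul_le _ (by positivity)
    have h4 : (((M - m) / q : ℤ) : ℝ) * q ≤ (M : ℝ) - m := by exact_mod_cast h3
    have h5 := abs_le.1 (hS M (S.max'_mem hne))
    have h6 := abs_le.1 (hS m (S.min'_mem hne))
    linarith
  have h3 : (S.card : ℝ) ≤ ((((M - m) / q).toNat : ℤ) : ℝ) + 1 := by exact_mod_cast h1
  linarith

/-- The number of points of a box is at most the number of residue classes modulo `q` times the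
number of points of the box in one class. -/
theorem box_mod {ι : Type*} [Fintype ι] [DecidableEq ι] (q : ℕ) (hq : 0 < q) (Y : ι → ℝ)
    (hY : ∀ i, 0 ≤ Y i) (T : Finset (ι → ℤ)) (hT : ∀ v ∈ T, ∀ i, |(v i : ℝ)| ≤ Y i) :
    (T.card : ℝ) ≤ ((T.image fun v i => ((v i : ℤ) : ZMod q)).card : ℝ) *
      ∏ i, (2 * Y i / q + 1) := by
  rw [card_eq_sum_card_image (fun (v : ι → ℤ) i => ((v i : ℤ) : ZMod q)) T, Nat.cast_sum]
  rw [← nsmul_eq_mul]
  apply sum_le_card_nsmul
  intro c _
  set F := T.filter (fun v => (fun i => ((v i : ℤ) : ZMod q)) = c) with hF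
  have hsub : F ⊆ Fintype.piFinset (fun i => F.image (fun v => v i)) := by
    intro v hv
    rw [Fintype.mem_piFinset]
    intro i
    exact mem_image_of_mem _ hv
  have h1 : F.card ≤ ∏ i, (F.image (fun v => v i)).card := by
    rw [← Fintype.card_piFinset]
    exact card_le_card hsub
  have h2 : (F.card : ℝ) ≤ ∏ i, ((F.image (fun v => v i)).card : ℝ) := by exact_mod_cast h1
  refine h2.trans (prod_le_prod (fun i _ => by positivity) fun i _ => ?_)
  apply ap_card q hq (Y i) (hY i)
  · intro z hz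
    obtain ⟨v, hv, rfl⟩ := mem_image.1 hz
    exact hT v (mem_filter.1 hv).1 i
  · intro z hz z' hz'
    obtain ⟨v, hv, rfl⟩ := mem_image.1 hz
    obtain ⟨v', hv', rfl⟩ := mem_image.1 hz'
    have e1 := congrFun (mem_filter.1 hv).2 i
    have e2 := congrFun (mem_filter.1 hv').2 i
    rw [← ZMod.intCast_zmod_eq_zero_iff_dvd, Int.cast_sub, e1, e2, sub_self]

/-- The residue class modulo `q` is determined by the classes modulo the primes. -/
theorem crt_card {ι : Type*} [Fintype ι] [DecidableEq ι] (q : ℕ) (hq : Squarefree q)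
    (T : Finset (ι → ℤ)) :
    (T.image fun v i => ((v i : ℤ) : ZMod q)).card ≤
      ∏ p ∈ q.primeFactors, (T.image fun v i => ((v i : ℤ) : ZMod p)).card := by
  classical
  have hcard := Finset.card_pi q.primeFactors
    (fun p => (T.image fun v i => ((v i : ℤ) : ZMod p) : Finset (ι → ZMod p)))
  rw [← hcard]
  have himg : (T.image fun v i => ((v i : ℤ) : ZMod q)).card ≤
      (T.image fun v => (fun p (_ : p ∈ q.primeFactors) i => ((v i : ℤ) : ZMod p))).card := by
    have hex : ∀ b ∈ (T.image fun v => (fun p (_ : p ∈ q.primeFactors) i => ((v i : ℤ) : ZMod p))),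
        ∃ v ∈ T, (fun p (_ : p ∈ q.primeFactors) i => ((v i : ℤ) : ZMod p)) = b := by
      intro b hb
      exact mem_image.1 hb
    choose! g hg1 hg2 using hex
    refine (card_le_card (t := (T.image fun v =>
      (fun p (_ : p ∈ q.primeFactors) i => ((v i : ℤ) : ZMod p))).image
        (fun b i => ((g b i : ℤ) : ZMod q))) ?_).trans card_image_le
    intro c hc
    obtain ⟨v, hv, rfl⟩ := mem_image.1 hc
    have hb := mem_image_of_mem
      (fun v => (fun p (_ : p ∈ q.primeFactors) i => ((v i : ℤ) : ZMod p))) hv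
    refine mem_image.2 ⟨_, hb, ?_⟩
    funext i
    have h2 := hg2 _ hb
    set v' := g (fun p (_ : p ∈ q.primeFactors) i => ((v i : ℤ) : ZMod p)) with hv'
    have h3 : (q : ℤ) ∣ v' i - v i := by
      rw [Int.natCast_dvd, ← Nat.prod_primeFactors_of_squarefree hq]
      apply Finset.prod_primes_dvd
      · intro p hp
        exact (Nat.prime_of_mem_primeFactors hp).prime
      · intro p hp
        rw [← Int.natCast_dvd, ← ZMod.intCast_zmod_eq_zero_iff_dvd, Int.cast_sub, sub_eq_zero]
        exact congrFun (congrFun (congrFun h2 p) hp) i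
    rw [← sub_eq_zero, ← Int.cast_sub, ZMod.intCast_zmod_eq_zero_iff_dvd]
    exact h3
  refine himg.trans (card_le_card ?_)
  intro b hb
  obtain ⟨v, hv, rfl⟩ := mem_image.1 hb
  rw [Finset.mem_pi]
  intro p hp
  exact mem_image_of_mem _ hv

/-- At most `p^k` classes of symmetric matrices `- w wᵀ`, `w ∈ F_p^k` (`J` is the set of the
indices which are used). -/
theorem rk1_card {n : ℕ} (p : ℕ) (hp : p.Prime) (J : Finset (Fin n))
    (T : Finset (Matrix (Fin n) (Fin n) ℤ)) (hT : ∀ B ∈ T, Rk1 p B) :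
    (T.image fun (B : Matrix (Fin n) (Fin n) ℤ) (x : J × J) =>
      ((B x.1 x.2 : ℤ) : ZMod p)).card ≤ p ^ J.card := by
  have : Fact p.Prime := ⟨hp⟩
  have hsub : (T.image fun (B : Matrix (Fin n) (Fin n) ℤ) (x : J × J) =>
      ((B x.1 x.2 : ℤ) : ZMod p)) ⊆
      (univ : Finset (J → ZMod p)).image (fun w (x : J × J) => -(w x.1 * w x.2)) := by
    intro c hc
    obtain ⟨B, hB, rfl⟩ := mem_image.1 hc
    obtain ⟨w, hw⟩ := hT B hB
    refine mem_image.2 ⟨fun i => ((w i : ℤ) : ZMod p), mem_univ _, ?_⟩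
    funext x
    have h := hw x.1 x.2
    rw [← ZMod.intCast_zmod_eq_zero_iff_dvd] at h
    push_cast at h
    linear_combination -h
  refine (card_le_card hsub).trans (card_image_le.trans (le_of_eq ?_))
  rw [card_univ, Fintype.card_fun, ZMod.card, Fintype.card_coe]

/-- At most `(p^n + 1) / 2` classes if `p` is odd. -/
theorem rk1_card_odd {n : ℕ} (p : ℕ) (hp : p.Prime) (h2 : p ≠ 2)
    (T : Finset (Matrix (Fin n) (Fin n) ℤ)) (hT : ∀ B ∈ T, Rk1 p B) :
    2 * (T.image fun (B : Matrix (Fin n) (Fin n) ℤ) (x : Ix n) =>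
      ((B x.1.1 x.1.2 : ℤ) : ZMod p)).card ≤ p ^ n + 1 := by
  have : Fact p.Prime := ⟨hp⟩
  set φ : (Fin n → ZMod p) → (Ix n → ZMod p) := fun w x => -(w x.1.1 * w x.1.2) with hφ
  have hsub : (T.image fun (B : Matrix (Fin n) (Fin n) ℤ) (x : Ix n) =>
      ((B x.1.1 x.1.2 : ℤ) : ZMod p)) ⊆ univ.image φ := by
    intro c hc
    obtain ⟨B, hB, rfl⟩ := mem_image.1 hc
    obtain ⟨w, hw⟩ := hT B hB
    refine mem_image.2 ⟨fun i => ((w i : ℤ) : ZMod p), mem_univ _, ?_⟩
    funext x
    have h := hw x.1.1 x.1.2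
    rw [← ZMod.intCast_zmod_eq_zero_iff_dvd] at h
    push_cast at h
    rw [hφ]
    linear_combination -h
  have h1 := card_le_card hsub
  set D := univ.image φ with hD
  have h0 : φ 0 ∈ D := mem_image_of_mem _ (mem_univ _)
  have hsum : (univ : Finset (Fin n → ZMod p)).card =
      ∑ b ∈ D, (univ.filter fun w => φ w = b).card :=
    card_eq_sum_card_image φ univ
  have hcard : (univ : Finset (Fin n → ZMod p)).card = p ^ n := by
    rw [card_univ, Fintype.card_fun, ZMod.card, Fintype.card_fin]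
  rw [hcard, ← add_sum_erase D _ h0] at hsum
  have hone : 1 ≤ (univ.filter fun w => φ w = φ 0).card :=
    card_pos.2 ⟨0, by simp⟩
  have htwo : ∀ b ∈ D.erase (φ 0), 2 ≤ (univ.filter fun w => φ w = b).card := by
    intro b hb
    obtain ⟨hb0, hbD⟩ := mem_erase.1 hb
    obtain ⟨w, _, rfl⟩ := mem_image.1 hbD
    have hw0 : w ≠ 0 := by
      rintro rfl
      exact hb0 rfl
    have hne : w ≠ -w := by
      intro hcon
      apply hw0
      funext i
      have h3 : w i = -w i := congrFun hcon i
      have h4 : (2 : ZMod p) * w i = 0 := by linear_combination h3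
      rcases mul_eq_zero.1 h4 with h5 | h5
      · exfalso
        have h6 : ((2 : ℕ) : ZMod p) = 0 := by exact_mod_cast h5
        rw [ZMod.natCast_eq_zero_iff] at h6
        exact h2 ((Nat.prime_dvd_prime_iff_eq hp Nat.prime_two).1 h6)
      · exact h5
    have hsub2 : ({w, -w} : Finset (Fin n → ZMod p)) ⊆ univ.filter fun w' => φ w' = φ w := by
      intro w' hw'
      rw [mem_insert, mem_singleton] at hw'
      rw [mem_filter]
      refine ⟨mem_univ _, ?_⟩
      rcases hw' with rfl | rfl
      · rfl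
      · funext x
        simp [hφ]
    calc 2 = ({w, -w} : Finset (Fin n → ZMod p)).card := (card_pair hne).symm
      _ ≤ _ := card_le_card hsub2
  have h5 : (D.erase (φ 0)).card * 2 ≤ ∑ b ∈ D.erase (φ 0), (univ.filter fun w => φ w = b).card := by
    rw [← smul_eq_mul]
    exact card_nsmul_le_sum _ _ _ htwo
  rw [card_erase_of_mem h0] at h5
  have h6 : 1 ≤ D.card := card_pos.2 ⟨_, h0⟩
  omega

end Stoll308.OF
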