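import Pool.Agent.Work.MP_308fa9_nt.OF.LocLat
import Pool.Agent.Work.MP_308fa9_nt.BG.PairEx

set_option autoImplicit false

/-!
The integral pair of a class which is everywhere locally the class of a point.
-/

namespace Stoll308.OF

open Polynomial Finset Matrix BG BG.PairEx

namespace PairEx

/-- `‖x‖ < 1` means `‖x‖ ≤ p⁻¹`. -/
lemma norm_lt_one_iff {p : ℕ} [Fact p.Prime] (x : ℚ_[p]) :
    ‖x‖ < 1 ↔ ‖x‖ ≤ (p : ℝ) ^ (-1 : ℤ) := by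
  have h := Padic.norm_le_pow_iff_norm_lt_pow_add_one x (-1)
  rw [show (-1 : ℤ) + 1 = 0 by norm_num, zpow_zero] at h
  exact h.symm

lemma norm_mul_lt_one_left {n : ℕ} {p : ℕ} [Fact p.Prime] {U V : Matrix (Fin n) (Fin n) ℚ_[p]}
    (hU : ∀ i j, ‖U i j‖ ≤ 1) (hV : ∀ i j, ‖V i j‖ < 1) (i j : Fin n) : ‖(U * V) i j‖ < 1 := by
  rw [norm_lt_one_iff, mul_apply]
  refine IsUltrametricDist.norm_sum_le_of_forall_le_of_nonneg (by positivity) fun k _ => ?_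
  rw [← norm_lt_one_iff, norm_mul]
  exact mul_lt_one_of_nonneg_of_lt_one_right (hU i k) (norm_nonneg _) (hV k j)

lemma norm_mul_lt_one_right {n : ℕ} {p : ℕ} [Fact p.Prime] {U V : Matrix (Fin n) (Fin n) ℚ_[p]}
    (hU : ∀ i j, ‖U i j‖ < 1) (hV : ∀ i j, ‖V i j‖ ≤ 1) (i j : Fin n) : ‖(U * V) i j‖ < 1 := by
  rw [norm_lt_one_iff, mul_apply]
  refine IsUltrametricDist.norm_sum_le_of_forall_le_of_nonneg (by positivity) fun k _ => ?_
  rw [← norm_lt_one_iff, norm_mul]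
  exact mul_lt_one_of_nonneg_of_lt_one_left (norm_nonneg _) (hU i k) (hV k j)

lemma norm_congr_lt_one {n : ℕ} {p : ℕ} [Fact p.Prime] {U V : Matrix (Fin n) (Fin n) ℚ_[p]}
    (hU : ∀ i j, ‖U i j‖ ≤ 1) (hV : ∀ i j, ‖V i j‖ < 1) (i j : Fin n) :
    ‖(U * V * Uᵀ) i j‖ < 1 :=
  norm_mul_lt_one_right (norm_mul_lt_one_left hU hV) (fun i j => hU j i) i j

/-- `U (B + w wᵀ) Uᵀ = U B Uᵀ + (U w) (U w)ᵀ` -/
lemma congr_vec {n : ℕ} {K : Type*} [CommRing K] (U B : Matrix (Fin n) (Fin n) K) (w : Fin n → K)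
    (i j : Fin n) : (U * (B + Matrix.of fun i j => w i * w j) * Uᵀ) i j =
      (U * B * Uᵀ) i j + (U *ᵥ w) i * (U *ᵥ w) j := by
  have h1 : (Matrix.of fun i j => w i * w j) = Matrix.vecMulVec w w := by
    ext i j
    rfl
  rw [Matrix.mul_add, Matrix.add_mul, Matrix.add_apply, h1, Matrix.mul_vecMulVec,
    Matrix.vecMulVec_mul, Matrix.vecMul_transpose, Matrix.vecMulVec_apply]

lemma norm_mulVec_le_one {n : ℕ} {p : ℕ} [Fact p.Prime] {U : Matrix (Fin n) (Fin n) ℚ_[p]}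
    {w : Fin n → ℚ_[p]} (hU : ∀ i j, ‖U i j‖ ≤ 1) (hw : ∀ i, ‖w i‖ ≤ 1) (i : Fin n) :
    ‖(U *ᵥ w) i‖ ≤ 1 := by
  unfold Matrix.mulVec dotProduct
  refine IsUltrametricDist.norm_sum_le_of_forall_le_of_nonneg zero_le_one fun k _ => ?_
  rw [norm_mul]
  exact mul_le_one₀ (hU i k) (norm_nonneg _) (hw k)

/-- approximation by integers modulo `p` -/
lemma exists_int {p : ℕ} [Fact p.Prime] (x : ℚ_[p]) (hx : ‖x‖ ≤ 1) :
    ∃ z : ℤ, ‖x - (z : ℚ_[p])‖ < 1 := by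
  obtain ⟨m, -, hm⟩ := PadicInt.exists_mem_range (⟨x, hx⟩ : ℤ_[p])
  rw [PadicInt.maximalIdeal_eq_span_p, Ideal.mem_span_singleton,
    ← PadicInt.norm_lt_one_iff_dvd, PadicInt.norm_def] at hm
  refine ⟨(m : ℤ), ?_⟩
  push_cast at hm ⊢
  exact hm

lemma norm_add_lt_one {p : ℕ} [Fact p.Prime] {x y : ℚ_[p]} (hx : ‖x‖ < 1) (hy : ‖y‖ < 1) :
    ‖x + y‖ < 1 := (Padic.nonarchimedean x y).trans_lt (max_lt hx hy)

end PairEx

open PairEx in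
theorem exists_pair {n : ℕ} (hn : 3 ≤ n) (ho : Odd n) (a : Fin (n + 1) → ℤ) (h0 : a 0 ≠ 0)
    (δ : ℚ[X]) (hδ : IsCoprime δ (FZ ℚ (mcf a)))
    (hloc : ∀ (p : ℕ) [Fact p.Prime], MLoc (a 0) (mcf a) δ ℚ_[p]) :
    ∃ A B : Matrix (Fin n) (Fin n) ℤ, IsPair (mcf a) δ A B ∧ A.det ∣ a 0 ^ (n - 1) ∧
      ∀ p : ℕ, p.Prime → p ∣ sfp (a 0) → ¬ (p : ℤ) ∣ A.det ∧ Rk1 p B := by
  obtain ⟨κ, hκdef⟩ : ∃ κ, κ = a 0 := ⟨_, rfl⟩
  obtain ⟨c, hcdef⟩ : ∃ c, c = mcf a := ⟨_, rfl⟩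
  have hl1 : ∀ (p : ℕ) [Fact p.Prime], p ∣ sfp κ → ∃ (g : Matrix (Fin n) (Fin n) ℚ_[p])
      (w : Fin n → ℚ_[p]), g.det ≠ 0 ∧
      (∀ i j, ‖(g * Hank n (FZ ℚ_[p] c) (δ.map (algebraMap ℚ ℚ_[p])) * gᵀ) i j‖ ≤ 1) ∧
      ‖(g * Hank n (FZ ℚ_[p] c) (δ.map (algebraMap ℚ ℚ_[p])) * gᵀ).det‖ = 1 ∧
      (∀ i, ‖w i‖ ≤ 1) ∧
      ∀ i j, ‖(g * Hank n (FZ ℚ_[p] c) (X * δ.map (algebraMap ℚ ℚ_[p])) * gᵀ) i j +
        w i * w j‖ < 1 := by
    intro p hp hps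
    rw [hκdef] at hps
    have h1 := (prime_dvd_sfp h0 hp.out).1 hps
    rw [hcdef]
    exact loc_lattice1 hn ho a δ p h1.1 h1.2 (hloc p)
  rw [← hcdef] at hδ hloc ⊢
  rw [← hκdef] at h0 hloc ⊢
  obtain ⟨H, hHdef⟩ : ∃ H, H = Hank n (FZ ℚ c) δ := ⟨_, rfl⟩
  obtain ⟨H1, hH1def⟩ : ∃ H, H = Hank n (FZ ℚ c) (X * δ) := ⟨_, rfl⟩
  have hH : H.det ≠ 0 := by
    rw [hHdef]
    exact hank_det_ne_zero _ _ (FZ_monic c) (FZ_natDegree c) hδ
  have hHp : ∀ (p : ℕ) [Fact p.Prime], H.map (algebraMap ℚ ℚ_[p]) =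
      Hank n (FZ ℚ_[p] c) (δ.map (algebraMap ℚ ℚ_[p])) := by
    intro p hp
    rw [hHdef, ← hank_map _ _ _ (FZ_monic c), FZ_map]
  have hH1p : ∀ (p : ℕ) [Fact p.Prime], H1.map (algebraMap ℚ ℚ_[p]) =
      Hank n (FZ ℚ_[p] c) (X * δ.map (algebraMap ℚ ℚ_[p])) := by
    intro p hp
    rw [hH1def, ← hank_map _ _ _ (FZ_monic c), FZ_map, Polynomial.map_mul, Polynomial.map_X]
  obtain ⟨S, hS⟩ := exists_finset κ H H1 hH
  have hl : ∀ (p : ℕ) [Fact p.Prime], ∃ (g : Matrix (Fin n) (Fin n) ℚ_[p])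
      (w : Fin n → ℚ_[p]), g.det ≠ 0 ∧
      (∀ i j, ‖(g * H.map (algebraMap ℚ ℚ_[p]) * gᵀ) i j‖ ≤ 1) ∧
      (∀ i j, ‖(g * H1.map (algebraMap ℚ ℚ_[p]) * gᵀ) i j‖ ≤ 1) ∧
      ‖((κ : ℚ_[p]) ^ (n - 1))‖ ≤ ‖(g * H.map (algebraMap ℚ ℚ_[p]) * gᵀ).det‖ ∧
      (∀ i, ‖w i‖ ≤ 1) ∧
      (p ∣ sfp κ → ‖(g * H.map (algebraMap ℚ ℚ_[p]) * gᵀ).det‖ = 1 ∧
        ∀ i j, ‖(g * H1.map (algebraMap ℚ ℚ_[p]) * gᵀ) i j + w i * w j‖ < 1) := by
    intro p hp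
    by_cases hps : p ∣ sfp κ
    · obtain ⟨g, w, h1, h2, h3, h4, h5⟩ := hl1 p hps
      rw [← hHp p] at h2 h3
      rw [← hH1p p] at h5
      refine ⟨g, w, h1, h2, ?_, ?_, h4, fun _ => ⟨h3, h5⟩⟩
      · intro i j
        have e : (g * H1.map (algebraMap ℚ ℚ_[p]) * gᵀ) i j =
            ((g * H1.map (algebraMap ℚ ℚ_[p]) * gᵀ) i j + w i * w j) + -(w i * w j) := by ring
        rw [e]
        refine (Padic.nonarchimedean _ _).trans (max_le (h5 i j).le ?_)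
        rw [norm_neg, norm_mul]
        exact mul_le_one₀ (h4 i) (norm_nonneg _) (h4 j)
      · rw [h3, norm_pow]
        exact pow_le_one₀ (norm_nonneg _) (Padic.norm_int_le_one κ)
    · obtain ⟨g, h1, h2, h3, h4⟩ := loc_lattice (by omega : 2 ≤ n) κ h0 c δ p (hloc p)
      rw [← hHp p] at h2 h4
      rw [← hH1p p] at h3
      exact ⟨g, fun _ => 0, h1, h2, h3, h4, fun i => by simp, fun h => absurd h hps⟩
  choose g w hg1 hg2 hg3 hg4 hg5 hg6 using hl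
  obtain ⟨G, hG, hGS, hGN⟩ := glue (S ∪ (sfp κ).primeFactors) (fun p _ => g p)
    (fun p _ _ => hg1 p)
  -- the transformed matrices at each prime
  have key : ∀ (p : ℕ) [Fact p.Prime],
      (∀ i j, ‖((G * H * Gᵀ).map (algebraMap ℚ ℚ_[p])) i j‖ ≤ 1) ∧
      (∀ i j, ‖((G * H1 * Gᵀ).map (algebraMap ℚ ℚ_[p])) i j‖ ≤ 1) ∧
      ‖((κ : ℚ_[p]) ^ (n - 1))‖ ≤ ‖((G * H * Gᵀ).map (algebraMap ℚ ℚ_[p])).det‖ ∧
      (p ∣ sfp κ → ‖((G * H * Gᵀ).map (algebraMap ℚ ℚ_[p])).det‖ = 1 ∧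
        ∃ v : Fin n → ℚ_[p], (∀ i, ‖v i‖ ≤ 1) ∧
          ∀ i j, ‖((G * H1 * Gᵀ).map (algebraMap ℚ ℚ_[p])) i j + v i * v j‖ < 1) := by
    intro p hp
    have hm : ∀ H : Matrix (Fin n) (Fin n) ℚ, (G * H * Gᵀ).map (algebraMap ℚ ℚ_[p]) =
        G.map (algebraMap ℚ ℚ_[p]) * H.map (algebraMap ℚ ℚ_[p]) *
          (G.map (algebraMap ℚ ℚ_[p]))ᵀ := by
      intro H
      rw [Matrix.map_mul, Matrix.map_mul, Matrix.transpose_map]
    rw [hm, hm]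
    by_cases hpS : p ∈ S ∪ (sfp κ).primeFactors
    · obtain ⟨hU1, hU2⟩ := hGS p hpS
      obtain ⟨U, hU⟩ : ∃ U, U = G.map (algebraMap ℚ ℚ_[p]) * (g p)⁻¹ := ⟨_, rfl⟩
      rw [← hU] at hU1 hU2
      have hUg : G.map (algebraMap ℚ ℚ_[p]) = U * g p := by
        rw [hU, Matrix.mul_assoc, nonsing_inv_mul _ (isUnit_iff_ne_zero.2 (hg1 p)),
          Matrix.mul_one]
      have he : ∀ V : Matrix (Fin n) (Fin n) ℚ_[p], (U * g p) * V * (U * g p)ᵀ =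
          U * (g p * V * (g p)ᵀ) * Uᵀ := by
        intro V
        rw [transpose_mul]
        simp only [Matrix.mul_assoc]
      rw [hUg, he, he]
      refine ⟨norm_congr_le_one hU1 (hg2 p), norm_congr_le_one hU1 (hg3 p), by
        rw [norm_congr_det hU2]; exact hg4 p, ?_⟩
      intro hps
      obtain ⟨h1, h2⟩ := hg6 p hps
      refine ⟨by rw [norm_congr_det hU2]; exact h1, U *ᵥ (w p),
        norm_mulVec_le_one hU1 (hg5 p), ?_⟩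
      intro i j
      rw [← congr_vec]
      exact norm_congr_lt_one hU1 (fun i j => h2 i j) i j
    · obtain ⟨hU1, hU2⟩ := hGN p hpS
      rw [mem_union, not_or] at hpS
      obtain ⟨h1, h2, h3⟩ := hS p hpS.1
      refine ⟨norm_congr_le_one hU1 h1, norm_congr_le_one hU1 h2, by
        rw [norm_congr_det hU2]; exact h3, ?_⟩
      intro hps
      exact absurd (Nat.mem_primeFactors.2 ⟨hp.out, hps, (sfp_pos κ).ne'⟩) hpS.2
  have hA : ∀ i j, ∃ z : ℤ, (z : ℚ) = (G * H * Gᵀ) i j := fun i j =>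
    int_of_norm_le_one _ fun p _ => (key p).1 i j
  have hB : ∀ i j, ∃ z : ℤ, (z : ℚ) = (G * H1 * Gᵀ) i j := fun i j =>
    int_of_norm_le_one _ fun p _ => (key p).2.1 i j
  choose A hA using hA
  choose B hB using hB
  have hAm : (Matrix.of A).map (Int.cast : ℤ → ℚ) = G * H * Gᵀ := by
    ext i j; exact hA i j
  have hBm : (Matrix.of B).map (Int.cast : ℤ → ℚ) = G * H1 * Gᵀ := by
    ext i j; exact hB i j
  have hdet : (((Matrix.of A).det : ℤ) : ℚ) = (G * H * Gᵀ).det := by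
    rw [← hAm]
    exact (Int.castRingHom ℚ).map_det (Matrix.of A)
  have hdet0 : (((Matrix.of A).det : ℤ) : ℚ) ≠ 0 := by
    rw [hdet, det_mul, det_mul, det_transpose]
    exact mul_ne_zero (mul_ne_zero hG hH) hG
  have hdetp : ∀ (p : ℕ) [Fact p.Prime], ((G * H * Gᵀ).map (algebraMap ℚ ℚ_[p])).det =
      algebraMap ℚ ℚ_[p] (((Matrix.of A).det : ℤ) : ℚ) := by
    intro p hp
    rw [hdet, ← RingHom.mapMatrix_apply, ← RingHom.map_det]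
  refine ⟨Matrix.of A, Matrix.of B, ⟨G, hG, by rw [hAm, hHdef], by rw [hBm, hH1def]⟩, ?_, ?_⟩
  · obtain ⟨z, hz⟩ := int_of_norm_le_one ((κ : ℚ) ^ (n - 1) / ((Matrix.of A).det : ℤ)) (by
      intro p hp
      have h := (key p).2.2.1
      rw [hdetp p] at h
      rw [map_div₀, norm_div, div_le_one (norm_pos_iff.2 (by
        rw [Ne, map_eq_zero]; exact hdet0)), map_pow, map_intCast]
      exact h)
    refine ⟨z, ?_⟩
    rw [eq_div_iff hdet0] at hz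
    have : ((κ ^ (n - 1) : ℤ) : ℚ) = (((Matrix.of A).det * z : ℤ) : ℚ) := by
      rw [Int.cast_pow, Int.cast_mul, ← hz, mul_comm]
    exact Int.cast_injective this
  · intro p hp hps
    have : Fact p.Prime := ⟨hp⟩
    obtain ⟨h1, v, hv, h2⟩ := (key p).2.2.2 hps
    constructor
    · intro hd
      rw [hdetp p, eq_ratCast, Rat.cast_intCast] at h1
      have := Padic.norm_intCast_lt_one_iff.2 hd
      linarith
    · have hz : ∀ i, ∃ z : ℤ, ‖v i - (z : ℚ_[p])‖ < 1 := fun i => exists_int (v i) (hv i)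
      choose z hz using hz
      have hz1 : ∀ i, ‖(z i : ℚ_[p])‖ ≤ 1 := fun i => Padic.norm_int_le_one _
      refine ⟨z, fun i j => ?_⟩
      rw [← Padic.norm_intCast_lt_one_iff (p := p)]
      have e1 : (((Matrix.of B i j + z i * z j : ℤ)) : ℚ_[p]) =
          (((G * H1 * Gᵀ).map (algebraMap ℚ ℚ_[p])) i j + v i * v j) +
            (-((v i - z i) * v j) + -(z i * (v j - z j))) := by
        rw [map_apply, ← hB i j, eq_ratCast, Rat.cast_intCast, Matrix.of_apply]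
        push_cast
        ring
      rw [e1]
      refine norm_add_lt_one (h2 i j) (norm_add_lt_one ?_ ?_)
      · rw [norm_neg, norm_mul]
        exact mul_lt_one_of_nonneg_of_lt_one_left (norm_nonneg _) (hz i) (hv j)
      · rw [norm_neg, norm_mul]
        exact mul_lt_one_of_nonneg_of_lt_one_right (hz1 i) (norm_nonneg _) (hz j)

end Stoll308.OF
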