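import Pool.Agent.Work.MP_308fa9_nt.OF.PairEx
import Pool.Agent.Work.MP_308fa9_nt.BG.Rep
import Pool.Agent.Work.MP_308fa9_nt.BG.Transfer

set_option autoImplicit false

/-!
A class which is locally everywhere the class of a point is the class of a reduced pair.
-/

namespace Stoll308.OF

open Polynomial Finset Matrix BG

lemma sum_half (n : ℕ) : ∑ i ∈ range n, (1 / 2 : ℝ) ^ (i + 1) = 1 - (1 / 2) ^ n := by
  induction n with
  | zero => simp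
  | succ n ih =>
    rw [sum_range_succ, ih]
    ring

/-- The roots `a₀ θ` are at most `2 H`. -/
lemma root_le {n : ℕ} (a : Fin (n + 1) → ℤ) (H : ℝ) (hH : 1 ≤ H) (ha : ∀ i, |(a i : ℝ)| ≤ H)
    (θ : ℂ) (hθ : (FZ ℂ (mcf a)).eval θ = 0) : ‖θ‖ ≤ 2 * H := by
  by_contra hcon
  push Not at hcon
  have hr0 : 0 < ‖θ‖ := by linarith
  rw [Transfer.eval_fpol] at hθ
  have h1 : θ ^ n = -∑ i : Fin n, (mcf a i : ℂ) * θ ^ (n - 1 - (i : ℕ)) := by
    linear_combination hθ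
  have h2 : ∀ i : Fin n, ‖(mcf a i : ℂ) * θ ^ (n - 1 - (i : ℕ))‖ ≤
      ‖θ‖ ^ n * (1 / 2) ^ ((i : ℕ) + 1) := by
    intro i
    have h3 : ‖((mcf a i : ℤ) : ℂ)‖ ≤ H ^ ((i : ℕ) + 1) := by
      have e : ‖((mcf a i : ℤ) : ℂ)‖ = |(a 0 : ℝ)| ^ (i : ℕ) * |(a i.succ : ℝ)| := by
        rw [Complex.norm_intCast]
        unfold mcf
        push_cast
        rw [abs_mul, abs_pow]
      rw [e, pow_succ]
      exact mul_le_mul (pow_le_pow_left₀ (abs_nonneg _) (ha 0) _) (ha _) (abs_nonneg _)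
        (by positivity)
    have h4 : H ^ ((i : ℕ) + 1) ≤ ‖θ‖ ^ ((i : ℕ) + 1) * (1 / 2) ^ ((i : ℕ) + 1) := by
      rw [← mul_pow]
      exact pow_le_pow_left₀ (by linarith) (by linarith) _
    rw [norm_mul, norm_pow]
    calc ‖((mcf a i : ℤ) : ℂ)‖ * ‖θ‖ ^ (n - 1 - (i : ℕ))
        ≤ ‖θ‖ ^ ((i : ℕ) + 1) * (1 / 2) ^ ((i : ℕ) + 1) * ‖θ‖ ^ (n - 1 - (i : ℕ)) :=
          mul_le_mul_of_nonneg_right (h3.trans h4) (by positivity)
      _ = ‖θ‖ ^ ((i : ℕ) + 1) * ‖θ‖ ^ (n - 1 - (i : ℕ)) * (1 / 2) ^ ((i : ℕ) + 1) := by ring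
      _ = ‖θ‖ ^ n * (1 / 2) ^ ((i : ℕ) + 1) := by
          rw [← pow_add]
          congr 2
          omega
  have h5 : ‖θ‖ ^ n ≤ ‖θ‖ ^ n * ∑ i : Fin n, (1 / 2 : ℝ) ^ ((i : ℕ) + 1) := by
    rw [← norm_pow, h1, norm_neg]
    refine (norm_sum_le _ _).trans ?_
    rw [← norm_neg, ← h1, norm_pow, mul_sum]
    exact sum_le_sum fun i _ => h2 i
  have h6 : ∑ i : Fin n, (1 / 2 : ℝ) ^ ((i : ℕ) + 1) = 1 - (1 / 2) ^ n := by
    rw [Fin.sum_univ_eq_sum_range (fun i => (1 / 2 : ℝ) ^ (i + 1)) n]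
    exact sum_half n
  rw [h6] at h5
  have h7 : (0 : ℝ) < ‖θ‖ ^ n * (1 / 2) ^ n := by positivity
  linarith

lemma Rk1.conj {n : ℕ} {p : ℕ} {B : Matrix (Fin n) (Fin n) ℤ} (h : Rk1 p B)
    (U : Matrix (Fin n) (Fin n) ℤ) : Rk1 p (U * B * Uᵀ) := by
  obtain ⟨w, hw⟩ := h
  refine ⟨U *ᵥ w, fun i j => ?_⟩
  have e : (U * B * Uᵀ) i j + (U *ᵥ w) i * (U *ᵥ w) j =
      ∑ l, ∑ k, U i k * (B k l + w k * w l) * U j l := by
    rw [mul_apply, mulVec, mulVec, dotProduct, dotProduct, sum_mul_sum, sum_comm (γ := Fin n),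
      ← sum_add_distrib]
    refine sum_congr rfl fun l _ => ?_
    rw [mul_apply, transpose_apply, sum_mul, ← sum_add_distrib]
    refine sum_congr rfl fun k _ => ?_
    ring
  rw [e]
  exact dvd_sum fun l _ => dvd_sum fun k _ => ((hw k l).mul_left _).mul_right _

theorem red_of_mloc {n : ℕ} (hn : 3 ≤ n) (ho : Odd n) (η S : ℝ) (hη : 0 < η) (hS : 1 ≤ S) :
    ∃ K : ℝ, 1 ≤ K ∧ ∀ (a : Fin (n + 1) → ℤ) (H : ℝ), 1 ≤ H → a 0 ≠ 0 →
      η * H ≤ |(a 0 : ℝ)| → |(a 0 : ℝ)| ≤ S * sfp (a 0) → (∀ i, |(a i : ℝ)| ≤ H) →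
      Irreducible (FZ ℚ (mcf a)) → ∀ δ : ℚ[X], IsCoprime δ (FZ ℚ (mcf a)) →
      (∀ (p : ℕ) [Fact p.Prime], MLoc (a 0) (mcf a) δ ℚ_[p]) →
      ∃ (A B : Matrix (Fin n) (Fin n) ℤ) (t : Fin n → ℝ), RPair K H a A B t := by
  obtain ⟨K₀, hK₀, hred⟩ := red_basis n
  have hS0 : 0 < S := by linarith
  have hSn : 1 ≤ S ^ (n - 1) := one_le_pow₀ hS
  have hKS : 1 ≤ K₀ * S ^ (n - 1) := one_le_mul_of_one_le_of_one_le hK₀ hSn
  have hSη : 0 < S / η := by positivity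
  refine ⟨K₀ * S ^ (n - 1) + 2 + S / η, by linarith, ?_⟩
  intro a H hH h0 hη' hS' ha hF δ hδ hloc
  obtain ⟨A₀, B₀, hpair, hdet, hsf⟩ := exists_pair hn ho a h0 δ hδ hloc
  have hroot := root_le a H hH ha
  obtain ⟨P, hP, hPdet, hPA, hPB⟩ := majorant (by omega) (mcf a) hF δ hδ A₀ B₀ hpair (2 * H) hroot
  obtain ⟨U, hU, hsort, hprod⟩ := hred P hP
  have hpair' := hpair.conj hU
  set Q := U.map (Int.cast : ℤ → ℝ) * P * (U.map (Int.cast : ℤ → ℝ))ᵀ with hQ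
  have hQii : ∀ i, Q i i = (fun j => ((U i j : ℤ) : ℝ)) ⬝ᵥ P *ᵥ (fun j => ((U i j : ℤ) : ℝ)) := by
    intro i
    rw [hQ, rep_conj_apply]
    rfl
  have hQpos : ∀ i, 0 < Q i i := by
    intro i
    rw [hQii]
    have h1 := hP.dotProduct_mulVec_pos (rep_row_ne U hU i)
    simpa using h1
  have hcastA : ∀ (A' : Matrix (Fin n) (Fin n) ℤ) (i j : Fin n),
      (((U * A' * Uᵀ) i j : ℤ) : ℝ) = (fun j => ((U i j : ℤ) : ℝ)) ⬝ᵥ
        (A'.map (Int.cast : ℤ → ℝ)) *ᵥ (fun k => ((U j k : ℤ) : ℝ)) := by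
    intro A' i j
    rw [rep_conj_apply]
    simp only [dotProduct, mulVec, Matrix.map_apply]
    push_cast
    rfl
  -- the determinant
  have hdetS : |(A₀.det : ℝ)| ≤ S ^ (n - 1) := by
    obtain ⟨m, hm⟩ := sfp_dvd (κ := a 0)
    have hm0 : m ≠ 0 := by
      rintro rfl
      rw [mul_zero] at hm
      exact h0 hm
    have hco : IsCoprime (A₀.det) ((sfp (a 0) : ℤ) ^ (n - 1)) := by
      refine IsCoprime.pow_right ?_
      rw [Int.isCoprime_iff_gcd_eq_one]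
      by_contra hg
      obtain ⟨p, hp, hpg⟩ := Nat.exists_prime_and_dvd hg
      have h1 : (p : ℤ) ∣ A₀.det :=
        (Int.natCast_dvd_natCast.2 hpg).trans (Int.gcd_dvd_left _ _)
      have h2 : (p : ℤ) ∣ (sfp (a 0) : ℤ) :=
        (Int.natCast_dvd_natCast.2 hpg).trans (Int.gcd_dvd_right _ _)
      exact (hsf p hp (Int.natCast_dvd_natCast.1 h2)).1 h1
    have h1 : A₀.det ∣ m ^ (n - 1) := by
      rw [hm, mul_pow] at hdet
      exact hco.dvd_of_dvd_mul_left hdet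
    have h2 : |A₀.det| ≤ |m ^ (n - 1)| :=
      Int.le_of_dvd (abs_pos.2 (pow_ne_zero _ hm0)) ((abs_dvd_abs _ _).2 h1)
    rw [abs_pow] at h2
    have h3 : |(m : ℝ)| ≤ S := by
      have h4 : |(a 0 : ℝ)| = sfp (a 0) * |(m : ℝ)| := by
        rw [hm]
        push_cast
        rw [abs_mul, Nat.abs_cast, ← hm]
      have h5 : (0 : ℝ) < sfp (a 0) := by exact_mod_cast sfp_pos _
      rw [h4, mul_comm] at hS'
      exact le_of_mul_le_mul_right hS' h5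
    calc |(A₀.det : ℝ)| ≤ |(m : ℝ)| ^ (n - 1) := by exact_mod_cast h2
      _ ≤ S ^ (n - 1) := pow_le_pow_left₀ (abs_nonneg _) h3 _
  refine ⟨U * A₀ * Uᵀ, U * B₀ * Uᵀ, fun i => √(Q i i), hpair'.symmA, hpair'.symmB,
    hpair'.hasChar hδ, fun i => Real.sqrt_pos.2 (hQpos i), ?_, ?_, ?_, ?_, ?_, ?_⟩
  · intro i j
    rw [hcastA, ← Real.sqrt_mul (hQpos i).le]
    apply Real.abs_le_sqrt
    rw [hQii i, hQii j]
    exact hPA _ _
  · intro i j
    have h1 : |(((U * B₀ * Uᵀ) i j : ℤ) : ℝ)| ≤ 2 * H * (√(Q i i) * √(Q j j)) := by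
      rw [hcastA, ← Real.sqrt_mul (hQpos i).le]
      have h1 : 2 * H * √(Q i i * Q j j) = √((2 * H) ^ 2 * (Q i i * Q j j)) := by
        rw [Real.sqrt_mul (sq_nonneg (2 * H)), Real.sqrt_sq (by linarith)]
      rw [h1]
      apply Real.abs_le_sqrt
      rw [hQii i, hQii j]
      exact hPB _ _
    refine h1.trans ?_
    refine mul_le_mul_of_nonneg_right ?_ (by positivity)
    refine mul_le_mul_of_nonneg_right ?_ (by linarith)
    linarith
  · intro i j hij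
    exact Real.sqrt_le_sqrt (hsort i j hij)
  · rw [← Real.sqrt_prod _ (fun i _ => (hQpos i).le)]
    have h1 : ∏ i, Q i i ≤ K₀ * S ^ (n - 1) := by
      refine hprod.trans ?_
      rw [hPdet]
      gcongr
    have h2 : √(∏ i, Q i i) ≤ √((K₀ * S ^ (n - 1)) ^ 2) := by
      apply Real.sqrt_le_sqrt
      refine h1.trans ?_
      nlinarith
    rw [Real.sqrt_sq (by linarith)] at h2
    linarith
  · have h1 : H ≤ S / η * sfp (a 0) := by
      rw [div_mul_eq_mul_div, le_div_iff₀ hη]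
      linarith
    refine h1.trans ?_
    refine mul_le_mul_of_nonneg_right ?_ (Nat.cast_nonneg _)
    linarith
  · intro p hp hps
    exact (hsf p hp hps).2.conj U

end Stoll308.OF
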