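import Pool.Agent.Work.MP_308fa9_nt.OF.Mod

set_option autoImplicit false

/-!
The number of symmetric matrices in a box which are `- w wᵀ` modulo the primes `p ∣ q`, according
to the first nonzero diagonal entry.
-/

namespace Stoll308.OF

open Finset Matrix BG

namespace Row

/-- the index set of the entries outside of the row `r` -/
abbrev Jx {n : ℕ} (r : Fin n) := {x : Ix n // x.1.1 ≠ r}

/-- the vector of the entries outside of the row `r` -/
def ent {n : ℕ} (r : Fin n) (B : Matrix (Fin n) (Fin n) ℤ) : Jx r → ℤ := fun x => B x.1.1.1 x.1.1.2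

lemma rk1_mod {n : ℕ} {p : ℕ} {B : Matrix (Fin n) (Fin n) ℤ} {w : Fin n → ℤ}
    (hw : ∀ i j, (p : ℤ) ∣ B i j + w i * w j) (i j : Fin n) :
    ((B i j : ℤ) : ZMod p) = -((w i : ZMod p) * (w j : ZMod p)) := by
  have h := hw i j
  rw [← ZMod.intCast_zmod_eq_zero_iff_dvd] at h
  push_cast at h
  linear_combination h

lemma w_zero {n : ℕ} {p : ℕ} [Fact p.Prime] {B : Matrix (Fin n) (Fin n) ℤ} {w : Fin n → ℤ}
    (hw : ∀ i j, (p : ℤ) ∣ B i j + w i * w j) (i : Fin n) (hi : ((B i i : ℤ) : ZMod p) = 0) :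
    (w i : ZMod p) = 0 := by
  have h := rk1_mod hw i i
  rw [hi] at h
  have h2 : (w i : ZMod p) * (w i : ZMod p) = 0 := by linear_combination h
  exact mul_self_eq_zero.1 h2

lemma class_one {n : ℕ} (r : Fin n) (p : ℕ) (hp : p.Prime) (F : Finset (Matrix (Fin n) (Fin n) ℤ))
    (hF : ∀ B ∈ F, (∀ i, i < r → B i i = 0) ∧ Rk1 p B)
    (hrow : ∀ B ∈ F, ∀ B' ∈ F, ∀ j, r ≤ j → B r j = B' r j)
    (hpr : ∀ B ∈ F, ¬ (p : ℤ) ∣ B r r) :
    ((F.image (ent r)).image fun v x => ((v x : ℤ) : ZMod p)).card ≤ 1 := by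
  have : Fact p.Prime := ⟨hp⟩
  rw [card_le_one]
  intro u hu u' hu'
  obtain ⟨v, hv, rfl⟩ := mem_image.1 hu
  obtain ⟨v', hv', rfl⟩ := mem_image.1 hu'
  obtain ⟨B, hB, rfl⟩ := mem_image.1 hv
  obtain ⟨B', hB', rfl⟩ := mem_image.1 hv'
  obtain ⟨h0, w, hw⟩ := hF B hB
  obtain ⟨h0', w', hw'⟩ := hF B' hB'
  funext x
  simp only [ent]
  obtain ⟨⟨⟨i, j⟩, hij⟩, hi⟩ := x
  simp only at hij hi ⊢
  rcases lt_or_gt_of_ne hi with h | h
  · have e1 := w_zero hw i (by rw [h0 i h, Int.cast_zero])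
    have e2 := w_zero hw' i (by rw [h0' i h, Int.cast_zero])
    rw [rk1_mod hw, rk1_mod hw', e1, e2]
    ring
  · have hB0 : ((B r r : ℤ) : ZMod p) ≠ 0 := by
      intro h1
      rw [ZMod.intCast_zmod_eq_zero_iff_dvd] at h1
      exact hpr B hB h1
    have a1 := hrow B hB B' hB' r le_rfl
    have a2 := hrow B hB B' hB' i h.le
    have a3 := hrow B hB B' hB' j (h.le.trans hij)
    have b1 : ((B i j : ℤ) : ZMod p) * ((B r r : ℤ) : ZMod p)
        = ((B r i : ℤ) : ZMod p) * ((B r j : ℤ) : ZMod p) := by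
      rw [rk1_mod hw i j, rk1_mod hw r r, rk1_mod hw r i, rk1_mod hw r j]
      ring
    have b2 : ((B' i j : ℤ) : ZMod p) * ((B' r r : ℤ) : ZMod p)
        = ((B' r i : ℤ) : ZMod p) * ((B' r j : ℤ) : ZMod p) := by
      rw [rk1_mod hw' i j, rk1_mod hw' r r, rk1_mod hw' r i, rk1_mod hw' r j]
      ring
    rw [← a1, ← a2, ← a3, ← b1] at b2
    exact (mul_right_cancel₀ hB0 b2).symm

lemma class_pow {n : ℕ} (r : Fin n) (p : ℕ) (hp : p.Prime) (F : Finset (Matrix (Fin n) (Fin n) ℤ))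
    (hF : ∀ B ∈ F, (∀ i, i < r → B i i = 0) ∧ Rk1 p B)
    (_hpr : ∀ B ∈ F, (p : ℤ) ∣ B r r) :
    ((F.image (ent r)).image fun v x => ((v x : ℤ) : ZMod p)).card ≤ p ^ (n - 1 - r) := by
  classical
  have : Fact p.Prime := ⟨hp⟩
  set φ : ((Finset.Ioi r) → ZMod p) → (Jx r → ZMod p) := fun w x =>
    if h : r < x.1.1.1 then
      -(w ⟨x.1.1.1, mem_Ioi.2 h⟩ * w ⟨x.1.1.2, mem_Ioi.2 (h.trans_le x.1.2)⟩) else 0 with hφ
  have hsub : ((F.image (ent r)).image fun v x => ((v x : ℤ) : ZMod p)) ⊆ univ.image φ := by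
    intro u hu
    obtain ⟨v, hv, rfl⟩ := mem_image.1 hu
    obtain ⟨B, hB, rfl⟩ := mem_image.1 hv
    obtain ⟨h0, w, hw⟩ := hF B hB
    refine mem_image.2 ⟨fun i => (w i : ZMod p), mem_univ _, ?_⟩
    funext x
    obtain ⟨⟨⟨i, j⟩, hij⟩, hi⟩ := x
    simp only [hφ, ent] at hij hi ⊢
    split_ifs with h
    · rw [rk1_mod hw]
    · have h' : i < r := lt_of_le_of_ne (not_lt.1 h) hi
      rw [rk1_mod hw, w_zero hw i (by rw [h0 i h', Int.cast_zero])]
      ring
  refine (card_le_card hsub).trans (card_image_le.trans (le_of_eq ?_))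
  rw [card_univ, Fintype.card_fun, ZMod.card, Fintype.card_coe, Fin.card_Ioi]

lemma prod_ite_pow (q g e : ℕ) (hq : Squarefree q) (hg : g ∣ q) :
    ∏ p ∈ q.primeFactors, (if p ∣ g then p ^ e else 1) = g ^ e := by
  have hg' : Squarefree g := hq.squarefree_of_dvd hg
  rw [← prod_filter]
  have h1 : q.primeFactors.filter (fun p => p ∣ g) = g.primeFactors := by
    ext p
    simp only [mem_filter, Nat.mem_primeFactors]
    constructor
    · rintro ⟨⟨h1, h2, h3⟩, h4⟩
      exact ⟨h1, h4, hg'.ne_zero⟩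
    · rintro ⟨h1, h2, h3⟩
      exact ⟨⟨h1, h2.trans hg, hq.ne_zero⟩, h2⟩
  rw [h1, prod_pow, Nat.prod_primeFactors_of_squarefree hg']

lemma ent_inj {n : ℕ} (r : Fin n) (F : Finset (Matrix (Fin n) (Fin n) ℤ))
    (hsym : ∀ B ∈ F, B.IsSymm)
    (hrow : ∀ B ∈ F, ∀ B' ∈ F, ∀ j, r ≤ j → B r j = B' r j) :
    Set.InjOn (ent r) (F : Set (Matrix (Fin n) (Fin n) ℤ)) := by
  intro B hB B' hB' h
  have hup : ∀ i j : Fin n, i ≤ j → B i j = B' i j := by
    intro i j hij
    by_cases hi : i = r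
    · rw [hi] at hij ⊢
      exact hrow B hB B' hB' j hij
    · exact congrFun h ⟨⟨(i, j), hij⟩, hi⟩
  ext i j
  rcases le_total i j with h1 | h1
  · exact hup i j h1
  · have e1 : B i j = B j i := (hsym B hB).apply j i
    have e2 : B' i j = B' j i := (hsym B' hB').apply j i
    rw [e1, e2]
    exact hup j i h1

end Row

open Row

theorem row_count {n : ℕ} (r : Fin n) (q : ℕ) (hq : Squarefree q) (Y : Fin n → Fin n → ℝ)
    (hY : ∀ i j, 0 ≤ Y i j) (hmono : ∀ j, r ≤ j → Y r r ≤ Y r j)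
    (T : Finset (Matrix (Fin n) (Fin n) ℤ))
    (hT : ∀ B ∈ T, B.IsSymm ∧ (∀ i, i < r → B i i = 0) ∧ B r r ≠ 0 ∧
      (∀ i j, |(B i j : ℝ)| ≤ Y i j) ∧ ∀ p : ℕ, p.Prime → p ∣ q → Rk1 p B) :
    (T.card : ℝ) ≤ (∑ g ∈ q.divisors, (1 / (g : ℝ))) *
      (∏ j ∈ univ.filter (fun j => r ≤ j), (3 * Y r j)) *
      ∏ x ∈ (univ : Finset (Ix n)).filter (fun x => x.1.1 ≠ r),
        (2 * Y x.1.1 x.1.2 / q + 1) := by
  classical
  have hq0 : 0 < q := Nat.pos_of_ne_zero hq.ne_zero
  set P1 : ℝ := ∏ j ∈ univ.filter (fun j => r ≤ j), (3 * Y r j) with hP1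
  set P2 : ℝ := ∏ x ∈ (univ : Finset (Ix n)).filter (fun x => x.1.1 ≠ r),
        (2 * Y x.1.1 x.1.2 / q + 1) with hP2
  have hP1' : 0 ≤ P1 := prod_nonneg fun j _ => mul_nonneg (by norm_num) (hY _ _)
  have hP2' : 0 ≤ P2 := prod_nonneg fun x _ => by
    have := hY x.1.1 x.1.2
    positivity
  have claim : ∀ g ∈ q.divisors,
      ((T.filter (fun B => Nat.gcd (B r r).natAbs q = g)).card : ℝ) ≤ 1 / (g : ℝ) * P1 * P2 := by
    intro g hg
    have hgq : g ∣ q := Nat.dvd_of_mem_divisors hg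
    have hg0 : 0 < g := Nat.pos_of_dvd_of_pos hgq hq0
    have hgR : (0 : ℝ) < g := by exact_mod_cast hg0
    have hgsq : Squarefree g := hq.squarefree_of_dvd hgq
    set F := T.filter (fun B => Nat.gcd (B r r).natAbs q = g) with hF
    have hFT : ∀ B ∈ F, B ∈ T := fun B hB => (mem_filter.1 hB).1
    have hFg : ∀ B ∈ F, Nat.gcd (B r r).natAbs q = g := fun B hB => (mem_filter.1 hB).2
    have hb : ∀ B ∈ F, (g : ℤ) ∣ B r r := by
      intro B hB
      rw [Int.natCast_dvd, ← hFg B hB]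
      exact Nat.gcd_dvd_left _ _
    have hc : ∀ B ∈ F, ∀ p : ℕ, p.Prime → p ∣ q → ¬ p ∣ g → ¬ (p : ℤ) ∣ B r r := by
      intro B hB p _ hpq hpg h
      apply hpg
      rw [← hFg B hB]
      exact Nat.dvd_gcd (Int.natCast_dvd.1 h) hpq
    have hd : ∀ B ∈ F, ∀ j, (g : ℤ) ∣ B r j := by
      intro B hB j
      rw [Int.natCast_dvd, ← Nat.prod_primeFactors_of_squarefree hgsq]
      apply Finset.prod_primes_dvd
      · intro p hp
        exact (Nat.prime_of_mem_primeFactors hp).prime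
      · intro p hp
        have hpp := Nat.prime_of_mem_primeFactors hp
        have hpg := Nat.dvd_of_mem_primeFactors hp
        have : Fact p.Prime := ⟨hpp⟩
        obtain ⟨w, hw⟩ := (hT B (hFT B hB)).2.2.2.2 p hpp (hpg.trans hgq)
        have h1 : ((B r r : ℤ) : ZMod p) = 0 := by
          rw [ZMod.intCast_zmod_eq_zero_iff_dvd]
          exact (Int.natCast_dvd_natCast.2 hpg).trans (hb B hB)
        have h2 := w_zero hw r h1
        rw [← Int.natCast_dvd, ← ZMod.intCast_zmod_eq_zero_iff_dvd, rk1_mod hw, h2]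
        ring
    have he : ∀ B ∈ F, (g : ℝ) ≤ Y r r := by
      intro B hB
      have h1 : B r r ≠ 0 := (hT B (hFT B hB)).2.2.1
      have h2 : g ≤ (B r r).natAbs :=
        Nat.le_of_dvd (Int.natAbs_pos.2 h1) (Int.natCast_dvd.1 (hb B hB))
      have h3 : (g : ℝ) ≤ ((B r r).natAbs : ℝ) := by exact_mod_cast h2
      rw [Nat.cast_natAbs, Int.cast_abs] at h3
      exact h3.trans ((hT B (hFT B hB)).2.2.2.1 r r)
    rcases F.eq_empty_or_nonempty with hemp | ⟨B₀, hB₀⟩
    · rw [hemp, card_empty, Nat.cast_zero]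
      positivity
    have hgY := he B₀ hB₀
    set row : Matrix (Fin n) (Fin n) ℤ → ({j : Fin n // r ≤ j} → ℤ) := fun B j => B r j with hrow
    -- the rows
    have hR : ((F.image row).card : ℝ) ≤ ((1 : ℝ) / g) ^ (n - r) * P1 := by
      have h1 := box_mod g hg0 (fun j : {j : Fin n // r ≤ j} => Y r j) (fun j => hY _ _)
        (F.image row) (by
          intro v hv j
          obtain ⟨B, hB, rfl⟩ := mem_image.1 hv
          exact (hT B (hFT B hB)).2.2.2.1 r j)
      have h2 : ((F.image row).image fun v i => ((v i : ℤ) : ZMod g)).card ≤ 1 := by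
        rw [card_le_one]
        intro u hu u' hu'
        obtain ⟨v, hv, rfl⟩ := mem_image.1 hu
        obtain ⟨v', hv', rfl⟩ := mem_image.1 hu'
        obtain ⟨B, hB, rfl⟩ := mem_image.1 hv
        obtain ⟨B', hB', rfl⟩ := mem_image.1 hv'
        funext j
        simp only [hrow]
        rw [(ZMod.intCast_zmod_eq_zero_iff_dvd _ _).2 (hd B hB j),
          (ZMod.intCast_zmod_eq_zero_iff_dvd _ _).2 (hd B' hB' j)]
      have h2' : (((F.image row).image fun v i => ((v i : ℤ) : ZMod g)).card : ℝ) ≤ 1 := by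
        exact_mod_cast h2
      have h3 : ∏ j : {j : Fin n // r ≤ j}, (2 * Y r j / g + 1) ≤
          ∏ j : {j : Fin n // r ≤ j}, (1 / (g : ℝ) * (3 * Y r j)) := by
        refine prod_le_prod (fun j _ => ?_) fun j _ => ?_
        · have := hY r j
          positivity
        · have h4 : (g : ℝ) ≤ Y r j := hgY.trans (hmono j j.2)
          have h5 : 1 ≤ Y r j / g := by rwa [one_le_div hgR]
          calc 2 * Y r j / g + 1 ≤ 2 * Y r j / g + Y r j / g := by linarith
            _ = _ := by ring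
      have h6 : ∏ j : {j : Fin n // r ≤ j}, (1 / (g : ℝ) * (3 * Y r j)) =
          ((1 : ℝ) / g) ^ (n - r) * P1 := by
        rw [prod_mul_distrib, prod_const, hP1,
          Finset.prod_subtype (univ.filter (fun j => r ≤ j)) (p := fun j => r ≤ j) (by simp)]
        congr 2
        rw [card_univ, Fintype.card_subtype]
        have : (univ.filter fun j : Fin n => r ≤ j) = Finset.Ici r := by
          ext j
          simp
        rw [this, Fin.card_Ici]
      have h7 : 0 ≤ ∏ j : {j : Fin n // r ≤ j}, (2 * Y r j / g + 1) :=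
        prod_nonneg fun j _ => by
          have := hY r j
          positivity
      calc ((F.image row).card : ℝ) ≤ _ := h1
        _ ≤ 1 * ∏ j : {j : Fin n // r ≤ j}, (2 * Y r j / g + 1) :=
          mul_le_mul_of_nonneg_right h2' h7
        _ ≤ _ := by rw [one_mul, ← h6]; exact h3
    -- the fibres
    have hfib : ∀ ρ ∈ F.image row, ((F.filter (fun B => row B = ρ)).card : ℝ) ≤
        (g : ℝ) ^ (n - 1 - r) * P2 := by
      intro ρ _
      set G := F.filter (fun B => row B = ρ) with hG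
      have hGF : ∀ B ∈ G, B ∈ F := fun B hB => (mem_filter.1 hB).1
      have hGr : ∀ B ∈ G, ∀ B' ∈ G, ∀ j, r ≤ j → B r j = B' r j := by
        intro B hB B' hB' j hj
        have h1 := congrFun ((mem_filter.1 hB).2.trans (mem_filter.1 hB').2.symm) ⟨j, hj⟩
        exact h1
      have hinj := ent_inj r G (fun B hB => (hT B (hFT B (hGF B hB))).1) hGr
      have h1 : G.card = (G.image (ent r)).card := (card_image_of_injOn hinj).symm
      have h2 := box_mod q hq0 (fun x : Jx r => Y x.1.1.1 x.1.1.2) (fun x => hY _ _)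
        (G.image (ent r)) (by
          intro v hv x
          obtain ⟨B, hB, rfl⟩ := mem_image.1 hv
          exact (hT B (hFT B (hGF B hB))).2.2.2.1 _ _)
      have h3 := crt_card q hq (G.image (ent r))
      have h4 : ∏ p ∈ q.primeFactors,
          ((G.image (ent r)).image fun v i => ((v i : ℤ) : ZMod p)).card ≤
          ∏ p ∈ q.primeFactors, (if p ∣ g then p ^ (n - 1 - (r : ℕ)) else 1) := by
        refine prod_le_prod' fun p hp => ?_
        have hpp := Nat.prime_of_mem_primeFactors hp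
        have hpq := Nat.dvd_of_mem_primeFactors hp
        have hFp : ∀ B ∈ G, (∀ i, i < r → B i i = 0) ∧ Rk1 p B := fun B hB =>
          ⟨(hT B (hFT B (hGF B hB))).2.1, (hT B (hFT B (hGF B hB))).2.2.2.2 p hpp hpq⟩
        split_ifs with hpg
        · exact class_pow r p hpp G hFp fun B hB =>
            (Int.natCast_dvd_natCast.2 hpg).trans (hb B (hGF B hB))
        · exact class_one r p hpp G hFp hGr fun B hB => hc B (hGF B hB) p hpp hpq hpg
      rw [prod_ite_pow q g _ hq hgq] at h4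
      have h5 : (((G.image (ent r)).image fun v i => ((v i : ℤ) : ZMod q)).card : ℝ) ≤
          (g : ℝ) ^ (n - 1 - (r : ℕ)) := by exact_mod_cast h3.trans h4
      have h6 : ∏ x : Jx r, (2 * Y x.1.1.1 x.1.1.2 / q + 1) = P2 := by
        rw [hP2, Finset.prod_subtype ((univ : Finset (Ix n)).filter (fun x => x.1.1 ≠ r))
          (p := fun x => x.1.1 ≠ r) (by simp)]
      rw [h1]
      refine h2.trans ?_
      rw [h6]
      exact mul_le_mul_of_nonneg_right h5 hP2'
    have hsum : (F.card : ℝ) ≤ ((F.image row).card : ℝ) * ((g : ℝ) ^ (n - 1 - (r : ℕ)) * P2) := by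
      rw [card_eq_sum_card_image row F, Nat.cast_sum, ← nsmul_eq_mul]
      exact sum_le_card_nsmul _ _ _ hfib
    have hr : (r : ℕ) < n := r.2
    have e1 : n - (r : ℕ) = (n - 1 - (r : ℕ)) + 1 := by omega
    calc (F.card : ℝ) ≤ ((F.image row).card : ℝ) * ((g : ℝ) ^ (n - 1 - (r : ℕ)) * P2) := hsum
      _ ≤ (((1 : ℝ) / g) ^ (n - r) * P1) * ((g : ℝ) ^ (n - 1 - (r : ℕ)) * P2) :=
        mul_le_mul_of_nonneg_right hR (by positivity)
      _ = (((1 : ℝ) / g) ^ (n - 1 - (r : ℕ)) * (g : ℝ) ^ (n - 1 - (r : ℕ))) * (1 / g * P1 * P2) := by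
        rw [e1, pow_succ]
        ring
      _ = 1 / g * P1 * P2 := by
        rw [← mul_pow, one_div, inv_mul_cancel₀ hgR.ne', one_pow, one_mul]
  have hcard : T.card = ∑ g ∈ q.divisors,
      (T.filter (fun B => Nat.gcd (B r r).natAbs q = g)).card := by
    refine card_eq_sum_card_fiberwise fun B _ => ?_
    exact mem_coe.2 (Nat.mem_divisors.2 ⟨Nat.gcd_dvd_right _ _, hq0.ne'⟩)
  rw [hcard]
  push_cast
  rw [sum_mul, sum_mul]
  exact sum_le_sum claim

end Stoll308.OF
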